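import Pool.Agent.Lib_helper45.Bil.Beam

/-!
# Billiards in polygons: codes, left extensions, rays from a corner
-/

open Set Filter Topology Metric
open scoped ComplexConjugate

namespace Pool.Agent.Lib_helper45.Bil

open Pool.Agent.Billiard

variable {P : Polygon}

theorem isCode_iff {w : List (ZMod P.k)} : P.IsCode w ↔
    ∃ z u : ℂ, ∃ t : ℝ, u ≠ 0 ∧ z + t * u ∈ U P ∧ Path P z u t w := by
  constructor
  · rintro ⟨x, hx, v, hv, hf⟩
    refine ⟨x, v, 0, hv, ?_, (follows_iff w x x v 0 (by simp)).1 hf⟩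
    rw [Complex.ofReal_zero, zero_mul, add_zero]
    exact hx
  · rintro ⟨z, u, t, hu, hU, hp⟩
    exact ⟨z + t * u, hU, u, hu, (follows_iff w _ z u t rfl).2 hp⟩

variable (P) in
/-- The set of codes of length `n`. -/
def WS (n : ℕ) : Set (List (ZMod P.k)) := {w | w.length = n ∧ P.IsCode w}

theorem WS_finite (n : ℕ) : (WS P n).Finite :=
  (List.finite_length_eq (ZMod P.k) n).subset fun _ h => h.1

theorem complexity_eq (n : ℕ) : P.complexity n = (WS P n).ncard := rfl

/-- A line leaving an open side inwards gives a code that starts with that side. -/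
theorem cons_code {c : ZMod P.k} {z u : ℂ} {t₀ T : ℝ} {w : List (ZMod P.k)} (hu : u ≠ 0)
    (hT : 0 < T) (hrel : z + t₀ * u ∈ rel P c) (hU : ∀ τ ∈ Ioc t₀ (t₀ + T), z + τ * u ∈ U P)
    (hp : Path P z u (t₀ + T) w) : P.IsCode (c :: w) := by
  have e : ∀ s : ℝ, z + (s : ℂ) * (-u) = z + ((-s : ℝ) : ℂ) * u := by intro s; push_cast; ring
  have h1 : z + ((-t₀ : ℝ) : ℂ) * (-u) ∈ rel P c := by rw [e, neg_neg]; exact hrel
  have h2 : ∀ τ ∈ Ico (-(t₀ + T)) (-t₀), z + (τ : ℂ) * (-u) ∈ U P := by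
    intro τ hτ
    rw [e]
    exact hU _ ⟨by linarith [hτ.2], by linarith [hτ.1]⟩
  obtain ⟨η, hη, h3⟩ := after_hit (by linarith : -(t₀ + T) < -t₀) h1 h2
  have h4 : ∀ τ ∈ Ioo (t₀ - η) t₀, refl P c z + (τ : ℂ) * lrefl P c u ∈ U P := by
    intro τ hτ
    have := h3 (-τ) ⟨by linarith [hτ.2], by linarith [hτ.1]⟩
    rw [e, neg_neg, refl_add] at this
    exact this
  rw [isCode_iff]
  refine ⟨refl P c z, lrefl P c u, t₀ - η / 2, lrefl_ne_zero c hu, h4 _ ⟨by linarith, by linarith⟩,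
    t₀, by linarith, fun τ hτ => h4 τ ⟨by linarith [hτ.1], hτ.2⟩, ?_, ?_⟩
  · rw [refl_line hrel]; exact hrel
  · rw [refl_refl, lrefl_lrefl]
    exact hp.start_earlier (by linarith) hU

/-- Every code can be extended to the left. -/
theorem left_ext {w : List (ZMod P.k)} (hw : P.IsCode w) : ∃ c, P.IsCode (c :: w) := by
  obtain ⟨z, u, t, hu, hU, hp⟩ := isCode_iff.1 hw
  have hcont : Continuous fun σ : ℝ => (z + (Complex.I * (σ : ℂ)) * u, u) := by fun_prop
  have hev1 : ∀ᶠ σ : ℝ in 𝓝 0, Path P (z + (Complex.I * (σ : ℂ)) * u) u t w := by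
    have := hcont.tendsto 0
    simp only [Complex.ofReal_zero, mul_zero, zero_mul, add_zero] at this
    exact this.eventually (hp.eventually hU)
  have hev2 : ∀ᶠ σ : ℝ in 𝓝 0, z + (Complex.I * (σ : ℂ)) * u + t * u ∈ U P := by
    have hc : Continuous fun σ : ℝ => z + (Complex.I * (σ : ℂ)) * u + t * u := by fun_prop
    have := hc.tendsto 0
    simp only [Complex.ofReal_zero, mul_zero, zero_mul, add_zero] at this
    exact this.eventually (isOpen_U.mem_nhds hU)
  have hev3 : ∀ᶠ σ : ℝ in 𝓝[>] 0, ∀ j : ZMod P.k, ((P.vertex j - z) / u).im ≠ σ := by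
    rw [eventually_all]
    intro j
    by_cases h : ((P.vertex j - z) / u).im = 0
    · filter_upwards [self_mem_nhdsWithin] with σ hσ
      rw [h]; exact (ne_of_gt hσ).symm
    · have h1 : ∀ᶠ σ : ℝ in 𝓝 0, σ ≠ ((P.vertex j - z) / u).im :=
        isOpen_ne.mem_nhds (Ne.symm h)
      exact (h1.filter_mono (nhdsWithin_le_nhds (s := Ioi 0))).mono fun _ hy => Ne.symm hy
  obtain ⟨σ, ⟨h1, h2⟩, h3⟩ :=
    (((hev1.and hev2).filter_mono (nhdsWithin_le_nhds (s := Ioi 0))).and hev3).exists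
  set z' := z + (Complex.I * (σ : ℂ)) * u with hz'
  have e : ∀ s : ℝ, z' + (s : ℂ) * (-u) = z' + ((-s : ℝ) : ℂ) * u := by intro s; push_cast; ring
  have hstart : z' + ((-t : ℝ) : ℂ) * (-u) ∈ U P := by rw [e, neg_neg]; exact h2
  obtain ⟨t', ht', hG, hUU⟩ := exists_hit (neg_ne_zero.2 hu) hstart
  have hnv : ∀ j, z' + (t' : ℂ) * (-u) ≠ P.vertex j := by
    intro j hj
    apply h3 j
    rw [← hj, hz']
    have : (z + Complex.I * (σ : ℂ) * u + (t' : ℂ) * (-u) - z) / u = Complex.I * σ - t' := by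
      field_simp; ring
    rw [this]; simp
  obtain ⟨c, hc⟩ := exists_rel_of_Gam hG hnv
  rw [e] at hc
  refine ⟨c, cons_code hu (by linarith : 0 < t + t') hc (fun τ hτ => ?_) ?_⟩
  · have := hUU (-τ) ⟨by linarith [hτ.2], by linarith [hτ.1]⟩
    rw [e, neg_neg] at this
    exact this
  · have : -t' + (t + t') = t := by ring
    rw [this]; exact h1

/-! ### Rays from a corner -/

/-- Inward directions at a corner. -/
def Corner.Cone (C : Corner P) (u : ℂ) : Prop :=
  0 < (C.qb * conj u).im ∧ 0 < (u * conj C.qr).im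

/-- The corner point. -/
noncomputable def Corner.v (C : Corner P) : ℂ := P.vertex C.j

theorem Corner.Cone.ne_zero {C : Corner P} {u : ℂ} (h : C.Cone u) : u ≠ 0 := by
  rintro rfl
  have := h.1
  simp at this

theorem Corner.mem_U {C : Corner P} {u : ℂ} (h : C.Cone u) (hn : ‖u‖ < C.rad) : C.v + u ∈ U P := by
  have hb : C.v + u ∈ ball (P.vertex C.j) C.rad := by
    rw [mem_ball, dist_eq_norm]; unfold Corner.v; rw [add_sub_cancel_left]; exact hn
  rw [C.hU _ hb]
  have : C.v + u - P.vertex C.j = u := by unfold Corner.v; ring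
  rw [this]; exact h

theorem Corner.Cone.smul {C : Corner P} {u : ℂ} (h : C.Cone u) {τ : ℝ} (hτ : 0 < τ) :
    C.Cone (τ * u) := by
  refine ⟨?_, ?_⟩
  · rw [cross_mul_right]; exact mul_pos hτ h.1
  · rw [cross_mul_left]; exact mul_pos hτ h.2

theorem Corner.ray_mem {C : Corner P} {u : ℂ} (h : C.Cone u) {τ : ℝ} (hτ : 0 < τ)
    (hn : τ * ‖u‖ < C.rad) : C.v + τ * u ∈ U P := by
  apply C.mem_U (h.smul hτ)
  rw [norm_mul, Complex.norm_real, Real.norm_eq_abs, abs_of_pos hτ]; exact hn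

/-- A good starting time on a ray. -/
theorem Corner.exists_start (C : Corner P) (u : ℂ) : ∃ τ > 0, τ * ‖u‖ < C.rad := by
  refine ⟨C.rad / (2 * (‖u‖ + 1)), div_pos C.rad_pos (by positivity), ?_⟩
  have := C.rad_pos
  rw [div_mul_eq_mul_div, div_lt_iff₀ (by positivity)]
  nlinarith [norm_nonneg u]

/-- Codes of length `n` of rays from the corner. -/
def Corner.RC (C : Corner P) (n : ℕ) : Set (List (ZMod P.k)) :=
  {X | X.length = n ∧ ∃ u, C.Cone u ∧ Path P C.v u 0 X}

theorem Corner.path_start {C : Corner P} {u : ℂ} (h : C.Cone u) {τ : ℝ} (hτ : 0 < τ)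
    (hn : τ * ‖u‖ < C.rad) {X : List (ZMod P.k)} :
    Path P C.v u 0 X ↔ Path P C.v u τ X := by
  have hU : ∀ s ∈ Ioc 0 τ, C.v + (s : ℂ) * u ∈ U P := by
    intro s hs
    apply C.ray_mem h hs.1
    have : s * ‖u‖ ≤ τ * ‖u‖ := mul_le_mul_of_nonneg_right hs.2 (norm_nonneg _)
    linarith
  exact ⟨fun hp => hp.of_start hτ.le hU, fun hp => hp.start_earlier hτ.le hU⟩

theorem Corner.RC_subset (C : Corner P) (n : ℕ) : C.RC n ⊆ WS P n := by
  rintro X ⟨hX, u, hu, hp⟩
  obtain ⟨τ, hτ, hn⟩ := C.exists_start u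
  refine ⟨hX, isCode_iff.2 ⟨C.v, u, τ, hu.ne_zero, C.ray_mem hu hτ hn, ?_⟩⟩
  exact (Corner.path_start hu hτ hn).1 hp

theorem Corner.RC_finite (C : Corner P) (n : ℕ) : (C.RC n).Finite := (WS_finite n).subset (C.RC_subset n)

/-- Codes of rays from the corner can be preceded by either adjacent side. -/
theorem Corner.ext_aux {C : Corner P} {c : ZMod P.k} {q : ℂ}
    (hc : ∀ l : ℝ, 0 < l → l < 1 → P.vertex C.j + l * q ∈ rel P c)
    (hq : ∀ u, C.Cone u → ∀ l τ : ℝ, 0 < l → 0 < τ → C.Cone (l * q + τ * u))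
    {X : List (ZMod P.k)} {n : ℕ} (hX : X ∈ C.RC n) : P.IsCode (c :: X) := by
  obtain ⟨_, u, hu, hp⟩ := hX
  obtain ⟨τ₀, hτ₀, hn⟩ := C.exists_start u
  have hp' := (Corner.path_start hu hτ₀ hn).1 hp
  have hev1 : ∀ᶠ l : ℝ in 𝓝 0, Path P (C.v + (l : ℂ) * q) u τ₀ X := by
    have hc : Continuous fun l : ℝ => (C.v + (l : ℂ) * q, u) := by fun_prop
    have h1 := hc.tendsto 0
    simp only [Complex.ofReal_zero, zero_mul, add_zero] at h1
    exact h1.eventually (hp'.eventually (C.ray_mem hu hτ₀ hn))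
  have hev2 : ∀ᶠ l : ℝ in 𝓝 0, l * ‖q‖ + τ₀ * ‖u‖ < C.rad := by
    have hc : Continuous fun l : ℝ => l * ‖q‖ + τ₀ * ‖u‖ := by fun_prop
    have h1 := hc.tendsto 0
    simp only [zero_mul, zero_add] at h1
    exact h1.eventually (gt_mem_nhds hn)
  have hev3 : ∀ᶠ l : ℝ in 𝓝[>] 0, 0 < l ∧ l < 1 := Ioo_mem_nhdsGT one_pos
  obtain ⟨l, ⟨h1, h2⟩, h3, h4⟩ :=
    (((hev1.and hev2).filter_mono (nhdsWithin_le_nhds (s := Ioi 0))).and hev3).exists
  have hrel := hc l h3 h4
  refine cons_code (t₀ := 0) (T := τ₀) (z := C.v + l * q) hu.ne_zero hτ₀ (by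
    simpa [Corner.v] using hrel) (fun τ hτ => ?_) (by rw [zero_add]; exact h1)
  rw [zero_add] at hτ
  have : C.v + l * q + τ * u = C.v + (l * q + τ * u) := by ring
  rw [this]
  apply C.mem_U (hq u hu l τ h3 hτ.1)
  calc ‖(l : ℂ) * q + τ * u‖ ≤ ‖(l : ℂ) * q‖ + ‖(τ : ℂ) * u‖ := norm_add_le _ _
    _ = l * ‖q‖ + τ * ‖u‖ := by
        rw [norm_mul, norm_mul, Complex.norm_real, Complex.norm_real, Real.norm_eq_abs,
          Real.norm_eq_abs, abs_of_pos h3, abs_of_pos hτ.1]
    _ ≤ l * ‖q‖ + τ₀ * ‖u‖ := by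
        have := mul_le_mul_of_nonneg_right hτ.2 (norm_nonneg u)
        linarith
    _ < C.rad := h2

theorem cross_add_right (q a b : ℂ) : (q * conj (a + b)).im = (q * conj a).im + (q * conj b).im := by
  rw [map_add, mul_add, Complex.add_im]

theorem cross_add_left (q a b : ℂ) : ((a + b) * conj q).im = (a * conj q).im + (b * conj q).im := by
  rw [add_mul, Complex.add_im]

theorem Corner.cone_b (C : Corner P) (u : ℂ) (hu : C.Cone u) (l τ : ℝ) (hl : 0 < l) (hτ : 0 < τ) :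
    C.Cone (l * C.qb + τ * u) := by
  refine ⟨?_, ?_⟩
  · rw [cross_add_right, cross_self, cross_mul_right, zero_add]; exact mul_pos hτ hu.1
  · rw [cross_add_left, cross_mul_left, cross_mul_left]
    exact add_pos (mul_pos hl C.cross) (mul_pos hτ hu.2)

theorem Corner.cone_r (C : Corner P) (u : ℂ) (hu : C.Cone u) (l τ : ℝ) (hl : 0 < l) (hτ : 0 < τ) :
    C.Cone (l * C.qr + τ * u) := by
  refine ⟨?_, ?_⟩
  · rw [cross_add_right, cross_mul_right, cross_mul_right]
    exact add_pos (mul_pos hl C.cross) (mul_pos hτ hu.1)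
  · rw [cross_add_left, cross_self', cross_mul_left, zero_add]; exact mul_pos hτ hu.2

theorem Corner.ext_b {C : Corner P} {X : List (ZMod P.k)} {n : ℕ} (hX : X ∈ C.RC n) :
    P.IsCode (C.b :: X) := Corner.ext_aux C.hb C.cone_b hX

theorem Corner.ext_r {C : Corner P} {X : List (ZMod P.k)} {n : ℕ} (hX : X ∈ C.RC n) :
    P.IsCode (C.r :: X) := Corner.ext_aux C.hr C.cone_r hX

/-- The complexity grows by at least the number of codes of rays from the corner. -/
theorem Corner.growth (C : Corner P) (n : ℕ) :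
    P.complexity n + (C.RC n).ncard ≤ P.complexity (n + 1) := by
  classical
  rw [complexity_eq, complexity_eq]
  have hch : ∀ w : List (ZMod P.k), ∃ c, P.IsCode w → P.IsCode (c :: w) := by
    intro w
    by_cases h : P.IsCode w
    · obtain ⟨c, hc⟩ := left_ext h
      exact ⟨c, fun _ => hc⟩
    · exact ⟨0, fun h' => absurd h' h⟩
  choose f hf using hch
  set g : List (ZMod P.k) → ZMod P.k := fun w => if f w = C.b then C.r else C.b with hg
  have hgf : ∀ w, g w ≠ f w := by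
    intro w
    simp only [hg]
    split_ifs with h
    · rw [h]; exact C.hbr.symm
    · exact fun h' => h h'.symm
  set A : Set (List (ZMod P.k)) := (fun w => f w :: w) '' WS P n with hA
  set B : Set (List (ZMod P.k)) := (fun w => g w :: w) '' C.RC n with hB
  have hAc : A.ncard = (WS P n).ncard := by
    apply ncard_image_of_injective
    intro w w' h
    exact (List.cons.inj h).2
  have hBc : B.ncard = (C.RC n).ncard := by
    apply ncard_image_of_injective
    intro w w' h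
    exact (List.cons.inj h).2
  have hdisj : Disjoint A B := by
    rw [Set.disjoint_left]
    rintro _ ⟨w, _, rfl⟩ ⟨w', _, h⟩
    obtain ⟨h1, h2⟩ := List.cons.inj h
    subst h2
    exact hgf w' h1
  have hsub : A ∪ B ⊆ WS P (n + 1) := by
    rintro _ (⟨w, hw, rfl⟩ | ⟨w, hw, rfl⟩)
    · exact ⟨by simp [hw.1], hf w hw.2⟩
    · refine ⟨by simp [hw.1], ?_⟩
      simp only [hg]
      split_ifs
      · exact Corner.ext_r hw
      · exact Corner.ext_b hw
  rw [← hAc, ← hBc, ← ncard_union_eq hdisj ((WS_finite n).image _) ((C.RC_finite n).image _)]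
  exact ncard_le_ncard hsub (WS_finite _)

end Pool.Agent.Lib_helper45.Bil
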