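import Pool.Agent.Lib_helper45.Bil.Diag

/-!
# Billiards in polygons: the length of a path is at least a constant times the number of bounces
-/

open Set Filter Topology Metric
open scoped ComplexConjugate

namespace Pool.Agent.Lib_helper45.Bil

open Pool.Agent.Billiard

variable {P : Polygon}

/-- Two consecutive sides do not overlap. -/
theorem no_overlap (i : ZMod P.k) {r : ℝ} (hr : 0 < r) : dir P (i + 1) ≠ r * (-dir P i) := by
  intro h
  set s := min 1 (1 / r) with hs
  have hs0 : 0 < s := lt_min one_pos (by positivity)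
  have hsr : s * r ≤ 1 := by
    have : s ≤ 1 / r := min_le_right _ _
    calc s * r ≤ 1 / r * r := mul_le_mul_of_nonneg_right this hr.le
      _ = 1 := by field_simp
  have hm1 : P.vertex (i + 1) + s * dir P (i + 1) ∈ sideOf P.vertex (i + 1) :=
    mem_side_iff.2 ⟨s, hs0.le, min_le_left _ _, rfl⟩
  have hm2 : P.vertex (i + 1) + s * dir P (i + 1) ∈ sideOf P.vertex i := by
    refine mem_side_iff.2 ⟨1 - s * r, by linarith, by
      have : 0 ≤ s * r := by positivity
      linarith, ?_⟩
    have e1 : P.vertex (i + 1) = P.vertex i + dir P i := by unfold dir; ring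
    rw [h, e1]; push_cast; ring
  have hmem : P.vertex (i + 1) + s * dir P (i + 1) ∈
      sideOf P.vertex i ∩ sideOf P.vertex (i + 1) := ⟨hm2, hm1⟩
  rw [P.inter_next] at hmem
  have h7 := mem_singleton_iff.1 hmem
  have h8 : (s : ℂ) * dir P (i + 1) = 0 := by linear_combination h7
  rcases mul_eq_zero.1 h8 with h9 | h9
  · have : s = 0 := by exact_mod_cast h9
    exact hs0.ne' this
  · exact dir_ne (i + 1) h9

/-- Angle at the common vertex of two sides. -/
theorem angle_next (i : ZMod P.k) {x y : ℂ} (hx : x ∈ rel P i) (hy : y ∈ rel P (i + 1)) :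
    InnerProductGeometry.angle (x - P.vertex (i + 1)) (y - P.vertex (i + 1)) =
      InnerProductGeometry.angle (-dir P i) (dir P (i + 1)) := by
  obtain ⟨l, h0, h1, rfl⟩ := mem_rel_iff.1 hx
  obtain ⟨m, h2, h3, rfl⟩ := mem_rel_iff.1 hy
  have e1 : P.vertex i + l * dir P i - P.vertex (i + 1) = (1 - l : ℝ) • (-dir P i) := by
    rw [Complex.real_smul]; unfold dir; push_cast; ring
  have e2 : P.vertex (i + 1) + m * dir P (i + 1) - P.vertex (i + 1) = m • dir P (i + 1) := by
    rw [Complex.real_smul]; ring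
  rw [e1, e2, InnerProductGeometry.angle_smul_left_of_pos _ _ (by linarith),
    InnerProductGeometry.angle_smul_right_of_pos _ _ h2]

theorem angle_next_pos (i : ZMod P.k) :
    0 < InnerProductGeometry.angle (-dir P i) (dir P (i + 1)) := by
  apply lt_of_le_of_ne (InnerProductGeometry.angle_nonneg _ _)
  intro h
  rw [eq_comm, InnerProductGeometry.angle_eq_zero_iff] at h
  obtain ⟨_, r, hr, h⟩ := h
  rw [Complex.real_smul] at h
  exact no_overlap i hr h

/-- Two distinct sides with a common point are consecutive and the point is the vertex. -/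
theorem common_point {a b : ZMod P.k} (hab : a ≠ b) {q : ℂ} (ha : q ∈ sideOf P.vertex a)
    (hb : q ∈ sideOf P.vertex b) :
    (b = a + 1 ∧ q = P.vertex (a + 1)) ∨ (a = b + 1 ∧ q = P.vertex (b + 1)) := by
  by_cases h1 : b = a + 1
  · subst h1
    left
    have : q ∈ sideOf P.vertex a ∩ sideOf P.vertex (a + 1) := ⟨ha, hb⟩
    rw [P.inter_next] at this
    exact ⟨rfl, mem_singleton_iff.1 this⟩
  · by_cases h2 : a = b + 1
    · subst h2
      right
      have : q ∈ sideOf P.vertex b ∩ sideOf P.vertex (b + 1) := ⟨hb, ha⟩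
      rw [P.inter_next] at this
      exact ⟨rfl, mem_singleton_iff.1 this⟩
    · exfalso
      have : q ∈ sideOf P.vertex a ∩ sideOf P.vertex b := ⟨ha, hb⟩
      rw [P.inter_other a b (Ne.symm hab) h1 h2] at this
      exact this

variable (P) in
theorem exists_min_angle : ∃ α > 0, ∀ (a b : ZMod P.k) (q x y : ℂ), a ≠ b →
    q ∈ sideOf P.vertex a → q ∈ sideOf P.vertex b → x ∈ rel P a → y ∈ rel P b →
    α ≤ InnerProductGeometry.angle (x - q) (y - q) := by
  obtain ⟨i₀, hi₀⟩ := Finite.exists_min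
    fun i : ZMod P.k => InnerProductGeometry.angle (-dir P i) (dir P (i + 1))
  refine ⟨_, angle_next_pos i₀, fun a b q x y hab ha hb hx hy => ?_⟩
  rcases common_point hab ha hb with ⟨rfl, rfl⟩ | ⟨rfl, rfl⟩
  · rw [angle_next a hx hy]; exact hi₀ a
  · rw [InnerProductGeometry.angle_comm (x - _), angle_next b hy hx]; exact hi₀ b

theorem side_ne {a b : ZMod P.k} {z u : ℂ} {t t' : ℝ} (htt : t < t') (hx : z + t * u ∈ rel P a)
    (hU : ∀ τ ∈ Ioo t t', z + τ * u ∈ U P) (hy : z + t' * u ∈ rel P b) : a ≠ b := by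
  rintro rfl
  obtain ⟨l, h0, h1, hl⟩ := mem_rel_iff.1 hx
  obtain ⟨m, h2, h3, hm⟩ := mem_rel_iff.1 hy
  have hmid := hU ((t + t') / 2) ⟨by linarith, by linarith⟩
  have e : z + (((t + t') / 2 : ℝ) : ℂ) * u = P.vertex a + (((l + m) / 2 : ℝ) : ℂ) * dir P a := by
    push_cast
    linear_combination hl / 2 + hm / 2
  rw [e] at hmid
  exact not_mem_U_of_Gam (rel_subset_Gam a (mem_rel_iff.2 ⟨_, by linarith, by linarith, rfl⟩)) hmid

theorem ne_of_rel {a : ZMod P.k} {x : ℂ} (hx : x ∈ rel P a) (j : ZMod P.k) : x ≠ P.vertex j := by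
  rintro rfl; exact vertex_not_mem_rel a j hx

theorem lrefl_along {b : ZMod P.k} {q y : ℂ} (hq : q ∈ sideOf P.vertex b) (hy : y ∈ rel P b) :
    lrefl P b (q - y) = q - y := by
  have h1 := refl_fix (H_of_mem_side hq)
  have h2 := refl_fix (H_of_mem_rel hy)
  have : lrefl P b (q - y) = refl P b q - refl P b y := by
    have h := refl_add' b y (q - y)
    rw [add_sub_cancel] at h
    rw [h]; ring
  rw [this, h1, h2]

theorem angle_lrefl (b : ZMod P.k) (v w : ℂ) :
    InnerProductGeometry.angle (lrefl P b v) (lrefl P b w) = InnerProductGeometry.angle v w := by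
  set e : ℂ ≃ₗᵢ[ℝ] ℂ := Complex.conjLIE.trans (rotation ⟨dir P b / conj (dir P b), by
    have : ‖dir P b‖ ≠ 0 := norm_ne_zero_iff.2 (dir_ne b)
    apply mem_sphere_zero_iff_norm.2
    rw [norm_div, RCLike.norm_conj, div_self this]⟩) with he
  have h : ∀ x, lrefl P b x = e x := by
    intro x
    simp only [he, lrefl, reflectDir, LinearIsometryEquiv.trans_apply, Complex.conjLIE_apply,
      rotation_apply]
    ring
  rw [h, h]
  exact LinearIsometry.angle_map e.toLinearIsometry v w

/-- Bounces in a wedge. -/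
theorem wedge {α : ℝ} (hα : ∀ (a b : ZMod P.k) (q x y : ℂ), a ≠ b →
    q ∈ sideOf P.vertex a → q ∈ sideOf P.vertex b → x ∈ rel P a → y ∈ rel P b →
    α ≤ InnerProductGeometry.angle (x - q) (y - q)) {j : ZMod P.k} :
    ∀ (W : List (ZMod P.k)) {z u : ℂ} {t : ℝ} {a : ZMod P.k}, u ≠ 0 → z + t * u ∈ rel P a →
    P.vertex j ∈ sideOf P.vertex a → (∀ b ∈ W, P.vertex j ∈ sideOf P.vertex b) → Path P z u t W →
    W.length * α ≤ Real.pi - InnerProductGeometry.angle (P.vertex j - (z + t * u)) u := by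
  intro W
  induction W with
  | nil =>
    intro z u t a _ _ _ _ _
    have := InnerProductGeometry.angle_le_pi (P.vertex j - (z + t * u)) u
    simp only [List.length_nil, Nat.cast_zero, zero_mul]
    linarith
  | cons b W ih =>
    rintro z u t a hu hx hqa hqW ⟨t', ht, hU, hy, hp⟩
    have hab := side_ne ht hx hU hy
    have hqb := hqW b (List.mem_cons_self)
    have h1 := hα a b _ _ _ hab hqa hqb hx hy
    have hy' : refl P b z + t' * lrefl P b u ∈ rel P b := by rw [refl_line hy]; exact hy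
    have h2 := ih (lrefl_ne_zero b hu) hy' hqb (fun c hc => hqW c (List.mem_cons_of_mem _ hc)) hp
    rw [refl_line hy] at h2
    have h3 : InnerProductGeometry.angle (P.vertex j - (z + t' * u)) (lrefl P b u) =
        InnerProductGeometry.angle (P.vertex j - (z + t' * u)) u := by
      rw [← angle_lrefl b (P.vertex j - (z + t' * u)) u, lrefl_along hqb hy]
    rw [h3] at h2
    -- the triangle
    set q := P.vertex j with hq
    set x := z + t * u with hxx
    set y := z + t' * u with hyy
    have hxq : x ≠ q := ne_of_rel hx j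
    have hyq : y ≠ q := ne_of_rel hy j
    have hxy : y - x = ((t' - t : ℝ)) • u := by
      rw [Complex.real_smul, hxx, hyy]; push_cast; ring
    have h4 := EuclideanGeometry.angle_add_angle_add_angle_eq_pi (p₁ := x) (p₂ := q) y hxq.symm
    unfold EuclideanGeometry.angle at h4
    simp only [vsub_eq_sub] at h4
    -- h4 : angle (x - q) (y - q) + angle (q - y) (x - y) + angle (y - x) (q - x) = π
    have h5 : InnerProductGeometry.angle (y - x) (q - x) = InnerProductGeometry.angle (q - x) u := by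
      rw [hxy, InnerProductGeometry.angle_smul_left_of_pos _ _ (by linarith),
        InnerProductGeometry.angle_comm]
    have h6 : InnerProductGeometry.angle (q - y) (x - y) =
        Real.pi - InnerProductGeometry.angle (q - y) u := by
      have : x - y = -((t' - t : ℝ) • u) := by rw [← hxy]; ring
      rw [this, InnerProductGeometry.angle_neg_right,
        InnerProductGeometry.angle_smul_right_of_pos _ _ (by linarith)]
    rw [h5, h6] at h4
    simp only [List.length_cons]
    push_cast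
    linarith

/-! ### Paths with end time -/

variable (P) in
/-- Path with the time of the last crossing. -/
def PathT : ℂ → ℂ → ℝ → List (ZMod P.k) → ℝ → Prop
  | _, _, t, [], T => T = t
  | z, u, t, a :: w, T => ∃ t' : ℝ, t < t' ∧ (∀ τ ∈ Ioo t t', z + τ * u ∈ U P) ∧
      z + t' * u ∈ rel P a ∧ PathT (refl P a z) (lrefl P a u) t' w T

theorem PathT.le {W : List (ZMod P.k)} : ∀ {z u : ℂ} {t T : ℝ}, PathT P z u t W T → t ≤ T := by
  induction W with
  | nil => intro z u t T h; exact (show T = t from h).ge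
  | cons a W ih =>
    rintro z u t T ⟨t', ht, _, _, h⟩
    exact ht.le.trans (ih h)

theorem PathT.path {W : List (ZMod P.k)} : ∀ {z u : ℂ} {t T : ℝ}, PathT P z u t W T →
    Path P z u t W := by
  induction W with
  | nil => intro z u t T _; trivial
  | cons a W ih =>
    rintro z u t T ⟨t', ht, h1, h2, h⟩
    exact ⟨t', ht, h1, h2, ih h⟩

theorem PathT.dist {W : List (ZMod P.k)} : ∀ {z u : ℂ} {t T : ℝ}, PathT P z u t W T →
    ∀ i ∈ W, ∃ y ∈ sideOf P.vertex i, dist (z + t * u) y ≤ ‖u‖ * (T - t) := by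
  induction W with
  | nil => intro z u t T _ i hi; simp at hi
  | cons a W ih =>
    rintro z u t T ⟨t', ht, h1, h2, h⟩ i hi
    have hle := h.le
    have hd : Dist.dist (z + t * u) (z + t' * u) = ‖u‖ * (t' - t) := by
      rw [dist_eq_norm]
      have : z + t * u - (z + t' * u) = ((t - t' : ℝ) : ℂ) * u := by push_cast; ring
      rw [this, norm_mul, Complex.norm_real, Real.norm_eq_abs, abs_of_neg (by linarith)]; ring
    rcases List.mem_cons.1 hi with rfl | hi
    · refine ⟨_, rel_subset_side _ h2, ?_⟩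
      rw [hd]
      exact mul_le_mul_of_nonneg_left (by linarith) (norm_nonneg _)
    · obtain ⟨y, hy, hdy⟩ := ih h i hi
      refine ⟨y, hy, ?_⟩
      rw [refl_line h2, norm_lrefl] at hdy
      calc Dist.dist (z + t * u) y ≤ Dist.dist (z + t * u) (z + t' * u) +
            Dist.dist (z + t' * u) y := dist_triangle _ _ _
        _ ≤ ‖u‖ * (t' - t) + ‖u‖ * (T - t') := by rw [hd]; linarith
        _ = ‖u‖ * (T - t) := by ring

theorem PathT.split {W₁ W₂ : List (ZMod P.k)} : ∀ {z u : ℂ} {t T : ℝ} {a : ZMod P.k},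
    z + t * u ∈ rel P a → PathT P z u t (W₁ ++ W₂) T →
    ∃ T₁ z' u', ∃ a', PathT P z u t W₁ T₁ ∧ PathT P z' u' T₁ W₂ T ∧ ‖u'‖ = ‖u‖ ∧
      z' + T₁ * u' ∈ rel P a' := by
  induction W₁ with
  | nil =>
    intro z u t T a ha h
    exact ⟨t, z, u, a, rfl, h, rfl, ha⟩
  | cons b W₁ ih =>
    rintro z u t T a ha ⟨t', ht, h1, h2, h⟩
    have h3 : refl P b z + t' * lrefl P b u ∈ rel P b := by rw [refl_line h2]; exact h2
    obtain ⟨T₁, z', u', a', h4, h5, h6, h7⟩ := ih h3 h
    exact ⟨T₁, z', u', a', ⟨t', ht, h1, h2, h4⟩, h5, by rw [h6, norm_lrefl], h7⟩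

variable (P) in
/-- Sides that are all very close to one point have a common point. -/
theorem exists_helly : ∃ δ > 0, ∀ (S : Finset (ZMod P.k)) (x : ℂ),
    (∀ i ∈ S, ∃ y ∈ sideOf P.vertex i, dist x y < δ) → ∃ q, ∀ i ∈ S, q ∈ sideOf P.vertex i := by
  classical
  have hcomp : ∀ i : ZMod P.k, IsCompact (sideOf P.vertex i) := by
    intro i
    unfold sideOf
    rw [segment_eq_image_lineMap]
    exact isCompact_Icc.image AffineMap.lineMap_continuous
  have hne : ∀ i : ZMod P.k, (sideOf P.vertex i).Nonempty := fun i => ⟨_, vertex_mem_side i⟩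
  have h1 : ∀ S : Finset (ZMod P.k), ∃ δ > 0, ∀ x : ℂ,
      (∀ i ∈ S, ∃ y ∈ sideOf P.vertex i, dist x y < δ) → ∃ q, ∀ i ∈ S, q ∈ sideOf P.vertex i := by
    intro S
    by_cases hS : ∃ q, ∀ i ∈ S, q ∈ sideOf P.vertex i
    · exact ⟨1, one_pos, fun _ _ => hS⟩
    · have hSne : S.Nonempty := by
        by_contra h
        rw [Finset.not_nonempty_iff_eq_empty] at h
        exact hS ⟨0, by rw [h]; simp⟩
      obtain ⟨i₀, hi₀⟩ := hSne
      set K : Set ℂ := Metric.cthickening 1 (sideOf P.vertex i₀) with hK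
      have hKc : IsCompact K := (hcomp i₀).cthickening
      have hKne : K.Nonempty := (hne i₀).mono (Metric.self_subset_cthickening _)
      set f : ℂ → ℝ := fun x => ∑ i ∈ S, Metric.infDist x (sideOf P.vertex i) with hf
      have hfc : Continuous f := continuous_finsetSum _ fun i _ => Metric.continuous_infDist_pt _
      obtain ⟨x₀, hx₀, hmin⟩ := hKc.exists_isMinOn hKne hfc.continuousOn
      have hpos : 0 < f x₀ := by
        apply lt_of_le_of_ne (Finset.sum_nonneg fun i _ => Metric.infDist_nonneg)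
        intro h0
        have h2 := (Finset.sum_eq_zero_iff_of_nonneg
          (fun i _ => Metric.infDist_nonneg (x := x₀) (s := sideOf P.vertex i))).1 h0.symm
        apply hS
        refine ⟨x₀, fun i hi => ?_⟩
        rw [(side_closed i).mem_iff_infDist_zero (hne i)]
        exact h2 i hi
      have hcard : 0 < (S.card : ℝ) := by exact_mod_cast Finset.card_pos.2 ⟨i₀, hi₀⟩
      refine ⟨min 1 (f x₀ / S.card), lt_min one_pos (div_pos hpos hcard), fun x hx => ?_⟩
      exfalso
      have hlt : ∀ i ∈ S, Metric.infDist x (sideOf P.vertex i) < min 1 (f x₀ / S.card) := by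
        intro i hi
        obtain ⟨y, hy, hd⟩ := hx i hi
        exact (Metric.infDist_le_dist_of_mem hy).trans_lt hd
      have hxK : x ∈ K := by
        obtain ⟨y, hy, hd⟩ := hx i₀ hi₀
        exact Metric.mem_cthickening_of_dist_le x y 1 _ hy (hd.le.trans (min_le_left _ _))
      have h3 : f x₀ ≤ f x := hmin hxK
      have h4 : f x < ∑ _i ∈ S, f x₀ / S.card :=
        Finset.sum_lt_sum_of_nonempty ⟨i₀, hi₀⟩ fun i hi => (hlt i hi).trans_le (min_le_right _ _)
      rw [Finset.sum_const, nsmul_eq_mul, mul_div_cancel₀ _ hcard.ne'] at h4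
      linarith
  choose δ hδ hδS using h1
  obtain ⟨S₀, hS₀⟩ := Finite.exists_min δ
  refine ⟨δ S₀, hδ S₀, fun S x hx => hδS S x fun i hi => ?_⟩
  obtain ⟨y, hy, hd⟩ := hx i hi
  exact ⟨y, hy, hd.trans_le (hS₀ S)⟩

variable (P) in
/-- The number of bounces is bounded by a linear function of the length. -/
theorem length_bound : ∃ (M : ℕ) (δ : ℝ), 0 < δ ∧ 0 < M ∧ ∀ (n : ℕ) (W : List (ZMod P.k))
    (z u : ℂ) (t T : ℝ) (a : ZMod P.k), W.length = n → u ≠ 0 → z + t * u ∈ rel P a →
    PathT P z u t W T → (W.length : ℝ) ≤ M * (1 + ‖u‖ * (T - t) / δ) := by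
  classical
  obtain ⟨α, hα0, hα⟩ := exists_min_angle P
  obtain ⟨δ, hδ, hδS⟩ := exists_helly P
  obtain ⟨M, hM⟩ := exists_nat_gt (Real.pi / α)
  have hMpi : Real.pi < M * α := by rwa [div_lt_iff₀ hα0] at hM
  have hM0 : 0 < M := by
    rcases Nat.eq_zero_or_pos M with h | h
    · subst h; simp at hMpi; linarith [Real.pi_pos]
    · exact h
  -- chunks of `M` bounces are long
  have chunk : ∀ (W : List (ZMod P.k)) (z u : ℂ) (t T : ℝ) (a : ZMod P.k), W.length = M → u ≠ 0 →
      z + t * u ∈ rel P a → PathT P z u t W T → δ ≤ ‖u‖ * (T - t) := by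
    intro W z u t T a hW hu hx hp
    by_contra hlt
    push Not at hlt
    obtain ⟨q, hq⟩ := hδS (a :: W).toFinset (z + t * u) (by
      intro i hi
      rw [List.mem_toFinset] at hi
      rcases List.mem_cons.1 hi with rfl | hi
      · exact ⟨_, rel_subset_side _ hx, by rw [dist_self]; exact hδ⟩
      · obtain ⟨y, hy, hd⟩ := hp.dist i hi
        exact ⟨y, hy, by linarith⟩)
    have hq' : ∀ i ∈ a :: W, q ∈ sideOf P.vertex i := fun i hi => hq i (List.mem_toFinset.2 hi)
    have hqv : ∃ j, q = P.vertex j := by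
      cases W with
      | nil => simp at hW; omega
      | cons b W =>
        obtain ⟨t', ht, h1, h2, _⟩ := hp
        have hab := side_ne ht hx h1 h2
        rcases common_point hab (hq' a (by simp)) (hq' b (by simp)) with ⟨_, h⟩ | ⟨_, h⟩
        · exact ⟨_, h⟩
        · exact ⟨_, h⟩
    obtain ⟨j, rfl⟩ := hqv
    have h1 := wedge hα W hu hx (hq' a (by simp)) (fun b hb => hq' b (List.mem_cons_of_mem _ hb))
      hp.path
    rw [hW] at h1
    have := InnerProductGeometry.angle_nonneg (P.vertex j - (z + t * u)) u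
    linarith
  refine ⟨M, δ, hδ, hM0, fun n => ?_⟩
  induction n using Nat.strong_induction_on with
  | _ n ih =>
    intro W z u t T a hn hu hx hp
    have hTt := hp.le
    have hMr : (0 : ℝ) < M := by exact_mod_cast hM0
    by_cases hlt : W.length < M
    · have h1 : (W.length : ℝ) ≤ M := by exact_mod_cast hlt.le
      have h2 : 0 ≤ ‖u‖ * (T - t) / δ :=
        div_nonneg (mul_nonneg (norm_nonneg _) (by linarith)) hδ.le
      have h3 : 0 ≤ M * (‖u‖ * (T - t) / δ) := mul_nonneg hMr.le h2
      linarith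
    · push Not at hlt
      rw [← List.take_append_drop M W] at hp
      obtain ⟨T₁, z', u', a', h1, h2, h3, h4⟩ := PathT.split hx hp
      have h5 := chunk (W.take M) z u t T₁ a (by rw [List.length_take]; exact min_eq_left hlt) hu hx h1
      have hu' : u' ≠ 0 := by
        rw [← norm_ne_zero_iff, h3]; exact norm_ne_zero_iff.2 hu
      have h6 := ih (W.drop M).length (by rw [List.length_drop]; omega) (W.drop M) z' u' T₁ T a' rfl
        hu' h4 h2
      rw [h3] at h6
      have h7 : (W.length : ℝ) = M + (W.drop M).length := by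
        rw [List.length_drop]
        rw [Nat.cast_sub hlt]; ring
      rw [h7]
      have h8 : 1 ≤ ‖u‖ * (T₁ - t) / δ := by rw [le_div_iff₀ hδ]; linarith
      have h9 : ‖u‖ * (T - t) / δ = ‖u‖ * (T₁ - t) / δ + ‖u‖ * (T - T₁) / δ := by
        rw [← add_div]; congr 1; ring
      rw [h9]
      have h10 : (M : ℝ) * 1 ≤ M * (‖u‖ * (T₁ - t) / δ) := mul_le_mul_of_nonneg_left h8 hMr.le
      linarith

theorem Vis.pathT {W : List (ZMod P.k)} : ∀ {z u : ℂ} {t T : ℝ} {j : ZMod P.k},
    Vis P z u t W j T → ∃ T₁ < T, PathT P z u t W T₁ := by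
  induction W with
  | nil => intro z u t T j h; exact ⟨t, h.1, rfl⟩
  | cons a W ih =>
    rintro z u t T j ⟨t', ht, h1, h2, h⟩
    obtain ⟨T₁, hT, hp⟩ := ih h
    exact ⟨T₁, hT, t', ht, h1, h2, hp⟩

/-- Generalized diagonals from the corner are not shorter than the radius of the corner. -/
theorem Corner.rad_le_D (C : Corner P) {n : ℕ} {γ : List (ZMod P.k) × ZMod P.k}
    (hγ : γ ∈ C.GD n) : C.rad ≤ ‖C.D P γ‖ := by
  obtain ⟨W, j⟩ := γ
  obtain ⟨_, hcone, hvis⟩ := hγ
  simp only at hvis
  by_contra hlt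
  push Not at hlt
  set D := C.D P (W, j) with hD
  have hU : ∀ τ : ℝ, 0 < τ → τ ≤ 1 → C.v + τ * D ∈ U P := by
    intro τ h0 h1
    apply C.ray_mem hcone h0
    calc τ * ‖D‖ ≤ 1 * ‖D‖ := mul_le_mul_of_nonneg_right h1 (norm_nonneg _)
      _ < C.rad := by rw [one_mul]; exact hlt
  cases W with
  | nil =>
    obtain ⟨_, h2, _⟩ := hvis
    have := hU 1 one_pos le_rfl
    rw [h2] at this
    exact not_mem_U_of_Gam (vertex_mem_Gam j) this
  | cons a W =>
    obtain ⟨t', ht, _, h2, h3⟩ := hvis
    exact not_mem_U_of_Gam (rel_subset_Gam a h2) (hU t' ht h3.lt.le)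

theorem Corner.GD_length (C : Corner P) : ∃ c > 0, ∀ n, ∀ γ ∈ C.GD n,
    ((γ.1.length : ℝ) + 1) ≤ c * ‖C.D P γ‖ := by
  obtain ⟨M, δ, hδ, hM, hb⟩ := length_bound P
  have hMr : (0 : ℝ) < M := by exact_mod_cast hM
  refine ⟨(2 + M) / C.rad + M / δ, by have := C.rad_pos; positivity, fun n γ hγ => ?_⟩
  have hrad := C.rad_le_D hγ
  have hradp := C.rad_pos
  obtain ⟨W, j⟩ := γ
  obtain ⟨_, hcone, hvis⟩ := hγ
  simp only at hvis ⊢
  set D := C.D P (W, j) with hD
  have h1 : (W.length : ℝ) ≤ 1 + M * (1 + ‖D‖ / δ) := by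
    cases W with
    | nil =>
      simp only [List.length_nil, Nat.cast_zero]
      positivity
    | cons a W =>
      obtain ⟨t', ht, _, h2, h3⟩ := hvis
      obtain ⟨T₁, hT, hp⟩ := h3.pathT
      have h4 : refl P a C.v + t' * lrefl P a D ∈ rel P a := by rw [refl_line h2]; exact h2
      have h5 := hb W.length W _ _ _ _ a rfl (lrefl_ne_zero a hcone.ne_zero) h4 hp
      rw [norm_lrefl] at h5
      simp only [List.length_cons]
      push_cast
      have h6 : ‖D‖ * (T₁ - t') / δ ≤ ‖D‖ / δ := by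
        apply div_le_div_of_nonneg_right _ hδ.le
        have : ‖D‖ * (T₁ - t') ≤ ‖D‖ * 1 :=
          mul_le_mul_of_nonneg_left (by linarith) (norm_nonneg _)
        linarith
      have h7 : (M : ℝ) * (1 + ‖D‖ * (T₁ - t') / δ) ≤ M * (1 + ‖D‖ / δ) :=
        mul_le_mul_of_nonneg_left (by linarith) hMr.le
      linarith
  have h2 : (2 + (M : ℝ)) ≤ (2 + M) / C.rad * ‖D‖ := by
    rw [div_mul_eq_mul_div, le_div_iff₀ hradp]
    exact mul_le_mul_of_nonneg_left hrad (by positivity)
  have h3 : (M : ℝ) / δ * ‖D‖ = M * (‖D‖ / δ) := by ring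
  rw [add_mul, h3]
  linarith

end Pool.Agent.Lib_helper45.Bil
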