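import Pool.Agent.Lib_helper45.Bil.Count2

/-!
# Numerical consequences of the main estimate: logarithmic density of good scales
-/

open Finset

namespace Pool.Agent.Lib_helper45.Bil

variable {g F : ℕ → ℝ} {c : ℝ} {n₀ : ℕ}

theorem sum_rpow_le {δ : ℝ} (hδ : 0 < δ) (hδ1 : δ ≤ 1) (n : ℕ) :
    ∑ t ∈ range n, ((t : ℝ) + 1) ^ (δ - 1) ≤ (n : ℝ) ^ δ / δ := by
  induction n with
  | zero => simp [Real.zero_rpow hδ.ne']
  | succ n ih =>
    rw [Finset.sum_range_succ]
    have hn : (0 : ℝ) < (n : ℝ) + 1 := by positivity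
    have h1 : (n : ℝ) ^ δ ≤ ((n : ℝ) + 1) ^ δ * (1 - δ / (n + 1)) := by
      have h2 : (n : ℝ) = (n + 1) * (1 + -(1 / ((n : ℝ) + 1))) := by field_simp; ring
      have h3 : -1 ≤ -(1 / ((n : ℝ) + 1)) := by
        rw [neg_le_neg_iff, div_le_one hn]
        have : (0 : ℝ) ≤ n := Nat.cast_nonneg _
        linarith
      have h4 := rpow_one_add_le_one_add_mul_self h3 hδ.le hδ1
      have h5 : (n : ℝ) ^ δ = ((n : ℝ) + 1) ^ δ * (1 + -(1 / ((n : ℝ) + 1))) ^ δ := by
        rw [← Real.mul_rpow hn.le (by linarith), ← h2]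
      rw [h5]
      apply mul_le_mul_of_nonneg_left _ (by positivity)
      calc (1 + -(1 / ((n : ℝ) + 1))) ^ δ ≤ 1 + δ * -(1 / ((n : ℝ) + 1)) := h4
        _ = 1 - δ / (n + 1) := by ring
    have h6 : ((n : ℝ) + 1) ^ (δ - 1) = ((n : ℝ) + 1) ^ δ / (n + 1) := by
      rw [Real.rpow_sub hn, Real.rpow_one]
    have h7 : ((n + 1 : ℕ) : ℝ) = (n : ℝ) + 1 := by push_cast; ring
    rw [h7, h6]
    have h8 : (n : ℝ) ^ δ / δ ≤ ((n : ℝ) + 1) ^ δ * (1 - δ / (n + 1)) / δ := by gcongr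
    have h9 : ((n : ℝ) + 1) ^ δ * (1 - δ / (n + 1)) / δ =
        ((n : ℝ) + 1) ^ δ / δ - ((n : ℝ) + 1) ^ δ / (n + 1) := by
      field_simp
    linarith

theorem log_le_sum (a b : ℕ) :
    Real.log (((b : ℝ) + 1) / (a + 1)) ≤ ∑ n ∈ Ioc a b, 1 / (n : ℝ) := by
  rcases le_total b a with h | h
  · rw [Finset.Ioc_eq_empty_of_le h, Finset.sum_empty]
    apply Real.log_nonpos (by positivity)
    rw [div_le_one (by positivity)]
    have : (b : ℝ) ≤ a := by exact_mod_cast h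
    linarith
  · obtain ⟨j, rfl⟩ := Nat.exists_eq_add_of_le h
    clear h
    induction j with
    | zero =>
      rw [Nat.add_zero, div_self (by positivity), Real.log_one, Finset.Ioc_self, Finset.sum_empty]
    | succ j ih =>
      rw [← Nat.add_assoc, Finset.sum_Ioc_succ_top (Nat.le_add_right a j)]
      have h1 : (0 : ℝ) < ((a + j : ℕ) : ℝ) + 1 := by positivity
      have h2 : (((a + j + 1 : ℕ) : ℝ) + 1) / (a + 1) =
          (((a + j : ℕ) : ℝ) + 1) / (a + 1) * ((((a + j + 1 : ℕ) : ℝ) + 1) / (((a + j : ℕ) : ℝ) + 1)) := by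
        field_simp
      rw [h2, Real.log_mul (by positivity) (by positivity)]
      have h3 : Real.log ((((a + j + 1 : ℕ) : ℝ) + 1) / (((a + j : ℕ) : ℝ) + 1)) ≤
          1 / ((a + j + 1 : ℕ) : ℝ) := by
        refine (Real.log_le_sub_one_of_pos (by positivity)).trans (le_of_eq ?_)
        push_cast
        field_simp
        ring
      linarith

/-- Good scales. -/
noncomputable def good (F : ℕ → ℝ) (c₁ s : ℝ) (N : ℕ) : Finset ℕ :=
  (Icc 1 N).filter (fun n => c₁ * (n : ℝ) ^ (2 + s) ≤ F n)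

theorem mem_good {F : ℕ → ℝ} {c₁ s : ℝ} {N n : ℕ} :
    n ∈ good F c₁ s N ↔ (1 ≤ n ∧ n ≤ N) ∧ c₁ * (n : ℝ) ^ (2 + s) ≤ F n := by
  classical
  unfold good
  rw [Finset.mem_filter, Finset.mem_Icc]

theorem Data.F_ge (h : Data g F c n₀) {y n : ℕ} (hyn : 2 * y ≤ n) :
    n / 4 * (∑ m ∈ range y, g m) ≤ F n := by
  obtain ⟨j, rfl⟩ := Nat.exists_eq_add_of_le hyn
  have h1 := h.F_step y (y + j)
  have h2 := h.hF1 y
  have h3 : y + (y + j) = 2 * y + j := by ring
  rw [h3] at h1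
  have h4 := h.G_nonneg y
  push_cast at h1 ⊢
  have h5 : (0 : ℝ) ≤ j := Nat.cast_nonneg _
  nlinarith

/-- The growth rate `n ^ (2 + s)` holds at a large proportion of the scales. -/
theorem Data.density (h : Data g F c n₀) {s δ : ℝ} (hs : 0 < s) (hs1 : s ≤ 1) (hδ : 0 < δ)
    (hδ1 : δ < 1) : ∃ c₁ > 0, ∃ C₀ : ℝ, ∀ N : ℕ, 1 ≤ N →
      (1 - δ) / (1 + s) * Real.log N - C₀ ≤ ∑ n ∈ good F c₁ s N, 1 / (n : ℝ) := by
  classical
  have hc := h.hc
  set c₁ : ℝ := c * δ / 288 with hc₁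
  have hc₁p : 0 < c₁ := by positivity
  set κ : ℝ := (1 - δ) / (1 + s) with hκ
  have hκ0 : 0 ≤ κ := div_nonneg (by linarith) (by linarith)
  have hκ1 : κ ≤ 1 - δ := div_le_self (by linarith) (by linarith)
  set N₁ : ℕ := 2 * n₀ + ⌈1 / δ⌉₊ + 4 with hN₁
  have hN₁r : (1 : ℝ) ≤ N₁ := by
    have : 1 ≤ N₁ := by omega
    exact_mod_cast this
  refine ⟨c₁, hc₁p, Real.log N₁, fun N => ?_⟩
  induction N using Nat.strong_induction_on with
  | _ N ih =>
  intro hN
  have hLnn : 0 ≤ ∑ n ∈ good F c₁ s N, 1 / (n : ℝ) :=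
    Finset.sum_nonneg fun n _ => by positivity
  have hNr : (1 : ℝ) ≤ N := by exact_mod_cast hN
  have hlN : 0 ≤ Real.log N := Real.log_nonneg hNr
  by_cases hNN : N < N₁
  · have h1 : Real.log N ≤ Real.log N₁ :=
      Real.log_le_log (by linarith) (by exact_mod_cast hNN.le)
    have h2 : κ * Real.log N ≤ 1 * Real.log N := mul_le_mul_of_nonneg_right (by linarith) hlN
    linarith
  push Not at hNN
  have hNδ : 1 ≤ δ * N := by
    have h1 : ⌈1 / δ⌉₊ ≤ N := by omega
    have h2 : 1 / δ ≤ N := (Nat.le_ceil _).trans (by exact_mod_cast h1)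
    rw [div_le_iff₀ hδ] at h2
    linarith
  by_cases hgood : c₁ * (N : ℝ) ^ (2 + s) ≤ F N
  · -- a good scale
    obtain ⟨N', rfl⟩ : ∃ N', N = N' + 1 := ⟨N - 1, by omega⟩
    have hN' : 1 ≤ N' := by omega
    have hN'r : (1 : ℝ) ≤ N' := by exact_mod_cast hN'
    have h1 := ih N' (Nat.lt_succ_self _) hN'
    have h2 : good F c₁ s (N' + 1) = insert (N' + 1) (good F c₁ s N') := by
      ext n
      rw [Finset.mem_insert, mem_good, mem_good]
      constructor
      · rintro ⟨⟨h3, h4⟩, h5⟩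
        rcases Nat.lt_or_ge n (N' + 1) with h6 | h6
        · exact Or.inr ⟨⟨h3, by omega⟩, h5⟩
        · exact Or.inl (by omega)
      · rintro (rfl | ⟨⟨h3, h4⟩, h5⟩)
        · exact ⟨⟨by omega, le_rfl⟩, hgood⟩
        · exact ⟨⟨h3, by omega⟩, h5⟩
    rw [h2, Finset.sum_insert (by rw [mem_good]; omega)]
    have h3 : Real.log ((N' + 1 : ℕ) : ℝ) ≤ Real.log N' + 1 / N' := by
      have h4 : Real.log (((N' + 1 : ℕ) : ℝ) / N') ≤ 1 / N' := by
        refine (Real.log_le_sub_one_of_pos (by positivity)).trans (le_of_eq ?_)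
        push_cast
        field_simp
        ring
      rw [Real.log_div (by positivity) (by positivity)] at h4
      linarith
    have h4 : κ * (1 / N') ≤ 1 / ((N' + 1 : ℕ) : ℝ) := by
      rw [mul_one_div, div_le_div_iff₀ (by positivity) (by positivity)]
      push_cast at hNδ ⊢
      nlinarith
    have h5 : κ * Real.log ((N' + 1 : ℕ) : ℝ) ≤ κ * (Real.log N' + 1 / N') :=
      mul_le_mul_of_nonneg_left h3 hκ0
    rw [mul_add] at h5
    linarith
  -- a bad scale
  push Not at hgood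
  set n := N / 2 with hn
  have hn0 : n₀ ≤ n := by omega
  have hn1 : 1 ≤ n := by omega
  have hnr : (1 : ℝ) ≤ n := by exact_mod_cast hn1
  have hnN : 2 * n ≤ N := by omega
  have hNn : (N : ℝ) ≤ 3 * n := by
    have : N ≤ 3 * n := by omega
    exact_mod_cast this
  have hS := h.hS n hn0
  rw [abel] at hS
  set G : ℕ → ℝ := fun n => ∑ m ∈ range n, g m with hG
  have hGn : G n / (n + 1) ≤ c * δ * n / 8 := by
    have h1 : (N : ℝ) / 4 * G n ≤ F N := h.F_ge hnN
    have h2 : (N : ℝ) / 4 * G n < c₁ * (N : ℝ) ^ (2 + s) := h1.trans_lt hgood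
    have h3 : (N : ℝ) ^ (2 + s) ≤ N ^ 3 := by
      have : (N : ℝ) ^ (3 : ℕ) = (N : ℝ) ^ (3 : ℝ) := by norm_cast
      rw [this]
      exact Real.rpow_le_rpow_of_exponent_le hNr (by linarith)
    have h4 : (N : ℝ) * G n < N * (4 * c₁ * N ^ 2) := by nlinarith
    have h5 : G n < 4 * c₁ * N ^ 2 := lt_of_mul_lt_mul_left h4 (by linarith)
    rw [div_le_iff₀ (by positivity)]
    have h6 : (N : ℝ) ^ 2 ≤ 9 * n ^ 2 := by nlinarith
    have h7 : 4 * c₁ * (N : ℝ) ^ 2 ≤ 4 * c₁ * (9 * n ^ 2) := by gcongr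
    have h8 : 4 * c₁ * (9 * (n : ℝ) ^ 2) = c * δ * n / 8 * n := by rw [hc₁]; ring
    have h9 : 0 ≤ c * δ * n / 8 := by positivity
    nlinarith
  -- the burst
  obtain ⟨y, hy1, hyn, hGy⟩ : ∃ y, 1 ≤ y ∧ y ≤ n ∧
      c * δ / 2 * (y : ℝ) ^ 2 * ((n : ℝ) / y) ^ (1 - δ) ≤ G y := by
    by_contra hcon
    push Not at hcon
    have h1 : ∑ t ∈ range n, G (t + 1) / (((t : ℝ) + 1) * (t + 2)) ≤
        ∑ t ∈ range n, c * δ / 2 * ((n : ℝ) ^ (1 - δ) * ((t : ℝ) + 1) ^ (δ - 1)) := by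
      apply Finset.sum_le_sum
      intro t ht
      rw [Finset.mem_range] at ht
      have h2 := hcon (t + 1) (by omega) (by omega)
      push_cast at h2
      have ht1 : (0 : ℝ) < (t : ℝ) + 1 := by positivity
      have h3 : ((n : ℝ) / ((t : ℝ) + 1)) ^ (1 - δ) = (n : ℝ) ^ (1 - δ) * ((t : ℝ) + 1) ^ (δ - 1) := by
        rw [Real.div_rpow (by linarith) ht1.le, div_eq_mul_inv, ← Real.rpow_neg ht1.le]
        congr 2; ring
      rw [h3] at h2
      rw [div_le_iff₀ (by positivity)]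
      set x := (n : ℝ) ^ (1 - δ) * ((t : ℝ) + 1) ^ (δ - 1) with hx
      have hx0 : 0 ≤ x := by positivity
      have h4 : 0 ≤ c * δ / 2 * x := by positivity
      nlinarith
    rw [← Finset.mul_sum, ← Finset.mul_sum] at h1
    have h2 := sum_rpow_le hδ hδ1.le n
    have h3 : c * δ / 2 * ((n : ℝ) ^ (1 - δ) * ∑ t ∈ range n, ((t : ℝ) + 1) ^ (δ - 1)) ≤
        c * δ / 2 * ((n : ℝ) ^ (1 - δ) * ((n : ℝ) ^ δ / δ)) := by gcongr
    have h4 : (n : ℝ) ^ (1 - δ) * ((n : ℝ) ^ δ / δ) = n / δ := by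
      rw [← mul_div_assoc, ← Real.rpow_add (by linarith), sub_add_cancel, Real.rpow_one]
    rw [h4] at h3
    have h5 : c * δ / 2 * ((n : ℝ) / δ) = c * n / 2 := by field_simp
    have h6 : 0 < c * n := by positivity
    have h7 : c * δ * n / 8 ≤ c * n / 8 := by
      have : c * δ * n ≤ c * n * 1 := by nlinarith
      linarith
    linarith
  have hyr : (1 : ℝ) ≤ y := by exact_mod_cast hy1
  have hynr : (y : ℝ) ≤ n := by exact_mod_cast hyn
  -- the good range after the burst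
  have hrange : ∀ m : ℕ, 2 * y ≤ m → 1 ≤ m →
      (m : ℝ) ^ (1 + s) ≤ 36 * ((y : ℝ) ^ 2 * ((n : ℝ) / y) ^ (1 - δ)) →
      c₁ * (m : ℝ) ^ (2 + s) ≤ F m := by
    intro m h1 hm1 h2
    have hmr : (0 : ℝ) < m := by exact_mod_cast hm1
    have h3 : (m : ℝ) / 4 * G y ≤ F m := h.F_ge h1
    have h4 : (m : ℝ) ^ (2 + s) = m * (m : ℝ) ^ (1 + s) := by
      have e : 2 + s = 1 + (1 + s) := by ring
      rw [e, Real.rpow_add hmr, Real.rpow_one]
    have h5 : c₁ * (m : ℝ) ^ (1 + s) ≤ G y / 4 := by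
      calc c₁ * (m : ℝ) ^ (1 + s) ≤ c₁ * (36 * ((y : ℝ) ^ 2 * ((n : ℝ) / y) ^ (1 - δ))) := by gcongr
        _ = c * δ / 2 * (y : ℝ) ^ 2 * ((n : ℝ) / y) ^ (1 - δ) / 4 := by rw [hc₁]; ring
        _ ≤ G y / 4 := by linarith
    calc c₁ * (m : ℝ) ^ (2 + s) = m * (c₁ * (m : ℝ) ^ (1 + s)) := by rw [h4]; ring
      _ ≤ m * (G y / 4) := by gcongr
      _ = m / 4 * G y := by ring
      _ ≤ F m := h3
  have hpow1 : 1 ≤ ((n : ℝ) / y) ^ (1 - δ) :=
    Real.one_le_rpow ((one_le_div (by linarith)).2 hynr) (by linarith)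
  -- `2 y < N`
  have h2yN : 2 * y < N := by
    rcases Nat.lt_or_ge (2 * y) N with h1 | h1
    · exact h1
    · exfalso
      have h2 : N = 2 * y := by omega
      refine absurd (hrange N (by omega) hN ?_) (not_le.2 hgood)
      have h3 : (N : ℝ) ^ (1 + s) ≤ N ^ 2 := by
        have : (N : ℝ) ^ (2 : ℕ) = (N : ℝ) ^ (2 : ℝ) := by norm_cast
        rw [this]
        exact Real.rpow_le_rpow_of_exponent_le hNr (by linarith)
      have h4 : (N : ℝ) = 2 * y := by exact_mod_cast h2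
      have h5 : (y : ℝ) ^ 2 ≤ (y : ℝ) ^ 2 * ((n : ℝ) / y) ^ (1 - δ) :=
        le_mul_of_one_le_right (by positivity) hpow1
      rw [h4] at h3
      rw [h4]
      nlinarith
  set x : ℝ := (36 * ((y : ℝ) ^ 2 * ((n : ℝ) / y) ^ (1 - δ))) ^ (1 / (1 + s)) with hx
  have hx0 : 0 < x := by positivity
  have hxs : x ^ (1 + s) = 36 * ((y : ℝ) ^ 2 * ((n : ℝ) / y) ^ (1 - δ)) := by
    rw [hx, ← Real.rpow_mul (by positivity), one_div_mul_cancel (by linarith), Real.rpow_one]
  set z := ⌊x⌋₊ with hz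
  have hzgood : ∀ m ∈ Ioc (2 * y) z, c₁ * (m : ℝ) ^ (2 + s) ≤ F m := by
    intro m hm
    rw [Finset.mem_Ioc] at hm
    apply hrange m hm.1.le (by omega)
    rw [← hxs]
    apply Real.rpow_le_rpow (Nat.cast_nonneg _) _ (by linarith)
    exact (Nat.cast_le.2 hm.2).trans (Nat.floor_le hx0.le)
  have hzN : z < N := by
    by_contra hh
    push Not at hh
    exact absurd (hzgood N (Finset.mem_Ioc.2 ⟨h2yN, hh⟩)) (not_le.2 hgood)
  have hsub : good F c₁ s (2 * y) ∪ Ioc (2 * y) z ⊆ good F c₁ s N := by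
    intro m hm
    rw [Finset.mem_union] at hm
    rw [mem_good]
    rcases hm with hm | hm
    · rw [mem_good] at hm
      exact ⟨⟨hm.1.1, by omega⟩, hm.2⟩
    · have := hzgood m hm
      rw [Finset.mem_Ioc] at hm
      exact ⟨⟨by omega, by omega⟩, this⟩
  have hdisj : Disjoint (good F c₁ s (2 * y)) (Ioc (2 * y) z) := by
    rw [Finset.disjoint_left]
    intro m hm hm'
    rw [mem_good] at hm
    rw [Finset.mem_Ioc] at hm'
    omega
  have hsum : ∑ n ∈ good F c₁ s (2 * y), 1 / (n : ℝ) + ∑ n ∈ Ioc (2 * y) z, 1 / (n : ℝ) ≤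
      ∑ n ∈ good F c₁ s N, 1 / (n : ℝ) := by
    rw [← Finset.sum_union hdisj]
    exact Finset.sum_le_sum_of_subset_of_nonneg hsub fun m _ _ => by positivity
  have hih := ih (2 * y) h2yN (by omega)
  have hlog := log_le_sum (2 * y) z
  have hlog2 : Real.log x - Real.log (3 * y) ≤ Real.log (((z : ℝ) + 1) / ((2 * y : ℕ) + 1)) := by
    rw [← Real.log_div hx0.ne' (by positivity)]
    apply Real.log_le_log (by positivity)
    have h1 : x ≤ (z : ℝ) + 1 := (Nat.lt_floor_add_one x).le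
    have h2 : ((2 * y : ℕ) : ℝ) + 1 ≤ 3 * y := by push_cast; linarith
    gcongr
  have hly : 0 ≤ Real.log y := Real.log_nonneg hyr
  have hlx : Real.log x = 1 / (1 + s) * (Real.log 36 + (2 * Real.log y +
      (1 - δ) * (Real.log n - Real.log y))) := by
    rw [hx, Real.log_rpow (by positivity), Real.log_mul (by norm_num) (by positivity),
      Real.log_mul (by positivity) (by positivity), Real.log_rpow (by positivity),
      Real.log_div (by linarith) (by linarith), Real.log_pow]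
    norm_num
  have hl36 : Real.log 36 = 2 * (Real.log 3 + Real.log 2) := by
    rw [← Real.log_mul (by norm_num) (by norm_num)]
    have : (36 : ℝ) = (3 * 2) ^ 2 := by norm_num
    rw [this, Real.log_pow]; norm_num
  have hl3 : 0 ≤ Real.log 3 := Real.log_nonneg (by norm_num)
  have hl2 : 0 ≤ Real.log 2 := Real.log_nonneg (by norm_num)
  have hx2 : κ * (Real.log n - Real.log y) + Real.log y + (Real.log 3 + Real.log 2) ≤ Real.log x := by
    have h1 : Real.log x = κ * (Real.log n - Real.log y) + 2 / (1 + s) * Real.log y +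
        2 / (1 + s) * (Real.log 3 + Real.log 2) := by
      rw [hlx, hl36, hκ]
      field_simp
      ring
    have h2 : 1 ≤ 2 / (1 + s) := by rw [one_le_div (by linarith)]; linarith
    rw [h1]
    have h3 : Real.log y ≤ 2 / (1 + s) * Real.log y := le_mul_of_one_le_left hly h2
    have h4 : Real.log 3 + Real.log 2 ≤ 2 / (1 + s) * (Real.log 3 + Real.log 2) :=
      le_mul_of_one_le_left (by linarith) h2
    linarith
  have h3y : Real.log (3 * y) = Real.log 3 + Real.log y := Real.log_mul (by norm_num) (by linarith)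
  have h2y : Real.log ((2 * y : ℕ) : ℝ) = Real.log 2 + Real.log y := by
    push_cast
    exact Real.log_mul (by norm_num) (by linarith)
  rw [h2y] at hih
  have hlogN : Real.log N ≤ Real.log 2 + Real.log n + Real.log 2 := by
    have h1 : (N : ℝ) ≤ 2 * n * 2 := by linarith
    have h2 : Real.log (2 * n * 2) = Real.log 2 + Real.log n + Real.log 2 := by
      rw [Real.log_mul (by positivity) (by norm_num), Real.log_mul (by norm_num) (by linarith)]
    rw [← h2]
    exact Real.log_le_log (by linarith) h1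
  have h1 : κ * Real.log N ≤ κ * (Real.log 2 + Real.log n + Real.log 2) :=
    mul_le_mul_of_nonneg_left hlogN hκ0
  have h2 : κ * Real.log 2 ≤ Real.log 2 := mul_le_of_le_one_left hl2 (by linarith)
  rw [h3y] at hlog2
  have e1 : κ * (Real.log 2 + Real.log n + Real.log 2) =
      κ * (Real.log 2 + Real.log y) + κ * (Real.log n - Real.log y) + κ * Real.log 2 := by ring
  linarith

end Pool.Agent.Lib_helper45.Bil
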