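import Pool.Agent.Lib_helper45.Bil.Sum
import Pool.Agent.Lib_helper45.Bil.Count3

/-!
# Billiards in polygons: lower bounds for the complexity of an arbitrary polygon
-/

open Set Filter Topology

namespace Pool.Agent.Lib_helper45.Bil

open Pool.Agent.Billiard

variable {P : Polygon}

/-- Generalized diagonals from the corner with exactly `m` bounces. -/
noncomputable def Corner.gset (C : Corner P) (m : ℕ) : Finset (List (ZMod P.k) × ZMod P.k) :=
  (C.GD_finite (m + 1)).toFinset.filter (fun γ => γ.1.length = m)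

theorem Corner.mem_gset (C : Corner P) (m : ℕ) (γ : List (ZMod P.k) × ZMod P.k) :
    γ ∈ C.gset m ↔ γ.1.length = m ∧ C.Cone (C.D P γ) ∧ Vis P C.v (C.D P γ) 0 γ.1 γ.2 1 := by
  unfold Corner.gset
  rw [Finset.mem_filter, Set.Finite.mem_toFinset]
  constructor
  · rintro ⟨⟨_, h2⟩, h3⟩; exact ⟨h3, h2⟩
  · rintro ⟨h3, h2⟩; exact ⟨⟨by omega, h2⟩, h3⟩

theorem Corner.sum_gset (C : Corner P) (n : ℕ) (f : List (ZMod P.k) × ZMod P.k → ℝ) :
    ∑ γ ∈ (C.GD_finite n).toFinset, f γ = ∑ m ∈ Finset.range n, ∑ γ ∈ C.gset m, f γ := by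
  classical
  rw [← Finset.sum_fiberwise_of_maps_to (s := (C.GD_finite n).toFinset) (t := Finset.range n)
    (g := fun γ => γ.1.length)]
  · apply Finset.sum_congr rfl
    intro m hm
    rw [Finset.mem_range] at hm
    apply Finset.sum_congr _ fun _ _ => rfl
    ext γ
    rw [C.mem_gset, Finset.mem_filter, Set.Finite.mem_toFinset]
    constructor
    · rintro ⟨⟨_, h2⟩, h3⟩; exact ⟨h3, h2⟩
    · rintro ⟨h3, h2⟩; exact ⟨⟨by omega, h2⟩, h3⟩
  · intro γ hγ
    rw [Set.Finite.mem_toFinset] at hγ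
    rw [Finset.mem_range]; exact hγ.1

theorem Corner.card_gset (C : Corner P) (m : ℕ) : (C.gset m).card ≤ P.k ^ (m + 1) := by
  classical
  have h : Fintype.card {γ // γ ∈ C.gset m} ≤ Fintype.card (List.Vector (ZMod P.k) m × ZMod P.k) := by
    apply Fintype.card_le_of_injective
      (fun γ : {γ // γ ∈ C.gset m} =>
        ((⟨γ.1.1, ((C.mem_gset m γ.1).1 γ.2).1⟩, γ.1.2) : List.Vector (ZMod P.k) m × ZMod P.k))
    rintro ⟨⟨W, j⟩, hγ⟩ ⟨⟨W', j'⟩, hγ'⟩ h
    obtain ⟨h1, h2⟩ := Prod.mk.inj h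
    exact Subtype.ext (Prod.ext (congrArg Subtype.val h1) h2)
  rw [Fintype.card_coe, Fintype.card_prod, card_vector, ZMod.card] at h
  rw [pow_succ]; exact h

theorem complexity_pos (C : Corner P) (n : ℕ) : 1 ≤ P.complexity n := by
  induction n with
  | zero =>
    obtain ⟨η, hη, hvol⟩ := C.exists_A
    obtain ⟨u, hu⟩ : (C.A η).Nonempty := by
      by_contra h
      rw [not_nonempty_iff_eq_empty] at h
      rw [h, MeasureTheory.measure_empty] at hvol
      exact lt_irrefl _ hvol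
    have hcone : C.Cone u := ⟨hη.trans hu.2.1, hη.trans hu.2.2⟩
    obtain ⟨τ, hτ, hn⟩ := C.exists_start u
    rw [complexity_eq, Nat.succ_le_iff, Set.ncard_pos (WS_finite 0)]
    exact ⟨[], rfl, _, C.ray_mem hcone hτ hn, u, hcone.ne_zero, trivial⟩
  | succ n ih => exact ih.trans ((Nat.le_add_right _ _).trans (C.growth n))

theorem Corner.data (C : Corner P) : ∃ c n₀, Data (fun m => ((C.gset m).card : ℝ))
    (fun n => (P.complexity n : ℝ)) c n₀ := by
  obtain ⟨c, hc, n₀, h⟩ := C.sum_len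
  refine ⟨c, n₀, fun m => Nat.cast_nonneg _, fun n => by exact_mod_cast complexity_pos C n,
    fun n => ?_, hc, fun n hn => ?_⟩
  · have h1 : (∑ m ∈ Finset.range n, ((C.gset m).card : ℝ)) = ((C.GD n).ncard : ℝ) := by
      have h2 := C.sum_gset n (fun _ => 1)
      simp only [Finset.sum_const, nsmul_eq_mul, mul_one] at h2
      rw [← h2, Set.ncard_eq_toFinset_card _ (C.GD_finite n)]
    rw [h1]
    have h3 := C.GD_le n
    have h4 := C.growth n
    have h5 : P.complexity n * 2 + (C.GD n).ncard ≤ P.complexity (n + 1) * 2 := by omega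
    have h6 : (P.complexity n : ℝ) * 2 + (C.GD n).ncard ≤ P.complexity (n + 1) * 2 := by
      exact_mod_cast h5
    linarith
  · have h1 := h n hn
    rw [C.sum_gset n (fun γ => 1 / ((γ.1.length : ℝ) + 1))] at h1
    refine h1.trans (le_of_eq ?_)
    apply Finset.sum_congr rfl
    intro m _
    have h2 : ∑ γ ∈ C.gset m, 1 / ((γ.1.length : ℝ) + 1) = ∑ γ ∈ C.gset m, 1 / ((m : ℝ) + 1) := by
      apply Finset.sum_congr rfl
      intro γ hγ
      rw [((C.mem_gset m γ).1 hγ).1]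
    rw [h2, Finset.sum_const, nsmul_eq_mul]
    ring

/-- Cubic growth on average, for every polygon. -/
theorem cubic_average (P : Polygon) : ∃ c : ℝ, 0 < c ∧ ∀ N : ℕ, 1 ≤ N →
    c * N ≤ ∑ n ∈ Finset.Icc 1 N, (P.complexity n : ℝ) / (n : ℝ) ^ 3 := by
  obtain ⟨C⟩ := exists_corner P
  obtain ⟨c, n₀, h⟩ := C.data
  exact h.average

/-- Growth `n² log n`, for every polygon. -/
theorem square_log (P : Polygon) : ∃ c : ℝ, 0 < c ∧ ∀ n : ℕ, 1 ≤ n →
    c * ((n : ℝ) ^ 2 * Real.log n) ≤ P.complexity n := by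
  obtain ⟨C⟩ := exists_corner P
  obtain ⟨c, n₀, h⟩ := C.data
  refine h.log (a := P.k) ?_ fun m => ?_
  · have := P.three_le
    have h3 : (3 : ℝ) ≤ P.k := by exact_mod_cast this
    linarith
  · exact_mod_cast C.card_gset m

/-- Polynomial upper bounds give lower bounds. -/
theorem upper_to_lower (P : Polygon) (d A : ℝ) (hd : 3 ≤ d)
    (hA : ∀ n : ℕ, 1 ≤ n → (P.complexity n : ℝ) ≤ A * (n : ℝ) ^ d) :
    ∃ c : ℝ, 0 < c ∧ ∀ n : ℕ, 1 ≤ n → c * (n : ℝ) ^ (2 + 1 / (d - 2)) ≤ P.complexity n := by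
  obtain ⟨C⟩ := exists_corner P
  obtain ⟨c, n₀, h⟩ := C.data
  exact h.transfer hd hA

/-- Growth `n ^ (2 + s)` at a proportion at least `1 / (1 + s)` of the scales. -/
theorem many_scales (P : Polygon) (s κ : ℝ) (hs : 0 < s) (hs1 : s ≤ 1) (hκ : κ < 1 / (1 + s)) :
    ∃ c : ℝ, 0 < c ∧ ∃ C₀ : ℝ, ∀ N : ℕ, 1 ≤ N → κ * Real.log N - C₀ ≤
      ∑ n ∈ (Finset.Icc 1 N).filter (fun n : ℕ => c * (n : ℝ) ^ (2 + s) ≤ P.complexity n),
        1 / (n : ℝ) := by
  obtain ⟨C⟩ := exists_corner P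
  obtain ⟨c, n₀, h⟩ := C.data
  set δ : ℝ := min (1 - κ * (1 + s)) (1 / 2) with hδ
  have h1 : 0 < 1 - κ * (1 + s) := by
    rw [lt_div_iff₀ (by linarith)] at hκ
    linarith
  have hδ0 : 0 < δ := lt_min h1 (by norm_num)
  have hδ1 : δ < 1 := (min_le_right _ _).trans_lt (by norm_num)
  obtain ⟨c₁, hc₁, C₀, hC⟩ := h.density hs hs1 hδ0 hδ1
  refine ⟨c₁, hc₁, C₀, fun N hN => ?_⟩
  have h2 := hC N hN
  have h3 : κ ≤ (1 - δ) / (1 + s) := by
    rw [le_div_iff₀ (by linarith)]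
    have := min_le_left (1 - κ * (1 + s)) (1 / 2)
    linarith
  have h4 : 0 ≤ Real.log N := Real.log_nonneg (by exact_mod_cast hN)
  have h5 : κ * Real.log N ≤ (1 - δ) / (1 + s) * Real.log N := mul_le_mul_of_nonneg_right h3 h4
  have h6 : ∑ n ∈ good (fun n => (P.complexity n : ℝ)) c₁ s N, 1 / (n : ℝ) =
      ∑ n ∈ (Finset.Icc 1 N).filter (fun n : ℕ => c₁ * (n : ℝ) ^ (2 + s) ≤ P.complexity n),
        1 / (n : ℝ) := rfl
  rw [← h6]
  linarith

end Pool.Agent.Lib_helper45.Bil
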