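import Pool.Agent.Lib_helper45.Bil.Words

/-!
# Billiards in polygons: arriving at a vertex
-/

open Set Filter Topology Metric
open scoped ComplexConjugate

namespace Pool.Agent.Lib_helper45.Bil

open Pool.Agent.Billiard

variable {P : Polygon}

/-- Local structure at a vertex: only the two adjacent sides come near. -/
theorem vertex_ball (i : ZMod P.k) : ∃ r > 0, ∀ z ∈ ball (P.vertex (i + 1)) r, z ∈ Gam P →
    z ≠ P.vertex (i + 1) → z ∈ rel P i ∨ z ∈ rel P (i + 1) := by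
  have hoth : ∀ k, k ≠ i + 1 → k ≠ i → P.vertex (i + 1) ∉ sideOf P.vertex k := by
    intro k h1 h2 hk
    by_cases h3 : k = i + 1 + 1
    · subst h3
      have : P.vertex (i + 1) ∈ sideOf P.vertex (i + 1) ∩ sideOf P.vertex (i + 1 + 1) :=
        ⟨vertex_mem_side _, hk⟩
      rw [P.inter_next] at this
      exact succ_ne (i + 1) (P.injective (mem_singleton_iff.1 this)).symm
    · by_cases h4 : i + 1 = k + 1
      · exact h2 (add_right_cancel h4).symm
      · have : P.vertex (i + 1) ∈ sideOf P.vertex (i + 1) ∩ sideOf P.vertex k :=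
          ⟨vertex_mem_side _, hk⟩
        rw [P.inter_other (i + 1) k h1 h3 h4] at this
        exact this
  have h1 : ∀ k : ZMod P.k, ∃ ρ > 0, k ≠ i + 1 → k ≠ i →
      ∀ z ∈ ball (P.vertex (i + 1)) ρ, z ∉ sideOf P.vertex k := by
    intro k
    by_cases hi : k ≠ i + 1 ∧ k ≠ i
    · have : (sideOf P.vertex k)ᶜ ∈ 𝓝 (P.vertex (i + 1)) :=
        (side_closed k).isOpen_compl.mem_nhds (hoth k hi.1 hi.2)
      obtain ⟨ρ, hρ, hbb⟩ := Metric.mem_nhds_iff.1 this
      exact ⟨ρ, hρ, fun _ _ z hz => hbb hz⟩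
    · exact ⟨1, one_pos, fun h h' => absurd ⟨h, h'⟩ hi⟩
  choose ρ hρ hρi using h1
  obtain ⟨i₀, hi₀⟩ := Finite.exists_min ρ
  have hd1 : 0 < ‖dir P i‖ := norm_pos_iff.2 (dir_ne _)
  have hd2 : 0 < ‖dir P (i + 1)‖ := norm_pos_iff.2 (dir_ne _)
  refine ⟨min (ρ i₀) (min ‖dir P i‖ ‖dir P (i + 1)‖), lt_min (hρ _) (lt_min hd1 hd2), ?_⟩
  intro z hz hG hne
  rw [mem_ball, dist_eq_norm, lt_min_iff, lt_min_iff] at hz
  obtain ⟨hz1, hz2, hz3⟩ := hz
  obtain ⟨k, hk⟩ := mem_Gam_iff.1 hG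
  by_cases hk1 : k = i + 1
  · subst hk1
    right
    obtain ⟨l, h0, h1, rfl⟩ := mem_side_iff.1 hk
    rw [mem_rel_iff]
    refine ⟨l, lt_of_le_of_ne h0 ?_, ?_, rfl⟩
    · rintro rfl; exact hne (by simp)
    · rw [add_sub_cancel_left, norm_mul, Complex.norm_real, Real.norm_eq_abs, abs_of_nonneg h0] at hz3
      by_contra hh
      push Not at hh
      nlinarith
  · by_cases hk2 : k = i
    · subst hk2
      left
      obtain ⟨l, h0, h1, rfl⟩ := mem_side_iff.1 hk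
      rw [mem_rel_iff]
      refine ⟨l, ?_, lt_of_le_of_ne h1 ?_, rfl⟩
      · by_contra hh
        push Not at hh
        have hl : l = 0 := le_antisymm hh h0
        subst hl
        have : P.vertex k + ((0 : ℝ) : ℂ) * dir P k - P.vertex (k + 1) = -dir P k := by
          unfold dir; push_cast; ring
        rw [this, norm_neg] at hz2
        exact lt_irrefl _ hz2
      · rintro rfl; exact hne (by rw [vertex_succ_eq])
    · exfalso
      refine hρi k hk1 hk2 z ?_ hk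
      rw [mem_ball, dist_eq_norm]
      exact hz1.trans_le (hi₀ k)

/-- The two sides at a vertex do not both point in the direction `D`. -/
theorem sides_not_parallel (i : ZMod P.k) {D : ℂ} {t : ℝ} (hD : D ≠ 0) (ht : t < 1)
    {z : ℂ} (hz : z + D = P.vertex (i + 1)) (hU : ∀ τ ∈ Ioo t 1, z + τ * D ∈ U P) :
    (dir P (i + 1) * conj D).im ≠ 0 ∨ (-dir P i * conj D).im ≠ 0 := by
  by_contra hcon
  push Not at hcon
  obtain ⟨h1, h2⟩ := hcon
  have h1' : (D * conj (dir P (i + 1))).im = 0 := by rw [cross_swap, h1, neg_zero]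
  have h2' : (D * conj (-dir P i)).im = 0 := by rw [cross_swap, h2, neg_zero]
  obtain ⟨l₁, hl₁⟩ := parallel_of_cross hD h1'
  obtain ⟨l₂, hl₂⟩ := parallel_of_cross hD h2'
  have hl₁0 : l₁ ≠ 0 := by rintro rfl; exact dir_ne (i + 1) (by rw [hl₁]; simp)
  have hl₂0 : l₂ ≠ 0 := by
    rintro rfl; exact dir_ne i (by
      have : -dir P i = 0 := by rw [hl₂]; simp
      exact neg_eq_zero.1 this)
  -- positive coefficients
  have key : ∀ (l : ℝ) (q : ℂ), q = l * D → l ≠ 0 →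
      (∀ s : ℝ, 0 < s → s < 1 → P.vertex (i + 1) + s * q ∈ Gam P) → 0 < l := by
    intro l q hq hl hG
    by_contra hneg
    have hneg : l < 0 := lt_of_le_of_ne (not_lt.1 hneg) hl
    obtain ⟨s, hs0, hs1, hs2⟩ : ∃ s : ℝ, 0 < s ∧ s < 1 ∧ s * (-l) < 1 - t := by
      refine ⟨min (1 / 2) ((1 - t) / (2 * (-l))), ?_, ?_, ?_⟩
      · apply lt_min (by norm_num)
        apply div_pos (by linarith) (by linarith)
      · exact (min_le_left _ _).trans_lt (by norm_num)
      · have hm := min_le_right (1 / 2) ((1 - t) / (2 * (-l)))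
        have h5 : min (1 / 2) ((1 - t) / (2 * (-l))) * (-l) ≤ (1 - t) / (2 * (-l)) * (-l) :=
          mul_le_mul_of_nonneg_right hm (by linarith)
        have h6 : (1 - t) / (2 * (-l)) * (-l) = (1 - t) / 2 := by
          have : (-l) ≠ 0 := by linarith
          field_simp
        linarith
    have h3 := hG s hs0 hs1
    have h4 : P.vertex (i + 1) + s * q = z + ((1 + s * l : ℝ) : ℂ) * D := by
      rw [← hz, hq]; push_cast; ring
    rw [h4] at h3
    have : s * l < 0 := mul_neg_of_pos_of_neg hs0 hneg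
    exact not_mem_U_of_Gam h3 (hU _ ⟨by linarith, by linarith⟩)
  have hpos1 : 0 < l₁ := key l₁ _ hl₁ hl₁0 (fun s h0 h1 =>
    rel_subset_Gam (i + 1) (mem_rel_iff.2 ⟨s, h0, h1, rfl⟩))
  have hpos2 : 0 < l₂ := key l₂ _ hl₂ hl₂0 (fun s h0 h1 =>
    rel_subset_Gam i (mem_rel_iff.2 ⟨1 - s, by linarith, by linarith, by
      unfold dir; push_cast; ring⟩))
  -- overlap
  set s := min 1 (l₂ / l₁) with hs
  have hs0 : 0 < s := lt_min one_pos (by positivity)
  have hm1 : P.vertex (i + 1) + s * dir P (i + 1) ∈ sideOf P.vertex (i + 1) :=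
    mem_side_iff.2 ⟨s, hs0.le, min_le_left _ _, rfl⟩
  have hm2 : P.vertex (i + 1) + s * dir P (i + 1) ∈ sideOf P.vertex i := by
    have hsl : s * l₁ / l₂ ≤ 1 := by
      rw [div_le_one hpos2]
      have : s ≤ l₂ / l₁ := min_le_right _ _
      calc s * l₁ ≤ l₂ / l₁ * l₁ := mul_le_mul_of_nonneg_right this hpos1.le
        _ = l₂ := by field_simp
    refine mem_side_iff.2 ⟨1 - s * l₁ / l₂, by linarith, by
      have : 0 ≤ s * l₁ / l₂ := by positivity
      linarith, ?_⟩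
    have e1 : P.vertex (i + 1) = P.vertex i + dir P i := by unfold dir; ring
    have e2 : dir P i = -(l₂ * D) := by rw [← hl₂]; ring
    have hl₂c : (l₂ : ℂ) ≠ 0 := by exact_mod_cast hl₂0
    rw [hl₁, e1, e2]
    push_cast
    field_simp
    ring
  have hmem : P.vertex (i + 1) + s * dir P (i + 1) ∈
      sideOf P.vertex i ∩ sideOf P.vertex (i + 1) := ⟨hm2, hm1⟩
  rw [P.inter_next] at hmem
  have h7 := mem_singleton_iff.1 hmem
  have h8 : (s : ℂ) * dir P (i + 1) = 0 := by linear_combination h7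
  rcases mul_eq_zero.1 h8 with h9 | h9
  · have : s = 0 := by exact_mod_cast h9
    exact hs0.ne' this
  · exact dir_ne (i + 1) h9

/-- Base case: a ray arriving at a vertex; slightly rotated rays hit an adjacent side. -/
theorem arrive_base (i : ZMod P.k) {z D : ℂ} {t : ℝ} (hD : D ≠ 0) (ht : t < 1)
    (hz : z + D = P.vertex (i + 1)) (hst : z + t * D ∈ U P)
    (hU : ∀ τ ∈ Ioo t 1, z + τ * D ∈ U P) :
    ∃ s : ℝ, (s = 1 ∨ s = -1) ∧ ∀ᶠ ε : ℝ in 𝓝[>] 0, ∃ e, (e = i ∨ e = i + 1) ∧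
      Path P z ((1 + Complex.I * ((s * ε : ℝ) : ℂ)) * D) t [e] := by
  obtain ⟨r, hr, hball⟩ := vertex_ball i
  -- choose a side which is not parallel to `D`
  obtain ⟨q, hqG, hqc⟩ : ∃ q : ℂ, (∀ l : ℝ, 0 < l → l < 1 → P.vertex (i + 1) + l * q ∈ Gam P) ∧
      (q * conj D).im ≠ 0 := by
    rcases sides_not_parallel i hD ht hz hU with h | h
    · exact ⟨_, fun l h0 h1 => rel_subset_Gam (i + 1) (mem_rel_iff.2 ⟨l, h0, h1, rfl⟩), h⟩
    · exact ⟨_, fun l h0 h1 => rel_subset_Gam i (mem_rel_iff.2 ⟨1 - l, by linarith, by linarith, by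
        unfold dir; push_cast; ring⟩), h⟩
  set a := (q / D).re with ha
  set b := (q / D).im with hb
  have hqab : q = (a + b * Complex.I) * D := by
    rw [ha, hb, Complex.re_add_im, div_mul_cancel₀ _ hD]
  have hb0 : b ≠ 0 := by
    intro h0
    apply hqc
    rw [hqab, h0]
    have : ((a : ℂ) + ((0 : ℝ) : ℂ) * Complex.I) * D * conj D = a * (D * conj D) := by
      push_cast; ring
    rw [this, Complex.mul_conj]; simp
  obtain ⟨s, hs, hsb⟩ : ∃ s : ℝ, (s = 1 ∨ s = -1) ∧ s * b = |b| := by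
    rcases le_total 0 b with h | h
    · exact ⟨1, Or.inl rfl, by rw [abs_of_nonneg h, one_mul]⟩
    · exact ⟨-1, Or.inr rfl, by rw [abs_of_nonpos h]; ring⟩
  have hss : s * s = 1 := by rcases hs with h | h <;> rw [h] <;> norm_num
  have hbabs : 0 < |b| := abs_pos.2 hb0
  refine ⟨s, hs, ?_⟩
  -- ρ: a small time
  obtain ⟨ρ, hρ, hρ1, hρ2⟩ : ∃ ρ > 0, ρ < 1 - t ∧ 2 * ρ * (‖D‖ + 1) < r := by
    refine ⟨min ((1 - t) / 2) (r / (4 * (‖D‖ + 1))), lt_min (by linarith) (by positivity), ?_, ?_⟩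
    · exact (min_le_left _ _).trans_lt (by linarith)
    · have hm := min_le_right ((1 - t) / 2) (r / (4 * (‖D‖ + 1)))
      have : 2 * min ((1 - t) / 2) (r / (4 * (‖D‖ + 1))) * (‖D‖ + 1) ≤
          2 * (r / (4 * (‖D‖ + 1))) * (‖D‖ + 1) := by
        apply mul_le_mul_of_nonneg_right _ (by positivity)
        linarith
      have h3 : 2 * (r / (4 * (‖D‖ + 1))) * (‖D‖ + 1) = r / 2 := by field_simp; ring
      linarith
  -- eventually statements
  have hcont : Continuous fun ε : ℝ => (1 + Complex.I * ((s * ε : ℝ) : ℂ)) * D := by fun_prop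
  have hev1 : ∀ᶠ ε : ℝ in 𝓝 0, ∀ τ ∈ Icc t (1 - ρ),
      z + (τ : ℂ) * ((1 + Complex.I * ((s * ε : ℝ) : ℂ)) * D) ∈ U P := by
    apply IsCompact.eventually_forall_of_forall_eventually isCompact_Icc
    intro τ hτ
    have hc : Continuous fun p : ℝ × ℝ =>
        z + (p.2 : ℂ) * ((1 + Complex.I * ((s * p.1 : ℝ) : ℂ)) * D) := by fun_prop
    have h3 : z + (τ : ℂ) * ((1 + Complex.I * ((s * (0 : ℝ) : ℝ) : ℂ)) * D) ∈ U P := by
      have e : z + (τ : ℂ) * ((1 + Complex.I * ((s * (0 : ℝ) : ℝ) : ℂ)) * D) = z + τ * D := by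
        push_cast; ring
      rw [e]
      rcases eq_or_lt_of_le hτ.1 with h | h
      · rw [← h]; exact hst
      · exact hU τ ⟨h, by linarith [hτ.2]⟩
    exact (hc.tendsto (0, τ)).eventually (isOpen_U.mem_nhds h3)
  have hev2 : ∀ᶠ ε : ℝ in 𝓝 0, ∀ τ ∈ Icc (1 - ρ) (1 + ρ),
      z + (τ : ℂ) * ((1 + Complex.I * ((s * ε : ℝ) : ℂ)) * D) ∈ ball (P.vertex (i + 1)) r := by
    apply IsCompact.eventually_forall_of_forall_eventually isCompact_Icc
    intro τ hτ
    have hc : Continuous fun p : ℝ × ℝ =>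
        z + (p.2 : ℂ) * ((1 + Complex.I * ((s * p.1 : ℝ) : ℂ)) * D) := by fun_prop
    have h3 : z + (τ : ℂ) * ((1 + Complex.I * ((s * (0 : ℝ) : ℝ) : ℂ)) * D) ∈
        ball (P.vertex (i + 1)) r := by
      have e : z + (τ : ℂ) * ((1 + Complex.I * ((s * (0 : ℝ) : ℝ) : ℂ)) * D) = z + τ * D := by
        push_cast; ring
      rw [e, mem_ball, dist_eq_norm, ← hz]
      have e2 : z + τ * D - (z + D) = ((τ - 1 : ℝ) : ℂ) * D := by push_cast; ring
      rw [e2, norm_mul, Complex.norm_real, Real.norm_eq_abs]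
      have h4 : |τ - 1| ≤ ρ := abs_le.2 ⟨by linarith [hτ.1], by linarith [hτ.2]⟩
      have h5 : |τ - 1| * ‖D‖ ≤ ρ * ‖D‖ := mul_le_mul_of_nonneg_right h4 (norm_nonneg _)
      nlinarith [norm_nonneg D]
    exact (hc.tendsto (0, τ)).eventually (isOpen_ball.mem_nhds h3)
  -- the crossing parameter
  set μ : ℝ → ℝ := fun ε => ε / (|b| - a * ε) with hμ
  have hμc : ContinuousAt μ 0 := by
    apply ContinuousAt.div continuousAt_id (by fun_prop)
    simpa using hb0
  have hμ0 : μ 0 = 0 := by simp [hμ]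
  have hev3 : ∀ᶠ ε : ℝ in 𝓝 0, μ ε < 1 := by
    have := hμc.tendsto
    rw [hμ0] at this
    exact this.eventually (gt_mem_nhds one_pos)
  have hev4 : ∀ᶠ ε : ℝ in 𝓝 0, 1 + μ ε * a ∈ Ioo (1 - ρ) (1 + ρ) := by
    have h5 : Tendsto (fun ε => 1 + μ ε * a) (𝓝 0) (𝓝 1) := by
      have := (hμc.tendsto.mul_const a).const_add 1
      rw [hμ0, zero_mul, add_zero] at this
      exact this
    exact h5.eventually (Ioo_mem_nhds (by linarith) (by linarith))
  have hev5 : ∀ᶠ ε : ℝ in 𝓝 0, 0 < |b| - a * ε := by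
    have hc : Continuous fun ε : ℝ => |b| - a * ε := by fun_prop
    have := hc.tendsto 0
    simp only [mul_zero, sub_zero] at this
    exact this.eventually (lt_mem_nhds hbabs)
  have hall := ((((hev1.and hev2).and hev3).and hev4).and hev5).filter_mono
    (nhdsWithin_le_nhds (s := Ioi (0 : ℝ)))
  filter_upwards [hall, self_mem_nhdsWithin] with ε hε hε0
  obtain ⟨⟨⟨⟨h1, h2⟩, h3⟩, h4⟩, h5⟩ := hε
  have hε0 : 0 < ε := hε0
  set D' := (1 + Complex.I * ((s * ε : ℝ) : ℂ)) * D with hD'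
  have hfac : (1 + Complex.I * ((s * ε : ℝ) : ℂ)) ≠ 0 := by
    intro h
    have := congrArg Complex.re h
    simp at this
  have hD'0 : D' ≠ 0 := mul_ne_zero hfac hD
  have hμpos : 0 < μ ε := div_pos hε0 h5
  have hμe : μ ε * (|b| - a * ε) = ε := div_mul_cancel₀ _ h5.ne'
  -- the point on the side
  have hpt : z + ((1 + μ ε * a : ℝ) : ℂ) * D' = P.vertex (i + 1) + μ ε * q := by
    rw [← hz, hD', hqab]
    have e1 : (1 + μ ε * a) * (s * ε) = μ ε * b := by
      have : μ ε * |b| = ε * (1 + μ ε * a) := by linarith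
      have h6 : μ ε * b * (s * s) = ε * (1 + μ ε * a) * s := by
        rw [← this, ← hsb]; ring
      rw [hss] at h6
      linarith
    have e2 : ((1 + μ ε * a : ℝ) : ℂ) * ((s * ε : ℝ) : ℂ) = ((μ ε * b : ℝ) : ℂ) := by
      rw [← Complex.ofReal_mul, e1]
    push_cast at e2 ⊢
    linear_combination (Complex.I * D) * e2
  have hGpt : z + ((1 + μ ε * a : ℝ) : ℂ) * D' ∈ Gam P := by
    rw [hpt]; exact hqG _ hμpos h3
  have hstart : z + t * D' ∈ U P := h1 t ⟨le_rfl, by linarith⟩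
  obtain ⟨T, hT, hTG, hTU⟩ := exists_hit hD'0 hstart
  have hTle : T ≤ 1 + μ ε * a := by
    by_contra hh
    push Not at hh
    exact not_mem_U_of_Gam hGpt (hTU _ ⟨by linarith [h4.1], hh⟩)
  have hTge : 1 - ρ < T := by
    by_contra hh
    push Not at hh
    exact not_mem_U_of_Gam hTG (h1 T ⟨hT.le, hh⟩)
  have hTball := h2 T ⟨hTge.le, by linarith [h4.2]⟩
  have hne : z + (T : ℂ) * D' ≠ P.vertex (i + 1) := by
    intro h
    rw [← hz, hD'] at h
    have h6 : ((T : ℂ) * (1 + Complex.I * ((s * ε : ℝ) : ℂ)) - 1) * D = 0 := by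
      linear_combination h
    rcases mul_eq_zero.1 h6 with h7 | h7
    · have h8 := congrArg Complex.im h7
      have h9 := congrArg Complex.re h7
      simp at h8 h9
      rcases h8 with h8 | h8 | h8
      · rw [h8] at h9; norm_num at h9
      · rcases hs with h | h <;> rw [h] at h8 <;> norm_num at h8
      · exact hε0.ne' h8
    · exact hD h7
  rcases hball _ hTball hTG hne with h | h
  · exact ⟨i, Or.inl rfl, T, hT, fun τ hτ => hTU τ ⟨hτ.1.le, hτ.2⟩, h, trivial⟩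
  · exact ⟨i + 1, Or.inr rfl, T, hT, fun τ hτ => hTU τ ⟨hτ.1.le, hτ.2⟩, h, trivial⟩

theorem Vis.start_later {W : List (ZMod P.k)} {z u : ℂ} {t T : ℝ} {j : ZMod P.k}
    (h : Vis P z u t W j T) : ∃ ε > 0, ∀ t₂ ∈ Ico t (t + ε), Vis P z u t₂ W j T := by
  cases W with
  | nil =>
    obtain ⟨h1, h2, h3⟩ := h
    refine ⟨T - t, by linarith, fun t₂ ht₂ => ⟨by linarith [ht₂.2], h2, fun τ hτ => ?_⟩⟩
    exact h3 τ ⟨by linarith [hτ.1, ht₂.1], hτ.2⟩
  | cons a W =>
    obtain ⟨t', ht, h1, h2, h3⟩ := h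
    refine ⟨t' - t, by linarith, fun t₂ ht₂ => ⟨t', by linarith [ht₂.2], fun τ hτ => ?_, h2, h3⟩⟩
    exact h1 τ ⟨by linarith [hτ.1, ht₂.1], hτ.2⟩

theorem Vis.start_earlier {W : List (ZMod P.k)} {z u : ℂ} {t₁ t₂ T : ℝ} {j : ZMod P.k}
    (h12 : t₁ ≤ t₂) (hU : ∀ τ ∈ Ioc t₁ t₂, z + τ * u ∈ U P) (h : Vis P z u t₂ W j T) :
    Vis P z u t₁ W j T := by
  cases W with
  | nil =>
    obtain ⟨h1, h2, h3⟩ := h
    refine ⟨by linarith, h2, fun τ hτ => ?_⟩
    by_cases hh : τ ≤ t₂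
    · exact hU τ ⟨hτ.1, hh⟩
    · exact h3 τ ⟨by push Not at hh; exact hh, hτ.2⟩
  | cons a W =>
    obtain ⟨t', ht, h1, h2, h3⟩ := h
    refine ⟨t', by linarith, fun τ hτ => ?_, h2, h3⟩
    by_cases hh : τ ≤ t₂
    · exact hU τ ⟨hτ.1, hh⟩
    · exact h1 τ ⟨by push Not at hh; exact hh, hτ.2⟩

/-- A ray reaching a vertex: slightly rotated rays (in one of the two senses) follow the same
code and then hit a side adjacent to the vertex. -/
theorem arrive (i : ZMod P.k) (W : List (ZMod P.k)) : ∀ {z D : ℂ} {t : ℝ}, D ≠ 0 →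
    z + t * D ∈ U P → Vis P z D t W (i + 1) 1 →
    ∃ s : ℝ, (s = 1 ∨ s = -1) ∧ ∀ᶠ ε : ℝ in 𝓝[>] 0, ∃ e, (e = i ∨ e = i + 1) ∧
      Path P z ((1 + Complex.I * ((s * ε : ℝ) : ℂ)) * D) t (W ++ [e]) := by
  induction W with
  | nil =>
    rintro z D t hD hst ⟨h1, h2, h3⟩
    rw [Complex.ofReal_one, one_mul] at h2
    exact arrive_base i hD h1 h2 hst h3
  | cons a W ih =>
    rintro z D t hD hst ⟨t', ht, h1, h2, h3⟩
    have hI : ∀ τ ∈ Ico t t', z + τ * D ∈ U P := by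
      intro τ hτ
      rcases eq_or_lt_of_le hτ.1 with h | h
      · rw [← h]; exact hst
      · exact h1 τ ⟨h, hτ.2⟩
    obtain ⟨hct, htend, η, hη, hev⟩ := step_stable ht h2 hI
    obtain ⟨ε, hε, hlater⟩ := h3.start_later
    obtain ⟨t₂, ht₂a, ht₂b, ht₂c⟩ : ∃ t₂, t' < t₂ ∧ t₂ < t' + η ∧ t₂ < t' + ε := by
      have : 0 < min η ε := lt_min hη hε
      refine ⟨t' + min η ε / 2, by linarith, ?_, ?_⟩
      · have := min_le_left η ε
        linarith
      · have := min_le_right η ε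
        linarith
    have h4 := hlater t₂ ⟨ht₂a.le, ht₂c⟩
    have h5 : refl P a z + t₂ * lrefl P a D ∈ U P := by
      rw [← refl_add]
      exact hev.self_of_nhds.2.2 t₂ ⟨by rw [hct]; exact ht₂a, ht₂b⟩
    obtain ⟨s, hs, hpath⟩ := ih (lrefl_ne_zero a hD) h5 h4
    refine ⟨-s, by rcases hs with h | h <;> rw [h] <;> norm_num, ?_⟩
    have hc : Continuous fun ε : ℝ => (z, (1 + Complex.I * ((-s * ε : ℝ) : ℂ)) * D) := by fun_prop
    have hc0 := hc.tendsto 0
    simp only [mul_zero, Complex.ofReal_zero, add_zero, one_mul] at hc0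
    have h7 := (hc0.eventually hev).filter_mono (nhdsWithin_le_nhds (s := Ioi (0 : ℝ)))
    have h8 : ∀ᶠ p : ℂ × ℂ in 𝓝 (z, D), t < ct P a p ∧ ct P a p < t₂ :=
      (htend.eventually (lt_mem_nhds ht)).and (htend.eventually (gt_mem_nhds ht₂a))
    have h9 := (hc0.eventually h8).filter_mono (nhdsWithin_le_nhds (s := Ioi (0 : ℝ)))
    filter_upwards [hpath, h7, h9] with ε hp1 hp2 hp3
    obtain ⟨e, he, hpe⟩ := hp1
    refine ⟨e, he, ct P a _, hp3.1, fun τ hτ => hp2.2.1 τ ⟨hτ.1.le, hτ.2⟩, hp2.1, ?_⟩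
    have e1 : lrefl P a ((1 + Complex.I * ((-s * ε : ℝ) : ℂ)) * D) =
        (1 + Complex.I * ((s * ε : ℝ) : ℂ)) * lrefl P a D := by
      rw [lrefl_mul]; simp
    rw [← e1] at hpe
    apply hpe.start_earlier hp3.2.le
    intro τ hτ
    rw [← refl_add]
    exact hp2.2.2 τ ⟨hτ.1, by linarith [hτ.2]⟩

end Pool.Agent.Lib_helper45.Bil
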