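import Pool.Agent.Lib_helper45.Bil.Corner

/-!
# Billiards in polygons: parallel beams and the first vertex that cuts them
-/

open Set Filter Topology Metric
open scoped ComplexConjugate

namespace Pool.Agent.Lib_helper45.Bil

open Pool.Agent.Billiard

variable {P : Polygon}

variable (P) in
/-- The line `z + τ u`, started at `τ = t`, crosses the sides in the list and then reaches the
vertex `j` at time `T`. -/
def Vis : ℂ → ℂ → ℝ → List (ZMod P.k) → ZMod P.k → ℝ → Prop
  | z, u, t, [], j, T => t < T ∧ z + T * u = P.vertex j ∧ ∀ τ ∈ Ioo t T, z + τ * u ∈ U P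
  | z, u, t, a :: w, j, T => ∃ t' : ℝ, t < t' ∧ (∀ τ ∈ Ioo t t', z + τ * u ∈ U P) ∧
      z + t' * u ∈ rel P a ∧ Vis (refl P a z) (lrefl P a u) t' w j T

theorem lrefl_mul (a : ZMod P.k) (c u : ℂ) : lrefl P a (c * u) = conj c * lrefl P a u := rd_mul _ _ _

/-- Position in a beam. -/
noncomputable def bp (v u : ℂ) (τ σ : ℝ) : ℂ := v + (τ + Complex.I * σ) * u

theorem bp_eq (v u : ℂ) (τ σ : ℝ) : bp v u τ σ = (v + (Complex.I * σ) * u) + τ * u := by
  unfold bp; ring

theorem refl_bp (a : ZMod P.k) (v u : ℂ) (τ σ : ℝ) :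
    refl P a (bp v u τ σ) = bp (refl P a v) (lrefl P a u) τ (-σ) := by
  unfold bp
  rw [refl_add', lrefl_mul]
  congr 2
  simp

theorem bp_scale (v u : ℂ) (d σ : ℝ) (l : ℝ) :
    v + (l : ℂ) * ((d + Complex.I * σ) * u) = bp v u (l * d) (l * σ) := by
  unfold bp; push_cast; ring

/-- The crossing time with the line of side `a` is affine in the offset. -/
theorem ct_beam (a : ZMod P.k) (v u : ℂ) (σ : ℝ) :
    ct P a (v + (Complex.I * σ) * u, u) =
      -H P a v / tr P a u + (-tr P a (Complex.I * u) / tr P a u) * σ := by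
  unfold ct
  have : v + Complex.I * σ * u = v + σ * (Complex.I * u) := by ring
  simp only [this, H_add]
  ring

theorem beam_local {a : ZMod P.k} {v u : ℂ} {ω α β : ℝ}
    (hstart : ∀ σ ∈ Ioo (-ω) ω, ∃ ε > 0, ∀ σ' ∈ Ioo (σ - ε) (σ + ε),
      ∀ τ ∈ Ioo (α + β * σ') (α + β * σ' + ε), bp v u τ σ' ∈ U P)
    {t : ℝ → ℝ} (ht1 : ∀ σ ∈ Ioo (-ω) ω, α + β * σ < t σ)
    (ht2 : ∀ σ ∈ Ioo (-ω) ω, bp v u (t σ) σ ∈ Gam P)
    (ht3 : ∀ σ ∈ Ioo (-ω) ω, ∀ τ ∈ Ioo (α + β * σ) (t σ), bp v u τ σ ∈ U P)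
    {σ₀ : ℝ} (hσ₀ : σ₀ ∈ Ioo (-ω) ω) (hrel : bp v u (t σ₀) σ₀ ∈ rel P a) :
    tr P a u ≠ 0 ∧ t σ₀ = ct P a (v + (Complex.I * σ₀) * u, u) ∧ ∃ η > 0,
    ∀ᶠ σ in 𝓝 σ₀, σ ∈ Ioo (-ω) ω ∧ t σ = ct P a (v + (Complex.I * σ) * u, u) ∧
      bp v u (t σ) σ ∈ rel P a ∧
      ∀ τ ∈ Ioo (t σ) (t σ₀ + η), refl P a (bp v u τ σ) ∈ U P := by
  obtain ⟨ε, hε, hst⟩ := hstart σ₀ hσ₀
  have hts : α + β * σ₀ < t σ₀ := ht1 σ₀ hσ₀
  obtain ⟨t₁, h1a, h1b, h1c⟩ : ∃ t₁, α + β * σ₀ < t₁ ∧ t₁ < t σ₀ ∧ t₁ < α + β * σ₀ + ε := by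
    refine ⟨α + β * σ₀ + min ε (t σ₀ - (α + β * σ₀)) / 2, ?_, ?_, ?_⟩
    · have : 0 < min ε (t σ₀ - (α + β * σ₀)) := lt_min hε (by linarith)
      linarith
    · have h0 : 0 < min ε (t σ₀ - (α + β * σ₀)) := lt_min hε (by linarith)
      have := min_le_right ε (t σ₀ - (α + β * σ₀))
      linarith
    · have h0 : 0 < min ε (t σ₀ - (α + β * σ₀)) := lt_min hε (by linarith)
      have := min_le_left ε (t σ₀ - (α + β * σ₀))
      linarith
  have hUU : ∀ τ ∈ Ico t₁ (t σ₀), (v + (Complex.I * σ₀) * u) + τ * u ∈ U P := by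
    intro τ hτ
    rw [← bp_eq]
    exact ht3 σ₀ hσ₀ τ ⟨by linarith [hτ.1], hτ.2⟩
  have hrel' : (v + (Complex.I * σ₀) * u) + t σ₀ * u ∈ rel P a := by rw [← bp_eq]; exact hrel
  have htrn := transversal h1b hrel' hUU
  obtain ⟨hct, htend, η, hη, hev⟩ := step_stable h1b hrel' hUU
  refine ⟨htrn, hct.symm, η, hη, ?_⟩
  have hcont : Continuous fun σ : ℝ => (v + (Complex.I * (σ : ℂ)) * u, u) := by fun_prop
  have hev' := (hcont.tendsto σ₀).eventually hev
  have h4 : ∀ᶠ σ in 𝓝 σ₀, σ ∈ Ioo (-ω) ω := Ioo_mem_nhds hσ₀.1 hσ₀.2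
  have h5 : ∀ᶠ σ in 𝓝 σ₀, σ ∈ Ioo (σ₀ - ε) (σ₀ + ε) :=
    Ioo_mem_nhds (by linarith) (by linarith)
  have h6 : ∀ᶠ σ in 𝓝 σ₀, α + β * σ < t₁ ∧ t₁ < α + β * σ + ε := by
    have hc : Continuous fun σ : ℝ => α + β * σ := by fun_prop
    have hc2 : Continuous fun σ : ℝ => α + β * σ + ε := by fun_prop
    exact ((hc.tendsto σ₀).eventually (gt_mem_nhds h1a)).and
      ((hc2.tendsto σ₀).eventually (lt_mem_nhds h1c))
  have h7 : ∀ᶠ σ : ℝ in 𝓝 σ₀, t₁ < ct P a (v + (Complex.I * (σ : ℂ)) * u, u) :=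
    (hcont.tendsto σ₀).eventually (htend.eventually (lt_mem_nhds h1b))
  filter_upwards [hev', h4, h5, h6, h7] with σ hσ1 hσ2 hσ3 hσ4 hσ5
  set c := ct P a (v + (Complex.I * (σ : ℂ)) * u, u) with hc
  have hbefore : ∀ τ ∈ Ioo (α + β * σ) c, bp v u τ σ ∈ U P := by
    intro τ hτ
    by_cases hh : τ < t₁
    · exact hstart_use hst hσ3 hτ.1 (by linarith)
    · push Not at hh
      rw [bp_eq]
      exact hσ1.2.1 τ ⟨hh, hτ.2⟩
  have hhit : bp v u c σ ∈ rel P a := by rw [bp_eq]; exact hσ1.1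
  have htc : t σ = c := by
    rcases lt_trichotomy (t σ) c with h | h | h
    · exact absurd (hbefore (t σ) ⟨ht1 σ hσ2, h⟩) (not_mem_U_of_Gam (ht2 σ hσ2))
    · exact h
    · exact absurd (ht3 σ hσ2 c ⟨by linarith, h⟩) (not_mem_U_of_Gam (rel_subset_Gam a hhit))
  refine ⟨hσ2, htc, by rw [htc]; exact hhit, fun τ hτ => ?_⟩
  rw [bp_eq]
  rw [htc] at hτ
  exact hσ1.2.2 τ hτ
  where
  hstart_use {v u : ℂ} {α β σ₀ ε σ τ : ℝ}
      (hst : ∀ σ' ∈ Ioo (σ₀ - ε) (σ₀ + ε), ∀ τ ∈ Ioo (α + β * σ') (α + β * σ' + ε),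
        bp v u τ σ' ∈ U P) (h3 : σ ∈ Ioo (σ₀ - ε) (σ₀ + ε)) (h4 : α + β * σ < τ)
      (h5 : τ < α + β * σ + ε) : bp v u τ σ ∈ U P := hst σ h3 τ ⟨h4, h5⟩

theorem beam_const {v u : ℂ} {ω α β c d : ℝ}
    (hstart : ∀ σ ∈ Ioo (-ω) ω, ∃ ε > 0, ∀ σ' ∈ Ioo (σ - ε) (σ + ε),
      ∀ τ ∈ Ioo (α + β * σ') (α + β * σ' + ε), bp v u τ σ' ∈ U P)
    {t : ℝ → ℝ} (ht1 : ∀ σ ∈ Ioo (-ω) ω, α + β * σ < t σ)
    (ht2 : ∀ σ ∈ Ioo (-ω) ω, bp v u (t σ) σ ∈ Gam P)
    (ht3 : ∀ σ ∈ Ioo (-ω) ω, ∀ τ ∈ Ioo (α + β * σ) (t σ), bp v u τ σ ∈ U P)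
    (hc : -ω ≤ c) (hd : d ≤ ω) (h0 : (0 : ℝ) ∈ Ioo c d)
    (hnv : ∀ σ ∈ Ioo c d, ∀ j, bp v u (t σ) σ ≠ P.vertex j) :
    ∃ a, ∀ σ ∈ Ioo c d, bp v u (t σ) σ ∈ rel P a ∧
      t σ = ct P a (v + (Complex.I * σ) * u, u) := by
  have hsub : ∀ σ ∈ Ioo c d, σ ∈ Ioo (-ω) ω := fun σ hσ =>
    ⟨lt_of_le_of_lt hc hσ.1, lt_of_lt_of_le hσ.2 hd⟩
  obtain ⟨a, ha⟩ := exists_rel_of_Gam (ht2 0 (hsub 0 h0)) (hnv 0 h0)
  set A : Set ℝ := {σ | σ ∈ Ioo c d ∧ bp v u (t σ) σ ∈ rel P a} with hA
  set B : Set ℝ := {σ | σ ∈ Ioo c d ∧ ∃ b, b ≠ a ∧ bp v u (t σ) σ ∈ rel P b} with hB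
  have hAo : IsOpen A := by
    rw [isOpen_iff_mem_nhds]
    rintro σ ⟨hσ, hr⟩
    obtain ⟨_, _, η, hη, hev⟩ := beam_local hstart ht1 ht2 ht3 (hsub σ hσ) hr
    filter_upwards [hev, Ioo_mem_nhds hσ.1 hσ.2] with y hy hy2
    exact ⟨hy2, hy.2.2.1⟩
  have hBo : IsOpen B := by
    rw [isOpen_iff_mem_nhds]
    rintro σ ⟨hσ, b, hb, hr⟩
    obtain ⟨_, _, η, hη, hev⟩ := beam_local hstart ht1 ht2 ht3 (hsub σ hσ) hr
    filter_upwards [hev, Ioo_mem_nhds hσ.1 hσ.2] with y hy hy2
    exact ⟨hy2, b, hb, hy.2.2.1⟩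
  have hdisj : Disjoint A B := by
    rw [Set.disjoint_left]
    rintro σ ⟨_, h1⟩ ⟨_, b, hb, h2⟩
    exact hb (rel_unique h2 h1)
  have hcover : Ioo c d ⊆ A ∪ B := by
    intro σ hσ
    obtain ⟨b, hb⟩ := exists_rel_of_Gam (ht2 σ (hsub σ hσ)) (hnv σ hσ)
    by_cases h : b = a
    · subst h; exact Or.inl ⟨hσ, hb⟩
    · exact Or.inr ⟨hσ, b, h, hb⟩
  have hAall := IsPreconnected.subset_left_of_subset_union hAo hBo hdisj hcover
    ⟨0, h0, h0, ha⟩ isPreconnected_Ioo
  refine ⟨a, fun σ hσ => ?_⟩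
  have hσA := (hAall hσ).2
  exact ⟨hσA, (beam_local hstart ht1 ht2 ht3 (hsub σ hσ) hσA).2.1⟩

theorem beam (n : ℕ) : ∀ {v u : ℂ} {ω α β : ℝ}, u ≠ 0 → 0 < ω → 0 < α →
    (∀ σ ∈ Ioo (-ω) ω, ∃ ε > 0, ∀ σ' ∈ Ioo (σ - ε) (σ + ε),
      ∀ τ ∈ Ioo (α + β * σ') (α + β * σ' + ε), bp v u τ σ' ∈ U P) →
    (∃ X : List (ZMod P.k), X.length = n ∧ ∀ σ ∈ Ioo (-ω) ω,
      Path P (v + (Complex.I * σ) * u) u (α + β * σ) X) ∨
    (∃ (W : List (ZMod P.k)) (j : ZMod P.k) (d σ : ℝ), W.length < n ∧ σ ∈ Ioo (-ω) ω ∧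
      α + β * σ < d ∧ dev P W (P.vertex j) = v + (d + Complex.I * σ) * u ∧
      Vis P v ((d + Complex.I * σ) * u) (α / (d - β * σ)) W j 1) := by
  induction n with
  | zero => intro v u ω α β _ _ _ _; exact Or.inl ⟨[], rfl, fun _ _ => trivial⟩
  | succ n ih =>
    intro v u ω α β hu hω hα hstart
    have hex : ∀ σ ∈ Ioo (-ω) ω, ∃ t, α + β * σ < t ∧ bp v u t σ ∈ Gam P ∧
        ∀ τ ∈ Ioo (α + β * σ) t, bp v u τ σ ∈ U P := by
      intro σ hσ
      obtain ⟨ε, hε, hst⟩ := hstart σ hσ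
      have hself : σ ∈ Ioo (σ - ε) (σ + ε) := ⟨by linarith, by linarith⟩
      have h1 : (v + (Complex.I * σ) * u) + ((α + β * σ + ε / 2 : ℝ) : ℂ) * u ∈ U P := by
        rw [← bp_eq]
        exact hst σ hself _ ⟨by linarith, by linarith⟩
      obtain ⟨t, ht, hG, hUU⟩ := exists_hit hu h1
      refine ⟨t, by linarith, by rw [bp_eq]; exact hG, fun τ hτ => ?_⟩
      by_cases h : τ < α + β * σ + ε
      · exact hst σ hself τ ⟨hτ.1, h⟩
      · push Not at h
        rw [bp_eq]
        exact hUU τ ⟨by linarith, hτ.2⟩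
    choose! t ht1 ht2 ht3 using hex
    have h0ω : (0 : ℝ) ∈ Ioo (-ω) ω := ⟨by linarith, hω⟩
    have hα0 : α < t 0 := by have := ht1 0 h0ω; simpa using this
    set VS : Set ℝ := {σ | σ ∈ Ioo (-ω) ω ∧ ∃ j, bp v u (t σ) σ = P.vertex j} with hVS
    have hVSfin : VS.Finite := by
      have : VS ⊆ (fun j : ZMod P.k => ((P.vertex j - v) / u).im) '' univ := by
        rintro σ ⟨_, j, hj⟩
        refine ⟨j, mem_univ _, ?_⟩
        show ((P.vertex j - v) / u).im = σ
        rw [← hj]; unfold bp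
        rw [add_sub_cancel_left, mul_div_assoc, div_self hu, mul_one]
        simp
      exact (finite_univ.image _).subset this
    by_cases hne : VS.Nonempty
    · -- some line of the beam hits a vertex
      obtain ⟨σq, hσq, hmin⟩ := Set.exists_min_image VS (fun σ => |σ|) hVSfin hne
      obtain ⟨hσω, j, hj⟩ := hσq
      right
      refine ⟨[], j, t σq, σq, Nat.succ_pos n, hσω, ht1 σq hσω, by rw [← hj]; rfl, ?_⟩
      set d := t σq with hd
      have hdlt := ht1 σq hσω
      have hden : α < d - β * σq := by linarith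
      refine ⟨by rw [div_lt_one (by linarith)]; exact hden, ?_, ?_⟩
      · rw [Complex.ofReal_one, one_mul]; rw [← hj]; rfl
      intro l hl
      rw [bp_scale]
      have hl0 : 0 < l := lt_trans (by apply div_pos hα; linarith) hl.1
      have hl1 : l < 1 := hl.2
      have hlb : α + β * (l * σq) < l * d := by
        have := hl.1
        rw [div_lt_iff₀ (by linarith)] at this
        linarith
      by_cases hz : σq = 0
      · rw [hz, mul_zero] at hlb ⊢
        apply ht3 0 h0ω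
        refine ⟨hlb, ?_⟩
        have hdd : d = t 0 := by rw [hd, hz]
        have : 0 < d := by rw [hdd]; linarith
        rw [← hdd]
        nlinarith
      · -- constant side on the inner interval
        have habs : 0 < |σq| := abs_pos.2 hz
        have hsubs : |σq| < ω := abs_lt.2 ⟨hσω.1, hσω.2⟩
        have hJ : ∀ σ ∈ Ioo (-|σq|) |σq|, ∀ j, bp v u (t σ) σ ≠ P.vertex j := by
          intro σ hσ j' hj'
          have h1 : σ ∈ VS := ⟨⟨by linarith [hσ.1], by linarith [hσ.2]⟩, j', hj'⟩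
          have h2 := hmin σ h1
          have h3 : |σ| < |σq| := abs_lt.2 hσ
          linarith
        obtain ⟨a, ha⟩ := beam_const hstart ht1 ht2 ht3 (c := -|σq|) (d := |σq|)
          (by linarith) (by linarith) ⟨by linarith, habs⟩ hJ
        set A := -H P a v / tr P a u with hA
        set B := -tr P a (Complex.I * u) / tr P a u with hB
        have hform : ∀ σ ∈ Ioo (-|σq|) |σq|, t σ = A + B * σ := by
          intro σ hσ
          rw [(ha σ hσ).2, ct_beam]
        have hlJ : ∀ l : ℝ, 0 ≤ l → l < 1 → l * σq ∈ Ioo (-|σq|) |σq| := by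
          intro l h0 h1
          rw [Set.mem_Ioo, ← abs_lt, abs_mul, abs_of_nonneg h0]
          nlinarith
        have hA0 : A = t 0 := by
          have := hform 0 (by simpa using hlJ 0 le_rfl one_pos)
          rw [this]; ring
        have hcont : Continuous fun l : ℝ => bp v u (A + B * (l * σq)) (l * σq) := by
          unfold bp; fun_prop
        have hGlim : bp v u (A + B * σq) σq ∈ Gam P := by
          have h1 : Tendsto (fun l : ℝ => bp v u (A + B * (l * σq)) (l * σq)) (𝓝[<] 1)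
              (𝓝 (bp v u (A + B * σq) σq)) := by
            have := (hcont.tendsto 1).mono_left (nhdsWithin_le_nhds (s := Iio 1))
            simpa using this
          apply Gam_closed.mem_of_tendsto h1
          have h2 : Ioo (0 : ℝ) 1 ∈ 𝓝[<] (1 : ℝ) := Ioo_mem_nhdsLT one_pos
          filter_upwards [h2] with l hl
          have h3 := hlJ l hl.1.le hl.2
          rw [← hform _ h3]
          exact ht2 _ ⟨by linarith [h3.1], by linarith [h3.2]⟩
        obtain ⟨ε, hε, hst⟩ := hstart σq hσω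
        have hlow : α + β * σq + ε ≤ A + B * σq := by
          have h1 : Tendsto (fun l : ℝ => A + B * (l * σq) - (α + β * (l * σq) + ε)) (𝓝[<] 1)
              (𝓝 (A + B * σq - (α + β * σq + ε))) := by
            have hc : Continuous fun l : ℝ => A + B * (l * σq) - (α + β * (l * σq) + ε) := by
              fun_prop
            have := (hc.tendsto 1).mono_left (nhdsWithin_le_nhds (s := Iio 1))
            simpa using this
          have h2 : Ioo (0 : ℝ) 1 ∈ 𝓝[<] (1 : ℝ) := Ioo_mem_nhdsLT one_pos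
          have h3 : ∀ᶠ l : ℝ in 𝓝[<] 1, l * σq ∈ Ioo (σq - ε) (σq + ε) := by
            have hc : Continuous fun l : ℝ => l * σq := by fun_prop
            have := (hc.tendsto 1).mono_left (nhdsWithin_le_nhds (s := Iio 1))
            apply this.eventually
            rw [one_mul]
            exact Ioo_mem_nhds (by linarith) (by linarith)
          have h4 : 0 ≤ A + B * σq - (α + β * σq + ε) := by
            apply ge_of_tendsto h1
            filter_upwards [h2, h3] with l hl hl3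
            have h5 := hlJ l hl.1.le hl.2
            have h6 : l * σq ∈ Ioo (-ω) ω := ⟨by linarith [h5.1], by linarith [h5.2]⟩
            have h7 := ht1 _ h6
            have h8 := ht2 _ h6
            by_contra hneg
            push Not at hneg
            rw [← hform _ h5] at hneg
            exact not_mem_U_of_Gam h8 (hst _ hl3 _ ⟨h7, by linarith⟩)
          linarith
        have hdle : d ≤ A + B * σq := by
          by_contra hneg
          push Not at hneg
          exact not_mem_U_of_Gam hGlim (ht3 σq hσω _ ⟨by linarith, hneg⟩)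
        have h5 := hlJ l hl0.le hl1
        have h6 : l * σq ∈ Ioo (-ω) ω := ⟨by linarith [h5.1], by linarith [h5.2]⟩
        apply ht3 _ h6
        refine ⟨hlb, ?_⟩
        rw [hform _ h5]
        have hApos : 0 < A := by rw [hA0]; linarith
        have h7 : l * d ≤ l * (A + B * σq) := mul_le_mul_of_nonneg_left hdle hl0.le
        nlinarith
    · -- no vertex is hit: the whole beam hits one side
      rw [not_nonempty_iff_eq_empty] at hne
      have hnv : ∀ σ ∈ Ioo (-ω) ω, ∀ j, bp v u (t σ) σ ≠ P.vertex j := by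
        intro σ hσ j hj
        have : σ ∈ VS := ⟨hσ, j, hj⟩
        rw [hne] at this; exact this
      obtain ⟨a, ha⟩ := beam_const hstart ht1 ht2 ht3 le_rfl le_rfl h0ω hnv
      set A := -H P a v / tr P a u with hA
      set B := -tr P a (Complex.I * u) / tr P a u with hB
      have hform : ∀ σ ∈ Ioo (-ω) ω, t σ = A + B * σ := by
        intro σ hσ
        rw [(ha σ hσ).2, ct_beam]
      have hA0 : A = t 0 := by
        have := hform 0 h0ω
        rw [this]; ring
      have hApos : 0 < A := by rw [hA0]; linarith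
      have hneg : ∀ σ ∈ Ioo (-ω) ω, -σ ∈ Ioo (-ω) ω := fun σ hσ =>
        ⟨by linarith [hσ.2], by linarith [hσ.1]⟩
      have hstart' : ∀ σ ∈ Ioo (-ω) ω, ∃ ε > 0, ∀ σ' ∈ Ioo (σ - ε) (σ + ε),
          ∀ τ ∈ Ioo (A + (-B) * σ') (A + (-B) * σ' + ε),
          bp (refl P a v) (lrefl P a u) τ σ' ∈ U P := by
        intro σ hσ
        obtain ⟨_, _, η, hη, hev⟩ := beam_local hstart ht1 ht2 ht3 (hneg σ hσ)
          (ha _ (hneg σ hσ)).1
        obtain ⟨ε₁, hε₁, hball⟩ := Metric.eventually_nhds_iff.1 hev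
        refine ⟨min ε₁ (η / (2 * (|B| + 1))), lt_min hε₁ (by positivity), fun σ' hσ' τ hτ => ?_⟩
        have hm1 := min_le_left ε₁ (η / (2 * (|B| + 1)))
        have hm2 := min_le_right ε₁ (η / (2 * (|B| + 1)))
        set ε := min ε₁ (η / (2 * (|B| + 1))) with hεd
        have hdist : |σ' - σ| < ε := abs_lt.2 ⟨by linarith [hσ'.1], by linarith [hσ'.2]⟩
        have h1 := hball (y := -σ') (by
          rw [Real.dist_eq]
          have : -σ' - -σ = -(σ' - σ) := by ring
          rw [this, abs_neg]; linarith)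
        have h2 := h1.2.2.2 τ ⟨by rw [hform _ h1.1]; linarith [hτ.1], by
          rw [hform _ (hneg σ hσ)]
          have h3 : |B * (σ' - σ)| ≤ |B| * ε := by
            rw [abs_mul]
            exact mul_le_mul_of_nonneg_left hdist.le (abs_nonneg _)
          have h4 : (|B| + 1) * ε ≤ η / 2 := by
            calc (|B| + 1) * ε ≤ (|B| + 1) * (η / (2 * (|B| + 1))) :=
                  mul_le_mul_of_nonneg_left hm2 (by positivity)
              _ = η / 2 := by field_simp
          have h5 := (abs_le.1 h3).1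
          have h6 := hτ.2
          nlinarith⟩
        rw [refl_bp, neg_neg] at h2
        exact h2
      rcases ih (lrefl_ne_zero a hu) hω hApos hstart' with ⟨X, hX, hXP⟩ | ⟨W, j, d, σ, hW, hσ, hd, hdev, hvis⟩
      · left
        refine ⟨a :: X, by simp [hX], fun σ hσ => ⟨t σ, ht1 σ hσ, fun τ hτ => ?_, ?_, ?_⟩⟩
        · rw [← bp_eq]; exact ht3 σ hσ τ hτ
        · rw [← bp_eq]; exact (ha σ hσ).1
        · have h1 := hXP (-σ) (hneg σ hσ)
          have e1 : refl P a (v + Complex.I * σ * u) =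
              refl P a v + (Complex.I * ((-σ : ℝ) : ℂ)) * lrefl P a u := by
            rw [refl_add', lrefl_mul]; simp
          rw [e1, hform σ hσ]
          have e2 : A + -B * -σ = A + B * σ := by ring
          rw [e2] at h1
          exact h1
      · right
        have hσ' := hneg σ hσ
        have hd' : A + B * (-σ) < d := by linarith
        have hbase : α + β * (-σ) < A + B * (-σ) := by
          rw [← hform _ hσ']; exact ht1 _ hσ'
        have hlr : lrefl P a ((d + Complex.I * ((-σ : ℝ) : ℂ)) * u) =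
            (d + Complex.I * σ) * lrefl P a u := by
          rw [lrefl_mul]; simp
        refine ⟨a :: W, j, d, -σ, by simpa using hW, hσ', by linarith, ?_, ?_⟩
        · show refl P a (dev P W (P.vertex j)) = _
          rw [hdev, refl_add', refl_refl, lrefl_mul, lrefl_lrefl]
          simp
        · -- the crossing with side `a`
          have hden1 : A < d - (-B) * σ := by linarith
          have hden2 : α < d - β * (-σ) := by linarith
          have hden1' : 0 < d - (-B) * σ := by linarith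
          have hden2' : 0 < d - β * (-σ) := by linarith
          set l' := A / (d - (-B) * σ) with hl'
          set l₀ := α / (d - β * (-σ)) with hl₀
          have hl'1 : l' < 1 := by rw [hl', div_lt_one hden1']; exact hden1
          have hl'0 : 0 < l' := div_pos hApos hden1'
          have hl'e : l' * (d - (-B) * σ) = A := div_mul_cancel₀ _ hden1'.ne'
          have hl₀0 : 0 < l₀ := div_pos hα hden2'
          have hl₀e : l₀ * (d - β * (-σ)) = α := div_mul_cancel₀ _ hden2'.ne'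
          have hl₀1 : l₀ < 1 := by rw [hl₀, div_lt_one hden2']; exact hden2
          have hinω : ∀ l : ℝ, 0 ≤ l → l ≤ 1 → l * (-σ) ∈ Ioo (-ω) ω := by
            intro l h0 h1
            rw [Set.mem_Ioo, ← abs_lt] at hσ' ⊢
            rw [abs_mul, abs_of_nonneg h0]
            calc l * |-σ| ≤ 1 * |-σ| := mul_le_mul_of_nonneg_right h1 (abs_nonneg _)
              _ < ω := by rw [one_mul]; exact hσ'
          have hlt : l₀ < l' := by
            have h1 := ht1 _ (hinω l₀ hl₀0.le hl₀1.le)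
            rw [hform _ (hinω l₀ hl₀0.le hl₀1.le)] at h1
            have h2 : l₀ * (d - (-B) * σ) < A := by nlinarith
            rw [hl', lt_div_iff₀ hden1']
            exact h2
          refine ⟨l', hlt, fun l hl => ?_, ?_, ?_⟩
          · rw [bp_scale]
            have hl0 : 0 < l := hl₀0.trans hl.1
            have hin := hinω l hl0.le (by linarith [hl.2])
            apply ht3 _ hin
            refine ⟨?_, ?_⟩
            · have : l₀ * (d - β * (-σ)) < l * (d - β * (-σ)) :=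
                mul_lt_mul_of_pos_right hl.1 hden2'
              nlinarith
            · rw [hform _ hin]
              have : l * (d - (-B) * σ) < l' * (d - (-B) * σ) :=
                mul_lt_mul_of_pos_right hl.2 hden1'
              nlinarith
          · rw [bp_scale]
            have hin := hinω l' hl'0.le hl'1.le
            have h1 := (ha _ hin).1
            rw [hform _ hin] at h1
            have e3 : A + B * (l' * -σ) = l' * d := by
              rw [← hl'e]; ring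
            rw [e3] at h1
            exact h1
          · rw [hlr]
            exact hvis

end Pool.Agent.Lib_helper45.Bil
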