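import Pool.Agent.Lib_helper45.Bil.Step

/-!
# Billiards in polygons: an extreme vertex
-/

open Set Filter Topology Metric
open scoped ComplexConjugate

namespace Pool.Agent.Lib_helper45.Bil

open Pool.Agent.Billiard

/-- The data of a convex corner of the polygon: the vertex `v`, the left side `b` (direction `qb`)
and the right side `r` (direction `qr`), and a radius in which the region is the sector. -/
structure Corner (P : Polygon) where
  j : ZMod P.k
  b : ZMod P.k
  r : ZMod P.k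
  qb : ℂ
  qr : ℂ
  rad : ℝ
  hbr : b ≠ r
  hb : ∀ l : ℝ, 0 < l → l < 1 → P.vertex j + l * qb ∈ rel P b
  hr : ∀ l : ℝ, 0 < l → l < 1 → P.vertex j + l * qr ∈ rel P r
  cross : 0 < (qb * conj qr).im
  rad_pos : 0 < rad
  hU : ∀ z ∈ ball (P.vertex j) rad, z ∈ U P ↔
    0 < (qb * conj (z - P.vertex j)).im ∧ 0 < ((z - P.vertex j) * conj qr).im

variable {P : Polygon}

theorem cross_self (q : ℂ) (l : ℝ) : (q * conj ((l : ℂ) * q)).im = 0 := by
  have : q * conj ((l : ℂ) * q) = (l : ℂ) * (q * conj q) := by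
    rw [map_mul, Complex.conj_ofReal]; ring
  rw [this, Complex.mul_conj]; simp

theorem cross_self' (q : ℂ) (l : ℝ) : ((l : ℂ) * q * conj q).im = 0 := by
  have : (l : ℂ) * q * conj q = (l : ℂ) * (q * conj q) := by ring
  rw [this, Complex.mul_conj]; simp

theorem cross_mul_right (q r : ℂ) (l : ℝ) : (q * conj ((l : ℂ) * r)).im = l * (q * conj r).im := by
  have : q * conj ((l : ℂ) * r) = (l : ℂ) * (q * conj r) := by
    rw [map_mul, Complex.conj_ofReal]; ring
  rw [this, Complex.im_ofReal_mul]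

theorem cross_mul_left (q r : ℂ) (l : ℝ) : ((l : ℂ) * q * conj r).im = l * (q * conj r).im := by
  have : (l : ℂ) * q * conj r = (l : ℂ) * (q * conj r) := by ring
  rw [this, Complex.im_ofReal_mul]

/-- If the cross product vanishes the vectors are parallel. -/
theorem parallel_of_cross {q z : ℂ} (hq : q ≠ 0) (h : (q * conj z).im = 0) :
    ∃ l : ℝ, z = l * q := by
  refine ⟨(z * conj q).re / ‖q‖ ^ 2, ?_⟩
  have hn : (‖q‖ : ℂ) ^ 2 ≠ 0 := by exact_mod_cast pow_ne_zero 2 (norm_ne_zero_iff.2 hq)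
  have h1 : z * conj q = ((z * conj q).re : ℂ) := by
    apply Complex.ext
    · simp
    · rw [Complex.ofReal_im]
      have : z * conj q = conj (q * conj z) := by rw [map_mul, Complex.conj_conj]; ring
      rw [this, Complex.conj_im, h, neg_zero]
  have h2 : conj q * q = (‖q‖ : ℂ) ^ 2 := by
    rw [mul_comm, Complex.mul_conj, Complex.normSq_eq_norm_sq]; push_cast; ring
  have h3 : z * (‖q‖ : ℂ) ^ 2 = ((z * conj q).re : ℂ) * q := by
    rw [← h2, ← mul_assoc, ← h1]
  rw [Complex.ofReal_div, Complex.ofReal_pow, div_mul_eq_mul_div, eq_div_iff hn]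
  exact h3

theorem cross_swap (q z : ℂ) : (q * conj z).im = -(z * conj q).im := by
  have : q * conj z = conj (z * conj q) := by rw [map_mul, Complex.conj_conj]; ring
  rw [this, Complex.conj_im]

theorem convex_cross (q v : ℂ) (s ρ : ℝ) :
    Convex ℝ {z | z ∈ ball v ρ ∧ 0 < s * (q * conj (z - v)).im} := by
  have : {z | z ∈ ball v ρ ∧ 0 < s * (q * conj (z - v)).im} =
      ball v ρ ∩ {z | 0 < s * (q * conj (z - v)).im} := rfl
  rw [this]
  apply (convex_ball v ρ).inter
  intro z hz w hw a b ha hb hab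
  simp only [Set.mem_ofPred_eq] at *
  have hb' : b = 1 - a := by linarith
  subst hb'
  have h1 : q * conj (a • z + (1 - a) • w - v) =
      (a : ℂ) * (q * conj (z - v)) + ((1 - a : ℝ) : ℂ) * (q * conj (w - v)) := by
    simp only [Complex.real_smul, map_sub, map_add, map_mul, Complex.conj_ofReal]
    push_cast; ring
  rw [h1, Complex.add_im, Complex.im_ofReal_mul, Complex.im_ofReal_mul]
  have : s * (a * (q * conj (z - v)).im + (1 - a) * (q * conj (w - v)).im) =
    a * (s * (q * conj (z - v)).im) + (1 - a) * (s * (q * conj (w - v)).im) := by ring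
  rw [this]
  rcases eq_or_lt_of_le ha with h | h
  · rw [← h]; linarith
  · have := mul_pos h hz
    have := mul_nonneg hb hw.le
    linarith

theorem corner_aux {j b r : ZMod P.k} {qb qr : ℂ}
    (hbr : b ≠ r)
    (hsb : ∀ z, z ∈ sideOf P.vertex b ↔ ∃ l : ℝ, 0 ≤ l ∧ l ≤ 1 ∧ z = P.vertex j + l * qb)
    (hsr : ∀ z, z ∈ sideOf P.vertex r ↔ ∃ l : ℝ, 0 ≤ l ∧ l ≤ 1 ∧ z = P.vertex j + l * qr)
    (hb : ∀ l : ℝ, 0 < l → l < 1 → P.vertex j + l * qb ∈ rel P b)
    (hr : ∀ l : ℝ, 0 < l → l < 1 → P.vertex j + l * qr ∈ rel P r)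
    (hoth : ∀ i, i ≠ b → i ≠ r → P.vertex j ∉ sideOf P.vertex i)
    (hcross : 0 < (qb * conj qr).im) (hbre : 0 ≤ qb.re) (hrre : 0 ≤ qr.re)
    (hre : ∀ z ∈ P.region, (P.vertex j).re ≤ z.re) : ∃ C : Corner P, C.j = j := by
  have hqb : qb ≠ 0 := by rintro rfl; simp at hcross
  have hqr : qr ≠ 0 := by rintro rfl; simp at hcross
  set v := P.vertex j with hv
  -- the radius
  have h1 : ∀ i : ZMod P.k, ∃ ρ > 0, i ≠ b → i ≠ r → ∀ z ∈ ball v ρ, z ∉ sideOf P.vertex i := by
    intro i
    by_cases hi : i ≠ b ∧ i ≠ r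
    · have : (sideOf P.vertex i)ᶜ ∈ 𝓝 v :=
        (side_closed i).isOpen_compl.mem_nhds (hoth i hi.1 hi.2)
      obtain ⟨ρ, hρ, hbb⟩ := Metric.mem_nhds_iff.1 this
      exact ⟨ρ, hρ, fun _ _ z hz => hbb hz⟩
    · exact ⟨1, one_pos, fun h h' => absurd ⟨h, h'⟩ hi⟩
  choose ρ hρ hρi using h1
  obtain ⟨i₀, hi₀⟩ := Finite.exists_min ρ
  obtain ⟨s, hs, hs1, hs2, hs3⟩ : ∃ s > 0, s ≤ ρ i₀ ∧ s < ‖qb‖ ∧ s < ‖qr‖ := by
    have hb0 : 0 < ‖qb‖ := norm_pos_iff.2 hqb
    have hr0 : 0 < ‖qr‖ := norm_pos_iff.2 hqr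
    refine ⟨min (ρ i₀) (min (‖qb‖ / 2) (‖qr‖ / 2)), ?_, min_le_left _ _, ?_, ?_⟩
    · exact lt_min (hρ i₀) (lt_min (by linarith) (by linarith))
    · have := min_le_right (ρ i₀) (min (‖qb‖ / 2) (‖qr‖ / 2))
      have := min_le_left (‖qb‖ / 2) (‖qr‖ / 2)
      linarith
    · have := min_le_right (ρ i₀) (min (‖qb‖ / 2) (‖qr‖ / 2))
      have := min_le_right (‖qb‖ / 2) (‖qr‖ / 2)
      linarith
  have hG : ∀ z ∈ ball v s, z ∈ Gam P → z ∈ sideOf P.vertex b ∨ z ∈ sideOf P.vertex r := by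
    intro z hz hzG
    obtain ⟨i, hi⟩ := mem_Gam_iff.1 hzG
    by_cases h1 : i = b
    · subst h1; exact Or.inl hi
    · by_cases h2 : i = r
      · subst h2; exact Or.inr hi
      · exact absurd hi (hρi i h1 h2 z (ball_subset_ball (hs1.trans (hi₀ i)) hz))
  -- values of the two functionals on the sides
  have eb1 : ∀ l : ℝ, (qb * conj (v + l * qb - v)).im = 0 := by
    intro l; rw [add_sub_cancel_left, cross_self]
  have eb2 : ∀ l : ℝ, (qr * conj (v + l * qb - v)).im = -l * (qb * conj qr).im := by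
    intro l; rw [add_sub_cancel_left, cross_mul_right, cross_swap]; ring
  have er1 : ∀ l : ℝ, (qb * conj (v + l * qr - v)).im = l * (qb * conj qr).im := by
    intro l; rw [add_sub_cancel_left, cross_mul_right]
  have er2 : ∀ l : ℝ, (qr * conj (v + l * qr - v)).im = 0 := by
    intro l; rw [add_sub_cancel_left, cross_self]
  set S₁ : Set ℂ := {z | z ∈ ball v s ∧ 0 < (-1 : ℝ) * (qb * conj (z - v)).im} with hS₁
  set S₂ : Set ℂ := {z | z ∈ ball v s ∧ 0 < (1 : ℝ) * (qr * conj (z - v)).im} with hS₂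
  have hS₁G : ∀ z ∈ S₁, z ∉ Gam P := by
    rintro z ⟨hz, hz2⟩ hzG
    rcases hG z hz hzG with h | h
    · obtain ⟨l, h0, _, rfl⟩ := (hsb z).1 h
      rw [eb1] at hz2; simp at hz2
    · obtain ⟨l, h0, _, rfl⟩ := (hsr z).1 h
      rw [er1] at hz2
      have := mul_nonneg h0 hcross.le
      linarith
  have hS₂G : ∀ z ∈ S₂, z ∉ Gam P := by
    rintro z ⟨hz, hz2⟩ hzG
    rcases hG z hz hzG with h | h
    · obtain ⟨l, h0, _, rfl⟩ := (hsb z).1 h
      rw [eb2] at hz2
      have := mul_nonneg h0 hcross.le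
      linarith
    · obtain ⟨l, h0, _, rfl⟩ := (hsr z).1 h
      rw [er2] at hz2; simp at hz2
  -- common point of S₁ and S₂
  obtain ⟨ε, hε, hε1⟩ : ∃ ε > 0, ε * ‖qb + qr‖ < s := by
    refine ⟨s / (2 * (‖qb + qr‖ + 1)), by positivity, ?_⟩
    rw [div_mul_eq_mul_div, div_lt_iff₀ (by positivity)]
    nlinarith [norm_nonneg (qb + qr)]
  have hcommon : v - (ε : ℂ) * (qb + qr) ∈ S₁ ∧ v - (ε : ℂ) * (qb + qr) ∈ S₂ := by
    have hball : v - (ε : ℂ) * (qb + qr) ∈ ball v s := by
      rw [mem_ball, dist_eq_norm, sub_sub_cancel_left, norm_neg, norm_mul, Complex.norm_real,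
        Real.norm_eq_abs, abs_of_pos hε]
      exact hε1
    have e1 : v - (ε : ℂ) * (qb + qr) - v = ((-ε : ℝ) : ℂ) * (qb + qr) := by push_cast; ring
    refine ⟨⟨hball, ?_⟩, ⟨hball, ?_⟩⟩
    · rw [e1, cross_mul_right]
      have : (qb * conj (qb + qr)).im = (qb * conj qr).im := by
        have h0 := cross_self qb 1
        simp only [Complex.ofReal_one, one_mul] at h0
        rw [map_add, mul_add, Complex.add_im, h0, zero_add]
      rw [this]
      have := mul_pos hε hcross
      linarith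
    · rw [e1, cross_mul_right]
      have : (qr * conj (qb + qr)).im = -(qb * conj qr).im := by
        have h0 := cross_self qr 1
        simp only [Complex.ofReal_one, one_mul] at h0
        rw [map_add, mul_add, Complex.add_im, h0, add_zero, cross_swap]
      rw [this]
      have := mul_pos hε hcross
      linarith
  -- an outer point
  have hout : ∃ z, (z ∈ S₁ ∨ z ∈ S₂) ∧ z ∉ P.region := by
    refine ⟨v - ((s / 2 : ℝ) : ℂ), ?_, ?_⟩
    · have hball : v - ((s / 2 : ℝ) : ℂ) ∈ ball v s := by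
        rw [mem_ball, dist_eq_norm, sub_sub_cancel_left, norm_neg, Complex.norm_real,
          Real.norm_eq_abs, abs_of_pos (by linarith)]
        linarith
      have e1 : ∀ q : ℂ, (q * conj (v - ((s / 2 : ℝ) : ℂ) - v)).im = -(s / 2) * q.im := by
        intro q
        rw [sub_sub_cancel_left, map_neg, Complex.conj_ofReal, mul_neg, Complex.neg_im,
          mul_comm, Complex.im_ofReal_mul]; ring
      by_cases hcase : 0 < qb.im
      · left
        refine ⟨hball, ?_⟩
        rw [e1]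
        have := mul_pos hs hcase
        linarith
      · right
        refine ⟨hball, ?_⟩
        rw [e1]
        push Not at hcase
        have hc : qb.im * qr.re - qb.re * qr.im > 0 := by
          have : (qb * conj qr).im = qb.im * qr.re - qb.re * qr.im := by
            simp [Complex.mul_im]; ring
          rw [← this]; exact hcross
        have h5 : qb.im * qr.re ≤ 0 := mul_nonpos_of_nonpos_of_nonneg hcase hrre
        have h6 : qr.im < 0 := by
          by_contra h7
          push Not at h7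
          have := mul_nonneg hbre h7
          linarith
        have := mul_pos hs (neg_pos.2 h6)
        linarith
    · intro h
      have := hre _ h
      simp only [Complex.sub_re, Complex.ofReal_re] at this
      linarith
  have hU1 : ∀ z ∈ S₁, z ∉ U P := by
    intro z hz hzU
    have h1 := subset_U (P := P) (convex_cross qb v (-1) s).isPreconnected hS₁G ⟨z, hz, hzU⟩
    have h2 := subset_U (P := P) (convex_cross qr v 1 s).isPreconnected hS₂G
      ⟨_, hcommon.2, h1 hcommon.1⟩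
    obtain ⟨y, hy, hyR⟩ := hout
    rcases hy with hy | hy
    · exact hyR (interior_subset (h1 hy))
    · exact hyR (interior_subset (h2 hy))
  have hU2 : ∀ z ∈ S₂, z ∉ U P := by
    intro z hz hzU
    have h2 := subset_U (P := P) (convex_cross qr v 1 s).isPreconnected hS₂G ⟨z, hz, hzU⟩
    exact hU1 _ hcommon.1 (h2 hcommon.2)
  have hin : ∀ z ∈ ball v s, z ∈ U P →
      0 < (qb * conj (z - v)).im ∧ 0 < ((z - v) * conj qr).im := by
    intro z hz hzU
    have h1 : 0 ≤ (qb * conj (z - v)).im := by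
      by_contra h
      push Not at h
      exact hU1 z ⟨hz, by linarith⟩ hzU
    have h2 : 0 ≤ ((z - v) * conj qr).im := by
      by_contra h
      push Not at h
      refine hU2 z ⟨hz, ?_⟩ hzU
      rw [cross_swap]; linarith
    refine ⟨lt_of_le_of_ne h1 ?_, lt_of_le_of_ne h2 ?_⟩
    · intro h3
      obtain ⟨l, hl⟩ := parallel_of_cross hqb h3.symm
      have hl0 : 0 ≤ l := by
        rw [hl, cross_mul_left] at h2
        by_contra hneg
        push Not at hneg
        have := mul_neg_of_neg_of_pos hneg hcross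
        linarith
      have hl1 : l ≤ 1 := by
        rw [mem_ball, dist_eq_norm, hl, norm_mul, Complex.norm_real, Real.norm_eq_abs,
          abs_of_nonneg hl0] at hz
        by_contra hh
        push Not at hh
        have : ‖qb‖ ≤ l * ‖qb‖ := le_mul_of_one_le_left (norm_nonneg _) hh.le
        linarith
      have hside : z ∈ sideOf P.vertex b := (hsb z).2 ⟨l, hl0, hl1, by rw [← hl]; ring⟩
      exact not_mem_U_of_Gam (mem_Gam_iff.2 ⟨b, hside⟩) hzU
    · intro h3
      have h3' : (qr * conj (z - v)).im = 0 := by rw [cross_swap, ← h3, neg_zero]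
      obtain ⟨l, hl⟩ := parallel_of_cross hqr h3'
      have hl0 : 0 ≤ l := by
        rw [hl, cross_mul_right] at h1
        by_contra hneg
        push Not at hneg
        have := mul_neg_of_neg_of_pos hneg hcross
        linarith
      have hl1 : l ≤ 1 := by
        rw [mem_ball, dist_eq_norm, hl, norm_mul, Complex.norm_real, Real.norm_eq_abs,
          abs_of_nonneg hl0] at hz
        by_contra hh
        push Not at hh
        have : ‖qr‖ ≤ l * ‖qr‖ := le_mul_of_one_le_left (norm_nonneg _) hh.le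
        linarith
      have hside : z ∈ sideOf P.vertex r := (hsr z).2 ⟨l, hl0, hl1, by rw [← hl]; ring⟩
      exact not_mem_U_of_Gam (mem_Gam_iff.2 ⟨r, hside⟩) hzU
  refine ⟨⟨j, b, r, qb, qr, s, hbr, hb, hr, hcross, hs, fun z hz => ⟨hin z hz, fun h => ?_⟩⟩, rfl⟩
  -- the sector is inside
  set S : Set ℂ := {z | z ∈ ball v s ∧ 0 < (1 : ℝ) * (qb * conj (z - v)).im} ∩
    {z | z ∈ ball v s ∧ 0 < (-1 : ℝ) * (qr * conj (z - v)).im} with hS
  have hSconv : Convex ℝ S := (convex_cross qb v 1 s).inter (convex_cross qr v (-1) s)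
  have hSG : ∀ z ∈ S, z ∉ Gam P := by
    rintro z ⟨⟨hz, hz1⟩, ⟨_, hz2⟩⟩ hzG
    rcases hG z hz hzG with h | h
    · obtain ⟨l, h0, _, rfl⟩ := (hsb z).1 h
      rw [eb1] at hz1; simp at hz1
    · obtain ⟨l, h0, _, rfl⟩ := (hsr z).1 h
      rw [er2] at hz2; simp at hz2
  have hmem : v ∈ closure (U P) := by
    rw [closure_U]; exact Gam_subset (vertex_mem_Gam j)
  obtain ⟨y, hyU, hy⟩ := Metric.mem_closure_iff.1 hmem s hs
  have hyb : y ∈ ball v s := by rw [mem_ball, dist_comm]; exact hy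
  have hyS : y ∈ S := by
    obtain ⟨h1, h2⟩ := hin y hyb hyU
    refine ⟨⟨hyb, by linarith⟩, ⟨hyb, ?_⟩⟩
    rw [cross_swap]; linarith
  apply subset_U (P := P) hSconv.isPreconnected hSG ⟨y, hyS, hyU⟩
  refine ⟨⟨hz, by linarith [h.1]⟩, ⟨hz, ?_⟩⟩
  rw [cross_swap]; linarith [h.2]

/-- Every polygon has a convex corner. -/
theorem exists_corner (P : Polygon) : Nonempty (Corner P) := by
  -- the lexicographically smallest vertex
  obtain ⟨m, hm⟩ := Finite.exists_min fun j : ZMod P.k => (P.vertex j).re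
  obtain ⟨j, hj1, hj2⟩ : ∃ j : ZMod P.k, (∀ i, (P.vertex j).re ≤ (P.vertex i).re) ∧
      ∀ i, (P.vertex i).re = (P.vertex j).re → (P.vertex j).im ≤ (P.vertex i).im := by
    have : Finite {i : ZMod P.k // (P.vertex i).re = (P.vertex m).re} := inferInstance
    have : Nonempty {i : ZMod P.k // (P.vertex i).re = (P.vertex m).re} := ⟨⟨m, rfl⟩⟩
    obtain ⟨j, hj⟩ := Finite.exists_min
      fun i : {i : ZMod P.k // (P.vertex i).re = (P.vertex m).re} => (P.vertex i.1).im
    refine ⟨j.1, fun i => ?_, fun i hi => ?_⟩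
    · rw [j.2]; exact hm i
    · exact hj ⟨i, hi.trans j.2⟩
  obtain ⟨i, rfl⟩ : ∃ i, j = i + 1 := ⟨j - 1, by ring⟩
  set v := P.vertex (i + 1) with hv
  set q₁ := dir P (i + 1) with hq₁
  set q₂ := -dir P i with hq₂
  have e1 : P.vertex (i + 1 + 1) = v + q₁ := by rw [hq₁, dir, hv]; ring
  have e2 : P.vertex i = v + q₂ := by rw [hq₂, dir, hv]; ring
  have hre1 : 0 ≤ q₁.re := by
    have := hj1 (i + 1 + 1)
    rw [e1, Complex.add_re] at this; linarith
  have hre2 : 0 ≤ q₂.re := by
    have := hj1 i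
    rw [e2, Complex.add_re] at this; linarith
  have him1 : q₁.re = 0 → 0 ≤ q₁.im := by
    intro h
    have := hj2 (i + 1 + 1) (by rw [e1, Complex.add_re, h, add_zero])
    rw [e1, Complex.add_im] at this; linarith
  have him2 : q₂.re = 0 → 0 ≤ q₂.im := by
    intro h
    have := hj2 i (by rw [e2, Complex.add_re, h, add_zero])
    rw [e2, Complex.add_im] at this; linarith
  have hq₁0 : q₁ ≠ 0 := dir_ne _
  have hq₂0 : q₂ ≠ 0 := neg_ne_zero.2 (dir_ne _)
  have hside1 : ∀ z, z ∈ sideOf P.vertex (i + 1) ↔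
      ∃ l : ℝ, 0 ≤ l ∧ l ≤ 1 ∧ z = v + l * q₁ := fun z => mem_side_iff
  have hside2 : ∀ z, z ∈ sideOf P.vertex i ↔
      ∃ l : ℝ, 0 ≤ l ∧ l ≤ 1 ∧ z = v + l * q₂ := by
    intro z
    rw [mem_side_iff]
    constructor
    · rintro ⟨l, h0, h1, rfl⟩
      refine ⟨1 - l, by linarith, by linarith, ?_⟩
      rw [e2, hq₂]; push_cast; ring
    · rintro ⟨l, h0, h1, rfl⟩
      refine ⟨1 - l, by linarith, by linarith, ?_⟩
      rw [e2, hq₂]; push_cast; ring
  have hrel1 : ∀ l : ℝ, 0 < l → l < 1 → v + l * q₁ ∈ rel P (i + 1) := fun l h0 h1 =>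
    mem_rel_iff.2 ⟨l, h0, h1, rfl⟩
  have hrel2 : ∀ l : ℝ, 0 < l → l < 1 → v + l * q₂ ∈ rel P i := fun l h0 h1 =>
    mem_rel_iff.2 ⟨1 - l, by linarith, by linarith, by rw [e2, hq₂]; push_cast; ring⟩
  have hoth : ∀ k, k ≠ i + 1 → k ≠ i → v ∉ sideOf P.vertex k := by
    intro k h1 h2 hk
    by_cases h3 : k = i + 1 + 1
    · subst h3
      have : v ∈ sideOf P.vertex (i + 1) ∩ sideOf P.vertex (i + 1 + 1) := ⟨vertex_mem_side _, hk⟩
      rw [P.inter_next] at this
      exact succ_ne (i + 1) (P.injective (mem_singleton_iff.1 this)).symm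
    · by_cases h4 : i + 1 = k + 1
      · exact h2 (add_right_cancel h4).symm
      · have : v ∈ sideOf P.vertex (i + 1) ∩ sideOf P.vertex k := ⟨vertex_mem_side _, hk⟩
        rw [P.inter_other (i + 1) k h1 h3 h4] at this
        exact this
  have hregion : ∀ z ∈ P.region, v.re ≤ z.re := by
    obtain ⟨y, hy, hymin⟩ := P.isCompact.exists_isMinOn
      ⟨v, Gam_subset (vertex_mem_Gam (i + 1))⟩ Complex.continuous_re.continuousOn
    intro z hz
    have h1 : y.re ≤ z.re := hymin hz
    have hyG : y ∈ Gam P := by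
      rw [Gam_eq]
      refine ⟨hy, fun hyU => ?_⟩
      obtain ⟨ε, hε, hb⟩ := Metric.isOpen_iff.1 (isOpen_U (P := P)) y hyU
      have h2 : y - ((ε / 2 : ℝ) : ℂ) ∈ ball y ε := by
        rw [mem_ball, dist_eq_norm, sub_sub_cancel_left, norm_neg, Complex.norm_real,
          Real.norm_eq_abs, abs_of_pos (by linarith)]
        linarith
      have h3 : y.re ≤ (y - ((ε / 2 : ℝ) : ℂ)).re := hymin (interior_subset (hb h2))
      simp only [Complex.sub_re, Complex.ofReal_re] at h3
      linarith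
    obtain ⟨k, hk⟩ := mem_Gam_iff.1 hyG
    obtain ⟨l, h0, h2, rfl⟩ := mem_side_iff.1 hk
    have h3 := hj1 k
    have h4 := hj1 (k + 1)
    have h5 : (P.vertex k + l * dir P k).re =
        (1 - l) * (P.vertex k).re + l * (P.vertex (k + 1)).re := by
      rw [dir, Complex.add_re, Complex.re_ofReal_mul, Complex.sub_re]; ring
    rw [h5] at h1
    nlinarith
  have hcross0 : (q₁ * conj q₂).im ≠ 0 := by
    intro h
    obtain ⟨l, hl⟩ := parallel_of_cross hq₁0 h
    have hl0 : l ≠ 0 := by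
      rintro rfl
      exact hq₂0 (by rw [hl]; simp)
    have hlre : q₂.re = l * q₁.re := by rw [hl, Complex.re_ofReal_mul]
    have hlim : q₂.im = l * q₁.im := by rw [hl, Complex.im_ofReal_mul]
    have hlpos : 0 < l := by
      by_contra hneg
      have hneg : l < 0 := lt_of_le_of_ne (not_lt.1 hneg) hl0
      have h1 : q₁.re = 0 := by
        by_contra h2
        have h3 : 0 < q₁.re := lt_of_le_of_ne hre1 (Ne.symm h2)
        have := mul_neg_of_neg_of_pos hneg h3
        linarith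
      have h2 : q₂.re = 0 := by rw [hlre, h1, mul_zero]
      have h3 := him1 h1
      have h4 := him2 h2
      have h5 : q₁.im ≠ 0 := fun h6 => hq₁0 (Complex.ext h1 h6)
      have h6 : 0 < q₁.im := lt_of_le_of_ne h3 (Ne.symm h5)
      have := mul_neg_of_neg_of_pos hneg h6
      linarith
    -- the two sides overlap
    set s := min 1 (1 / l) with hs
    have hs0 : 0 < s := lt_min one_pos (by positivity)
    have hs1 : s ≤ 1 := min_le_left _ _
    have hs2 : s * l ≤ 1 := by
      have : s ≤ 1 / l := min_le_right _ _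
      calc s * l ≤ 1 / l * l := mul_le_mul_of_nonneg_right this hlpos.le
        _ = 1 := by field_simp
    have hm1 : v + ((s * l : ℝ) : ℂ) * q₁ ∈ sideOf P.vertex (i + 1) :=
      (hside1 _).2 ⟨s * l, by positivity, hs2, rfl⟩
    have hm2 : v + ((s * l : ℝ) : ℂ) * q₁ ∈ sideOf P.vertex i :=
      (hside2 _).2 ⟨s, hs0.le, hs1, by rw [hl]; push_cast; ring⟩
    have hmem : v + ((s * l : ℝ) : ℂ) * q₁ ∈ sideOf P.vertex i ∩ sideOf P.vertex (i + 1) :=
      ⟨hm2, hm1⟩
    rw [P.inter_next] at hmem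
    have h7 := mem_singleton_iff.1 hmem
    have h8 : ((s * l : ℝ) : ℂ) * q₁ = 0 := by linear_combination h7
    rcases mul_eq_zero.1 h8 with h9 | h9
    · have : s * l = 0 := by exact_mod_cast h9
      rcases mul_eq_zero.1 this with h | h
      · exact hs0.ne' h
      · exact hl0 h
    · exact hq₁0 h9
  rcases lt_or_gt_of_ne hcross0 with h | h
  · -- q₂ is on the left
    have hc : 0 < (q₂ * conj q₁).im := by rw [cross_swap]; linarith
    obtain ⟨C, _⟩ := corner_aux (fun e => succ_ne i e.symm) hside2 hside1 hrel2 hrel1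
      (fun k h1 h2 => hoth k h2 h1) hc hre2 hre1 hregion
    exact ⟨C⟩
  · obtain ⟨C, _⟩ := corner_aux (succ_ne i) hside1 hside2 hrel1 hrel2 hoth h hre1 hre2 hregion
    exact ⟨C⟩

end Pool.Agent.Lib_helper45.Bil
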