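import Mathlib

/-!
# Numerical consequences of the main estimate
-/

open Finset

namespace Pool.Agent.Lib_helper45.Bil

/-- The numerical data: `g m` diagonals with `m` bounces, complexity `F`. -/
structure Data (g F : ℕ → ℝ) (c : ℝ) (n₀ : ℕ) : Prop where
  hg : ∀ m, 0 ≤ g m
  hF1 : ∀ n, 1 ≤ F n
  hF : ∀ n, F n + (∑ m ∈ range n, g m) / 2 ≤ F (n + 1)
  hc : 0 < c
  hS : ∀ n ≥ n₀, c * n ≤ ∑ m ∈ range n, g m / (m + 1)

variable {g F : ℕ → ℝ} {c : ℝ} {n₀ : ℕ}

theorem Data.G_nonneg (h : Data g F c n₀) (n : ℕ) : 0 ≤ ∑ m ∈ range n, g m :=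
  Finset.sum_nonneg fun m _ => h.hg m

theorem Data.G_mono (h : Data g F c n₀) {n n' : ℕ} (hn : n ≤ n') :
    ∑ m ∈ range n, g m ≤ ∑ m ∈ range n', g m :=
  Finset.sum_le_sum_of_subset_of_nonneg (Finset.range_mono hn) fun m _ _ => h.hg m

theorem Data.S_mono (h : Data g F c n₀) {n n' : ℕ} (hn : n ≤ n') :
    ∑ m ∈ range n, g m / (m + 1) ≤ ∑ m ∈ range n', g m / ((m : ℝ) + 1) :=
  Finset.sum_le_sum_of_subset_of_nonneg (Finset.range_mono hn) fun m _ _ =>
    div_nonneg (h.hg m) (by positivity)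

theorem Data.F_mono (h : Data g F c n₀) : Monotone F := by
  apply monotone_nat_of_le_succ
  intro n
  have := h.hF n
  have := h.G_nonneg n
  linarith

theorem Data.F_step (h : Data g F c n₀) (n j : ℕ) :
    F n + j * (∑ m ∈ range n, g m) / 2 ≤ F (n + j) := by
  induction j with
  | zero => simp
  | succ j ih =>
    have h1 := h.hF (n + j)
    have h2 := h.G_mono (Nat.le_add_right n j)
    push_cast
    rw [← Nat.add_assoc]
    linarith

theorem Data.F_double (h : Data g F c n₀) (n : ℕ) : n * (∑ m ∈ range n, g m) / 2 ≤ F (2 * n) := by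
  have h1 := h.F_step n n
  have h2 := h.hF1 n
  rw [← two_mul] at h1
  linarith

/-- Summation by parts. -/
theorem abel (g : ℕ → ℝ) (N : ℕ) : ∑ m ∈ range N, g m / ((m : ℝ) + 1) =
    ∑ n ∈ range N, (∑ m ∈ range (n + 1), g m) / (((n : ℝ) + 1) * (n + 2)) +
      (∑ m ∈ range N, g m) / (N + 1) := by
  induction N with
  | zero => simp
  | succ N ih =>
    rw [Finset.sum_range_succ, ih, Finset.sum_range_succ _ N, Finset.sum_range_succ g N]
    push_cast
    have h1 : (N : ℝ) + 1 ≠ 0 := by positivity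
    have h2 : (N : ℝ) + 2 ≠ 0 := by positivity
    have h3 : (N : ℝ) + 1 + 1 ≠ 0 := by positivity
    field_simp
    ring

theorem Data.T_step (h : Data g F c n₀) (N j : ℕ) :
    ∑ n ∈ range N, (∑ m ∈ range (n + 1), g m) / (((n : ℝ) + 1) * (n + 2)) +
      (∑ m ∈ range N, g m) * (1 / (N + 1) - 1 / (N + j + 1)) ≤
    ∑ n ∈ range (N + j), (∑ m ∈ range (n + 1), g m) / (((n : ℝ) + 1) * (n + 2)) := by
  induction j with
  | zero => simp
  | succ j ih =>
    rw [← Nat.add_assoc, Finset.sum_range_succ _ (N + j)]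
    have h2 := h.G_mono (show N ≤ N + j + 1 by omega)
    have h3 : (∑ m ∈ range N, g m) / ((((N + j : ℕ) : ℝ) + 1) * (((N + j : ℕ) : ℝ) + 2)) ≤
        (∑ m ∈ range (N + j + 1), g m) / ((((N + j : ℕ) : ℝ) + 1) * (((N + j : ℕ) : ℝ) + 2)) := by
      gcongr
    have h4 : (∑ m ∈ range N, g m) * (1 / ((N : ℝ) + 1) - 1 / (N + (j + 1 : ℕ) + 1)) =
        (∑ m ∈ range N, g m) * (1 / ((N : ℝ) + 1) - 1 / (N + j + 1)) +
        (∑ m ∈ range N, g m) / ((((N + j : ℕ) : ℝ) + 1) * (((N + j : ℕ) : ℝ) + 2)) := by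
      push_cast
      have h5 : (N : ℝ) + j + 1 ≠ 0 := by positivity
      have h6 : (N : ℝ) + (j + 1) + 1 ≠ 0 := by positivity
      have h7 : (N : ℝ) + j + 2 ≠ 0 := by positivity
      have h8 : (N : ℝ) + 1 ≠ 0 := by positivity
      field_simp
      ring
    rw [h4]
    linarith

/-- Cubic growth on average. -/
theorem Data.average (h : Data g F c n₀) :
    ∃ c' > 0, ∀ N : ℕ, 1 ≤ N → c' * N ≤ ∑ n ∈ Icc 1 N, F n / (n : ℝ) ^ 3 := by
  have hc := h.hc
  -- the main inequality for large `N`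
  have key : ∀ N : ℕ, n₀ ≤ N → 1 ≤ N → c / 48 * N ≤ ∑ n ∈ Icc 1 (4 * N), F n / (n : ℝ) ^ 3 := by
    intro N hN hN1
    have h1 := h.hS N hN
    rw [abel] at h1
    have h2 := h.T_step N N
    set T1 := ∑ n ∈ range N, (∑ m ∈ range (n + 1), g m) / (((n : ℝ) + 1) * (n + 2)) with hT1
    set T2 := ∑ n ∈ range (N + N), (∑ m ∈ range (n + 1), g m) / (((n : ℝ) + 1) * (n + 2)) with hT2
    have hT1p : 0 ≤ T1 := Finset.sum_nonneg fun n _ => div_nonneg (h.G_nonneg _) (by positivity)
    have hNr : (1 : ℝ) ≤ N := by exact_mod_cast hN1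
    have h3 : (∑ m ∈ range N, g m) / (N + 1) ≤
        3 * ((∑ m ∈ range N, g m) * (1 / ((N : ℝ) + 1) - 1 / (N + N + 1))) := by
      have e : 3 * ((∑ m ∈ range N, g m) * (1 / ((N : ℝ) + 1) - 1 / (N + N + 1))) =
          (∑ m ∈ range N, g m) / (N + 1) * (3 * N / (N + N + 1)) := by
        field_simp
        ring
      rw [e]
      apply le_mul_of_one_le_right (div_nonneg (h.G_nonneg _) (by positivity))
      rw [one_le_div (by positivity)]
      linarith
    have h4 : c * N ≤ 3 * T2 := by linarith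
    -- compare with the sum over even indices
    have h5 : T2 / 16 ≤ ∑ n ∈ range (N + N), F (2 * (n + 1)) / ((2 * (n + 1) : ℕ) : ℝ) ^ 3 := by
      rw [hT2, Finset.sum_div]
      apply Finset.sum_le_sum
      intro n _
      have h6 := h.F_double (n + 1)
      have h7 : 0 ≤ ∑ m ∈ range (n + 1), g m := h.G_nonneg _
      set G := ∑ m ∈ range (n + 1), g m
      push_cast at h6 ⊢
      have h8 : G / (((n : ℝ) + 1) * (n + 2)) / 16 ≤ (((n : ℝ) + 1) * G / 2) / (2 * (n + 1)) ^ 3 := by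
        have e : (((n : ℝ) + 1) * G / 2) / (2 * (n + 1)) ^ 3 = G / (((n : ℝ) + 1) * (n + 1)) / 16 := by
          field_simp
          ring
        rw [e]
        gcongr
        linarith
      exact h8.trans (by gcongr)
    have h6 : ∑ n ∈ range (N + N), F (2 * (n + 1)) / ((2 * (n + 1) : ℕ) : ℝ) ^ 3 ≤
        ∑ n ∈ Icc 1 (4 * N), F n / (n : ℝ) ^ 3 := by
      have e : ∑ n ∈ range (N + N), F (2 * (n + 1)) / ((2 * (n + 1) : ℕ) : ℝ) ^ 3 =
          ∑ m ∈ (range (N + N)).image (fun n => 2 * (n + 1)), F m / (m : ℝ) ^ 3 := by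
        rw [Finset.sum_image]
        intro a _ b _ hab
        simpa using hab
      rw [e]
      apply Finset.sum_le_sum_of_subset_of_nonneg
      · intro m hm
        rw [Finset.mem_image] at hm
        obtain ⟨n, hn, rfl⟩ := hm
        rw [Finset.mem_range] at hn
        rw [Finset.mem_Icc]
        omega
      · intro m _ _
        have := h.hF1 m
        positivity
    linarith
  set M : ℕ := 4 * (n₀ + 1) with hM
  have hMr : (0 : ℝ) < M := by
    have : 0 < M := by omega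
    exact_mod_cast this
  refine ⟨min (c / 384) (1 / M), by positivity, fun N hN => ?_⟩
  by_cases hNM : N ≤ M
  · have h1 : (1 : ℝ) ≤ ∑ n ∈ Icc 1 N, F n / (n : ℝ) ^ 3 := by
      calc (1 : ℝ) ≤ F 1 / ((1 : ℕ) : ℝ) ^ 3 := by simpa using h.hF1 1
        _ ≤ _ := by
          apply Finset.single_le_sum (f := fun n : ℕ => F n / (n : ℝ) ^ 3)
          · intro n _
            have := h.hF1 n
            positivity
          · rw [Finset.mem_Icc]; omega
    have h2 : (N : ℝ) ≤ M := by exact_mod_cast hNM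
    calc min (c / 384) (1 / M) * N ≤ 1 / M * M := by
          apply mul_le_mul (min_le_right _ _) h2 (Nat.cast_nonneg _) (by positivity)
      _ = 1 := by field_simp
      _ ≤ _ := h1
  · push Not at hNM
    set K := N / 4 with hK
    have hK1 : n₀ ≤ K := by omega
    have hK2 : 1 ≤ K := by omega
    have h1 := key K hK1 hK2
    have h2 : ∑ n ∈ Icc 1 (4 * K), F n / (n : ℝ) ^ 3 ≤ ∑ n ∈ Icc 1 N, F n / (n : ℝ) ^ 3 := by
      apply Finset.sum_le_sum_of_subset_of_nonneg
      · apply Finset.Icc_subset_Icc_right; omega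
      · intro m _ _
        have := h.hF1 m
        positivity
    have h3 : (N : ℝ) ≤ 8 * K := by
      have : N ≤ 8 * K := by omega
      exact_mod_cast this
    calc min (c / 384) (1 / M) * N ≤ c / 384 * (8 * K) := by
          apply mul_le_mul (min_le_left _ _) h3 (Nat.cast_nonneg _) (by positivity)
      _ = c / 48 * K := by ring
      _ ≤ _ := h1.trans h2

/-- If few diagonals are short then there are many diagonals. -/
theorem Data.gain (h : Data g F c n₀) {n J : ℕ} (hn : n₀ ≤ n) (hn1 : 1 ≤ n)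
    (hJ : ∑ m ∈ range J, g m / ((m : ℝ) + 1) ≤ c * n / 2) :
    ((J : ℝ) + 1) * (c * n / 2) ≤ ∑ m ∈ range n, g m := by
  have hc := h.hc
  have hnr : (1 : ℝ) ≤ n := by exact_mod_cast hn1
  have hS := h.hS n hn
  have hJn : J ≤ n := by
    by_contra hlt
    push Not at hlt
    have := h.S_mono hlt.le
    nlinarith
  have h1 : ∑ m ∈ range n, g m / ((m : ℝ) + 1) = ∑ m ∈ range J, g m / ((m : ℝ) + 1) +
      ∑ m ∈ Ico J n, g m / ((m : ℝ) + 1) := by
    rw [Finset.sum_range_add_sum_Ico _ hJn]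
  have h2 : ∑ m ∈ Ico J n, g m / ((m : ℝ) + 1) ≤ (∑ m ∈ range n, g m) / (J + 1) := by
    rw [Finset.sum_div]
    calc ∑ m ∈ Ico J n, g m / ((m : ℝ) + 1) ≤ ∑ m ∈ Ico J n, g m / ((J : ℝ) + 1) := by
          apply Finset.sum_le_sum
          intro m hm
          rw [Finset.mem_Ico] at hm
          have : (J : ℝ) ≤ m := by exact_mod_cast hm.1
          have := h.hg m
          gcongr
      _ ≤ _ := by
          apply Finset.sum_le_sum_of_subset_of_nonneg
          · intro m hm
            rw [Finset.mem_Ico] at hm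
            exact Finset.mem_range.2 hm.2
          · intro m _ _
            exact div_nonneg (h.hg m) (by positivity)
  have h3 : c * n / 2 ≤ (∑ m ∈ range n, g m) / (J + 1) := by linarith
  rw [le_div_iff₀ (by positivity)] at h3
  linarith

theorem Data.gainF (h : Data g F c n₀) {n J : ℕ} (hn : n₀ ≤ n) (hn1 : 1 ≤ n)
    (hJ : ∑ m ∈ range J, g m / ((m : ℝ) + 1) ≤ c * n / 2) :
    c / 4 * n ^ 2 * ((J : ℝ) + 1) ≤ F (2 * n) := by
  have h1 := h.gain hn hn1 hJ
  have h2 := h.F_double n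
  have hnr : (0 : ℝ) ≤ n := Nat.cast_nonneg _
  have h3 : n * (((J : ℝ) + 1) * (c * n / 2)) ≤ n * ∑ m ∈ range n, g m :=
    mul_le_mul_of_nonneg_left h1 hnr
  have h4 : n * (((J : ℝ) + 1) * (c * n / 2)) / 2 = c / 4 * n ^ 2 * ((J : ℝ) + 1) := by ring
  linarith

end Pool.Agent.Lib_helper45.Bil
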