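import Pool.Agent.Lib_helper45.Bil.Count

/-!
# Numerical consequences of the main estimate, continued
-/

open Finset

namespace Pool.Agent.Lib_helper45.Bil

variable {g F : ℕ → ℝ} {c : ℝ} {n₀ : ℕ}

theorem geom_aux {a : ℝ} (ha : 2 ≤ a) (J : ℕ) : ∑ m ∈ range J, a ^ (m + 1) ≤ a ^ (J + 1) := by
  induction J with
  | zero => simp; linarith
  | succ J ih =>
    rw [Finset.sum_range_succ]
    have h1 : 0 ≤ a ^ (J + 1) := by positivity
    have h2 : a ^ (J + 1 + 1) = a * a ^ (J + 1) := by ring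
    rw [h2]
    nlinarith

/-- Growth `n² log n`. -/
theorem Data.log (h : Data g F c n₀) {a : ℝ} (ha : 2 ≤ a) (hk : ∀ m, g m ≤ a ^ (m + 1)) :
    ∃ c' > 0, ∀ n : ℕ, 1 ≤ n → c' * ((n : ℝ) ^ 2 * Real.log n) ≤ F n := by
  have hc := h.hc
  have hla : 0 < Real.log a := Real.log_pos (by linarith)
  set M : ℕ := 2 * (n₀ + ⌈16 / c ^ 2⌉₊ + ⌈2 * a / c⌉₊ + 1) with hM
  have hM1 : 1 ≤ M := by omega
  have hMr : (1 : ℝ) ≤ M := by exact_mod_cast hM1
  refine ⟨min (c / (256 * Real.log a)) (1 / (M : ℝ) ^ 3), by positivity, fun n hn => ?_⟩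
  have hnr : (1 : ℝ) ≤ n := by exact_mod_cast hn
  have hln : 0 ≤ Real.log n := Real.log_nonneg hnr
  by_cases hnM : n < M
  · have h1 : Real.log n ≤ n := (Real.log_le_sub_one_of_pos (by linarith)).trans (by linarith)
    have h2 : (n : ℝ) ≤ M := by exact_mod_cast hnM.le
    calc min (c / (256 * Real.log a)) (1 / (M : ℝ) ^ 3) * ((n : ℝ) ^ 2 * Real.log n) ≤
        1 / (M : ℝ) ^ 3 * ((M : ℝ) ^ 2 * M) := by
          apply mul_le_mul (min_le_right _ _) _ (by positivity) (by positivity)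
          apply mul_le_mul _ (h1.trans h2) hln (by positivity)
          gcongr
      _ = 1 := by field_simp
      _ ≤ F n := h.hF1 n
  · push Not at hnM
    set N := n / 2 with hN
    have hN0 : n₀ ≤ N := by omega
    have hN1 : 1 ≤ N := by omega
    have hN2 : ⌈16 / c ^ 2⌉₊ ≤ N := by omega
    have hN3 : ⌈2 * a / c⌉₊ ≤ N := by omega
    have hNr : (1 : ℝ) ≤ N := by exact_mod_cast hN1
    have hN2r : 16 / c ^ 2 ≤ N := (Nat.le_ceil _).trans (by exact_mod_cast hN2)
    have hN3r : 2 * a / c ≤ N := (Nat.le_ceil _).trans (by exact_mod_cast hN3)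
    have hnN : (n : ℝ) ≤ 4 * N := by
      have : n ≤ 4 * N := by omega
      exact_mod_cast this
    rw [div_le_iff₀ (by positivity)] at hN2r
    rw [div_le_iff₀ hc] at hN3r
    set x : ℝ := c * N / 2 with hx
    have hxa : a ≤ x := by rw [hx]; linarith
    have hxp : 0 < x := by linarith
    have hlx : Real.log a ≤ Real.log x := Real.log_le_log (by linarith) hxa
    set q := ⌊Real.log x / Real.log a⌋₊ with hq
    have hq1 : 1 ≤ q := by
      rw [hq, Nat.one_le_floor_iff, one_le_div hla]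
      exact hlx
    have hqle : (q : ℝ) ≤ Real.log x / Real.log a :=
      Nat.floor_le (div_nonneg (hla.le.trans hlx) hla.le)
    have hqlt : Real.log x / Real.log a < q + 1 := Nat.lt_floor_add_one _
    obtain ⟨J, hJ⟩ : ∃ J, q = J + 1 := ⟨q - 1, by omega⟩
    have haq : a ^ q ≤ x := by
      rw [le_div_iff₀ hla] at hqle
      rw [← Real.log_le_log_iff (by positivity) hxp, Real.log_pow]
      exact hqle
    have hS : ∑ m ∈ range J, g m / ((m : ℝ) + 1) ≤ c * N / 2 := by
      calc ∑ m ∈ range J, g m / ((m : ℝ) + 1) ≤ ∑ m ∈ range J, a ^ (m + 1) := by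
            apply Finset.sum_le_sum
            intro m _
            rw [div_le_iff₀ (by positivity)]
            have h1 := hk m
            have h2 : 0 ≤ a ^ (m + 1) := by positivity
            have h3 : (0 : ℝ) ≤ m := Nat.cast_nonneg _
            nlinarith
        _ ≤ a ^ (J + 1) := geom_aux ha J
        _ = a ^ q := by rw [hJ]
        _ ≤ x := haq
    have h1 := h.gainF hN0 hN1 hS
    have h2 : Real.log n ≤ 2 * Real.log x := by
      have e : 2 * Real.log x = Real.log (x ^ 2) := by rw [Real.log_pow]; norm_num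
      rw [e]
      apply Real.log_le_log (by linarith)
      have e2 : x ^ 2 = c ^ 2 * N * N / 4 := by rw [hx]; ring
      rw [e2]
      nlinarith
    have h3 : Real.log n / (4 * Real.log a) ≤ (J : ℝ) + 1 := by
      have h4 : (q : ℝ) = J + 1 := by rw [hJ]; push_cast; ring
      have h5 : (1 : ℝ) ≤ q := by exact_mod_cast hq1
      rw [div_lt_iff₀ hla] at hqlt
      rw [div_le_iff₀ (by positivity)]
      rw [← h4]
      nlinarith
    have h4 : F (2 * N) ≤ F n := h.F_mono (by omega)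
    calc min (c / (256 * Real.log a)) (1 / (M : ℝ) ^ 3) * ((n : ℝ) ^ 2 * Real.log n) ≤
        c / (256 * Real.log a) * ((4 * N : ℝ) ^ 2 * Real.log n) := by
          apply mul_le_mul (min_le_left _ _) _ (by positivity) (by positivity)
          gcongr
      _ = c / 4 * N ^ 2 * (Real.log n / (4 * Real.log a)) := by
          field_simp; ring
      _ ≤ c / 4 * N ^ 2 * ((J : ℝ) + 1) := by gcongr
      _ ≤ F n := h1.trans h4

/-- Transfer from an upper bound to a lower bound. -/
theorem Data.transfer (h : Data g F c n₀) {d A : ℝ} (hd : 3 ≤ d)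
    (hA : ∀ n : ℕ, 1 ≤ n → F n ≤ A * (n : ℝ) ^ d) :
    ∃ c' > 0, ∀ n : ℕ, 1 ≤ n → c' * (n : ℝ) ^ (2 + 1 / (d - 2)) ≤ F n := by
  have hc := h.hc
  have hd2 : 0 < d - 2 := by linarith
  have hAp : 0 < A := by
    have h1 := hA 1 le_rfl
    have h2 := h.hF1 1
    rw [Nat.cast_one, Real.one_rpow, mul_one] at h1
    linarith
  set A' : ℝ := 2 ^ (d + 1) * A with hA'
  have hA'p : 0 < A' := by positivity
  have hG : ∀ n : ℕ, 1 ≤ n → ∑ m ∈ range n, g m ≤ A' * (n : ℝ) ^ (d - 1) := by
    intro n hn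
    have hnr : (0 : ℝ) < n := by exact_mod_cast hn
    have h1 := h.F_double n
    have h2 := hA (2 * n) (by omega)
    push_cast at h2
    rw [Real.mul_rpow (by norm_num) hnr.le] at h2
    have h3 : (n : ℝ) ^ d = n * (n : ℝ) ^ (d - 1) := by
      rw [← Real.rpow_one_add' hnr.le (by linarith)]
      congr 1; ring
    have h4 : (2 : ℝ) ^ (d + 1) = 2 * 2 ^ d := by
      rw [Real.rpow_add (by norm_num), Real.rpow_one]; ring
    rw [hA', h4]
    rw [h3] at h2
    have h5 : n * (∑ m ∈ range n, g m) ≤ n * (2 * 2 ^ d * A * (n : ℝ) ^ (d - 1)) := by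
      calc n * (∑ m ∈ range n, g m) = 2 * (n * (∑ m ∈ range n, g m) / 2) := by ring
        _ ≤ 2 * (A * (2 ^ d * (n * (n : ℝ) ^ (d - 1)))) := by linarith
        _ = _ := by ring
    exact le_of_mul_le_mul_left h5 hnr
  have hSJ : ∀ J : ℕ, 1 ≤ J → ∑ m ∈ range J, g m / ((m : ℝ) + 1) ≤ 2 * A' * (J : ℝ) ^ (d - 2) := by
    intro J hJ
    have hJr : (0 : ℝ) < J := by exact_mod_cast hJ
    rw [abel]
    have h1 : ∑ n ∈ range J, (∑ m ∈ range (n + 1), g m) / (((n : ℝ) + 1) * (n + 2)) ≤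
        A' * (J : ℝ) ^ (d - 2) := by
      calc ∑ n ∈ range J, (∑ m ∈ range (n + 1), g m) / (((n : ℝ) + 1) * (n + 2)) ≤
          ∑ n ∈ range J, A' * (J : ℝ) ^ (d - 3) := by
            apply Finset.sum_le_sum
            intro n hn
            rw [Finset.mem_range] at hn
            have h2 := hG (n + 1) (by omega)
            push_cast at h2
            have hn1 : (0 : ℝ) < (n : ℝ) + 1 := by positivity
            have h3 : ((n : ℝ) + 1) ^ (d - 1) = ((n : ℝ) + 1) ^ (d - 3) * (((n : ℝ) + 1) * ((n : ℝ) + 1)) := by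
              have : ((n : ℝ) + 1) * ((n : ℝ) + 1) = ((n : ℝ) + 1) ^ (2 : ℝ) := by
                rw [Real.rpow_two]; ring
              rw [this, ← Real.rpow_add hn1]
              congr 1; ring
            have h4 : ((n : ℝ) + 1) ^ (d - 3) ≤ (J : ℝ) ^ (d - 3) := by
              apply Real.rpow_le_rpow hn1.le _ (by linarith)
              exact_mod_cast hn
            rw [div_le_iff₀ (by positivity)]
            calc ∑ m ∈ range (n + 1), g m ≤ A' * ((n : ℝ) + 1) ^ (d - 1) := h2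
              _ = A' * ((n : ℝ) + 1) ^ (d - 3) * (((n : ℝ) + 1) * ((n : ℝ) + 1)) := by
                  rw [h3]; ring
              _ ≤ A' * (J : ℝ) ^ (d - 3) * (((n : ℝ) + 1) * (n + 2)) := by
                  gcongr
                  norm_num
        _ = A' * (J : ℝ) ^ (d - 2) := by
            rw [Finset.sum_const, Finset.card_range, nsmul_eq_mul]
            have : (J : ℝ) ^ (d - 2) = J * (J : ℝ) ^ (d - 3) := by
              have e : d - 2 = 1 + (d - 3) := by ring
              rw [e, Real.rpow_add hJr, Real.rpow_one]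
            rw [this]; ring
    have h2 : (∑ m ∈ range J, g m) / (J + 1) ≤ A' * (J : ℝ) ^ (d - 2) := by
      rw [div_le_iff₀ (by positivity)]
      have h3 := hG J hJ
      have h4 : (J : ℝ) ^ (d - 1) = (J : ℝ) ^ (d - 2) * J := by
        have e : d - 1 = (d - 2) + 1 := by ring
        rw [e, Real.rpow_add hJr, Real.rpow_one]
      have h5 : 0 ≤ A' * (J : ℝ) ^ (d - 2) := by positivity
      calc ∑ m ∈ range J, g m ≤ A' * (J : ℝ) ^ (d - 1) := h3
        _ = A' * (J : ℝ) ^ (d - 2) * J := by rw [h4]; ring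
        _ ≤ A' * (J : ℝ) ^ (d - 2) * (J + 1) := by gcongr; linarith
    linarith
  have key : ∀ N : ℕ, n₀ ≤ N → 1 ≤ N →
      c / 4 * (c / (4 * A')) ^ (1 / (d - 2)) * (N : ℝ) ^ (2 + 1 / (d - 2)) ≤ F (2 * N) := by
    intro N hN hN1
    have hNr : (0 : ℝ) < N := by exact_mod_cast hN1
    set x : ℝ := (c * N / (4 * A')) ^ (1 / (d - 2)) with hx
    have hx0 : 0 ≤ x := by positivity
    have hS : ∑ m ∈ range ⌊x⌋₊, g m / ((m : ℝ) + 1) ≤ c * N / 2 := by
      by_cases h0 : ⌊x⌋₊ = 0
      · rw [h0, Finset.sum_range_zero]; positivity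
      · have h1 := hSJ ⌊x⌋₊ (Nat.one_le_iff_ne_zero.2 h0)
        have h2 : (⌊x⌋₊ : ℝ) ^ (d - 2) ≤ c * N / (4 * A') := by
          calc (⌊x⌋₊ : ℝ) ^ (d - 2) ≤ x ^ (d - 2) :=
                Real.rpow_le_rpow (Nat.cast_nonneg _) (Nat.floor_le hx0) hd2.le
            _ = c * N / (4 * A') := by
                rw [hx, ← Real.rpow_mul (by positivity), one_div_mul_cancel hd2.ne', Real.rpow_one]
        calc _ ≤ _ := h1
          _ ≤ 2 * A' * (c * N / (4 * A')) := by gcongr
          _ = c * N / 2 := by field_simp; ring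
    have h1 := h.gainF hN hN1 hS
    have h2 : x ≤ (⌊x⌋₊ : ℝ) + 1 := (Nat.lt_floor_add_one x).le
    have h3 : x = (c / (4 * A')) ^ (1 / (d - 2)) * (N : ℝ) ^ (1 / (d - 2)) := by
      rw [hx, ← Real.mul_rpow (by positivity) hNr.le]
      congr 1; ring
    have h4 : (N : ℝ) ^ (2 + 1 / (d - 2)) = N ^ 2 * (N : ℝ) ^ (1 / (d - 2)) := by
      rw [Real.rpow_add hNr, Real.rpow_two]
    calc c / 4 * (c / (4 * A')) ^ (1 / (d - 2)) * (N : ℝ) ^ (2 + 1 / (d - 2)) =
        c / 4 * N ^ 2 * x := by rw [h4, h3]; ring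
      _ ≤ c / 4 * N ^ 2 * ((⌊x⌋₊ : ℝ) + 1) := by gcongr
      _ ≤ _ := h1
  set c₁ : ℝ := c / 4 * (c / (4 * A')) ^ (1 / (d - 2)) with hc₁
  have hc₁p : 0 < c₁ := by positivity
  set s : ℝ := 2 + 1 / (d - 2) with hs
  have hsp : 0 < s := by positivity
  set M : ℕ := 2 * (n₀ + 1) with hM
  have hMr : (0 : ℝ) < M := by
    have : 0 < M := by omega
    exact_mod_cast this
  refine ⟨min (c₁ / 4 ^ s) (1 / (M : ℝ) ^ s), by positivity, fun n hn => ?_⟩
  have hnr : (1 : ℝ) ≤ n := by exact_mod_cast hn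
  by_cases hnM : n < M
  · have h2 : (n : ℝ) ≤ M := by exact_mod_cast hnM.le
    calc min (c₁ / 4 ^ s) (1 / (M : ℝ) ^ s) * (n : ℝ) ^ s ≤ 1 / (M : ℝ) ^ s * (M : ℝ) ^ s := by
          apply mul_le_mul (min_le_right _ _) _ (by positivity) (by positivity)
          exact Real.rpow_le_rpow (by linarith) h2 hsp.le
      _ = 1 := by field_simp
      _ ≤ F n := h.hF1 n
  · push Not at hnM
    set N := n / 2 with hN
    have hN0 : n₀ ≤ N := by omega
    have hN1 : 1 ≤ N := by omega
    have hnN : (n : ℝ) ≤ 4 * N := by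
      have : n ≤ 4 * N := by omega
      exact_mod_cast this
    have h4 : F (2 * N) ≤ F n := h.F_mono (by omega)
    calc min (c₁ / 4 ^ s) (1 / (M : ℝ) ^ s) * (n : ℝ) ^ s ≤ c₁ / 4 ^ s * (4 * N : ℝ) ^ s := by
          apply mul_le_mul (min_le_left _ _) _ (by positivity) (by positivity)
          exact Real.rpow_le_rpow (by linarith) hnN hsp.le
      _ = c₁ * (N : ℝ) ^ s := by
          rw [Real.mul_rpow (by norm_num) (Nat.cast_nonneg _)]
          field_simp
      _ ≤ F n := (key N hN0 hN1).trans h4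

end Pool.Agent.Lib_helper45.Bil
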