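import Mathlib

/-!
# Billiards in polygons: definitions

The plane is `ℂ`. A polygon is a compact set bounded by a simple closed polygonal curve.
-/

open Set
open scoped ComplexConjugate

namespace Pool.Agent.Billiard

/-- The side number `i` of the closed polygonal curve with vertices `v 0, v 1, …` (indices mod
`k`): the closed segment from `v i` to `v (i + 1)`. -/
def sideOf {k : ℕ} (v : ZMod k → ℂ) (i : ZMod k) : Set ℂ := segment ℝ (v i) (v (i + 1))

/-- A polygon: a compact planar region bounded by a simple closed polygonal curve with `k ≥ 3`
vertices. The region is the closure of its interior and its frontier is the curve; the curve is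
simple: the vertices are distinct, consecutive sides meet exactly in their common vertex, and
other pairs of sides are disjoint. -/
structure Polygon where
  /-- number of sides -/
  k : ℕ
  three_le : 3 ≤ k
  /-- the vertices -/
  vertex : ZMod k → ℂ
  /-- the region -/
  region : Set ℂ
  isCompact : IsCompact region
  closure_interior : closure (interior region) = region
  frontier_eq : frontier region = ⋃ i, sideOf vertex i
  injective : Function.Injective vertex
  inter_next : ∀ i, sideOf vertex i ∩ sideOf vertex (i + 1) = {vertex (i + 1)}
  inter_other : ∀ i j, j ≠ i → j ≠ i + 1 → i ≠ j + 1 →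
    sideOf vertex i ∩ sideOf vertex j = ∅

/-- Reflection of the vector `v` in the line spanned by the nonzero vector `d`. -/
noncomputable def reflectDir (d v : ℂ) : ℂ := d * conj v / conj d

/-- `P.Follows x v w`: the billiard particle that starts at `x` with velocity `v` moves inside
the table and hits successively the sides listed in `w`, each at an interior point of the side,
being reflected each time. -/
def Polygon.Follows (P : Polygon) : ℂ → ℂ → List (ZMod P.k) → Prop
  | _, _, [] => True
  | x, v, a :: w => ∃ t : ℝ, 0 < t ∧ (∀ s ∈ Ioo (0 : ℝ) t, x + s * v ∈ interior P.region) ∧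
      x + t * v ∈ openSegment ℝ (P.vertex a) (P.vertex (a + 1)) ∧
      P.Follows (x + t * v) (reflectDir (P.vertex (a + 1) - P.vertex a) v) w

/-- `w` is the code of a finite billiard orbit in `P`. -/
def Polygon.IsCode (P : Polygon) (w : List (ZMod P.k)) : Prop :=
  ∃ x ∈ interior P.region, ∃ v : ℂ, v ≠ 0 ∧ P.Follows x v w

/-- The full complexity `F_P(n)`: the number of codes of combinatorial length `n`. -/
noncomputable def Polygon.complexity (P : Polygon) (n : ℕ) : ℕ :=
  Set.ncard {w : List (ZMod P.k) | w.length = n ∧ P.IsCode w}

end Pool.Agent.Billiard
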