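import Pool.Agent.Lib_helper45.Bil.Arrive

/-!
# Billiards in polygons: generalized diagonals from a corner versus codes of rays
-/

open Set Filter Topology Metric
open scoped ComplexConjugate

namespace Pool.Agent.Lib_helper45.Bil

open Pool.Agent.Billiard

variable {P : Polygon}

theorem Vis.of_start {W : List (ZMod P.k)} {z u : ℂ} {t₁ t₂ T : ℝ} {j : ZMod P.k}
    (h12 : t₁ ≤ t₂) (hU : ∀ τ ∈ Ioc t₁ t₂, z + τ * u ∈ U P) (h : Vis P z u t₁ W j T) :
    Vis P z u t₂ W j T := by
  cases W with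
  | nil =>
    obtain ⟨h1, h2, h3⟩ := h
    refine ⟨?_, h2, fun τ hτ => h3 τ ⟨by linarith [hτ.1], hτ.2⟩⟩
    by_contra hh
    push Not at hh
    refine not_mem_U_of_Gam (vertex_mem_Gam j) ?_
    rw [← h2]
    exact hU T ⟨h1, hh⟩
  | cons a W =>
    obtain ⟨t', ht, h1, h2, h3⟩ := h
    refine ⟨t', ?_, fun τ hτ => h1 τ ⟨by linarith [hτ.1], hτ.2⟩, h2, h3⟩
    by_contra hh
    push Not at hh
    exact not_mem_U_of_Gam (rel_subset_Gam a h2) (hU t' ⟨ht, hh⟩)

theorem Vis.lt {W : List (ZMod P.k)} : ∀ {z u : ℂ} {t T : ℝ} {j : ZMod P.k},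
    Vis P z u t W j T → t < T := by
  induction W with
  | nil => intro z u t T j h; exact h.1
  | cons a W ih =>
    rintro z u t T j ⟨t', ht, _, _, h⟩
    exact ht.trans (ih h)

theorem Vis.unique : ∀ {W W' : List (ZMod P.k)} {z u : ℂ} {t T T' : ℝ} {j j' : ZMod P.k},
    Vis P z u t W j T → Vis P z u t W' j' T' → W = W' ∧ j = j' := by
  intro W
  induction W with
  | nil =>
    intro W' z u t T T' j j' h h'
    obtain ⟨h1, h2, h3⟩ := h
    cases W' with
    | nil =>
      obtain ⟨h1', h2', h3'⟩ := h'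
      have hT : T = T' := by
        rcases lt_trichotomy T T' with h | h | h
        · have := h3' T ⟨h1, h⟩
          rw [h2] at this
          exact absurd this (not_mem_U_of_Gam (vertex_mem_Gam j))
        · exact h
        · have := h3 T' ⟨h1', h⟩
          rw [h2'] at this
          exact absurd this (not_mem_U_of_Gam (vertex_mem_Gam j'))
      subst hT
      exact ⟨rfl, P.injective (h2.symm.trans h2')⟩
    | cons b W' =>
      exfalso
      obtain ⟨t', ht, h1', h2', _⟩ := h'
      rcases lt_trichotomy T t' with h | h | h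
      · have := h1' T ⟨h1, h⟩
        rw [h2] at this
        exact not_mem_U_of_Gam (vertex_mem_Gam j) this
      · subst h
        rw [h2] at h2'
        exact vertex_not_mem_rel b j h2'
      · exact not_mem_U_of_Gam (rel_subset_Gam b h2') (h3 t' ⟨ht, h⟩)
  | cons a W ih =>
    intro W' z u t T T' j j' h h'
    obtain ⟨t', ht, h1, h2, h3⟩ := h
    cases W' with
    | nil =>
      exfalso
      obtain ⟨h1', h2', h3'⟩ := h'
      rcases lt_trichotomy T' t' with h | h | h
      · have := h1 T' ⟨h1', h⟩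
        rw [h2'] at this
        exact not_mem_U_of_Gam (vertex_mem_Gam j') this
      · subst h
        rw [h2'] at h2
        exact vertex_not_mem_rel a j' h2
      · exact not_mem_U_of_Gam (rel_subset_Gam a h2) (h3' t' ⟨ht, h⟩)
    | cons b W' =>
      obtain ⟨t'', ht', h1', h2', h3'⟩ := h'
      have he : t' = t'' := by
        rcases lt_trichotomy t' t'' with h | h | h
        · exact absurd (h1' t' ⟨ht, h⟩) (not_mem_U_of_Gam (rel_subset_Gam a h2))
        · exact h
        · exact absurd (h1 t'' ⟨ht', h⟩) (not_mem_U_of_Gam (rel_subset_Gam b h2'))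
      subst he
      have hab := rel_unique h2 h2'
      subst hab
      obtain ⟨h4, h5⟩ := ih h3 h3'
      exact ⟨by rw [h4], h5⟩

theorem Vis.scale {W : List (ZMod P.k)} : ∀ {z u : ℂ} {t T l : ℝ} {j : ZMod P.k}, 0 < l →
    Vis P z (l * u) t W j T → Vis P z u (l * t) W j (l * T) := by
  have key : ∀ (u : ℂ) (l τ : ℝ), (τ : ℂ) * ((l : ℂ) * u) = ((l * τ : ℝ) : ℂ) * u := by
    intro u l τ; push_cast; ring
  induction W with
  | nil =>
    rintro z u t T l j hl ⟨h1, h2, h3⟩
    refine ⟨mul_lt_mul_of_pos_left h1 hl, by rw [← key]; exact h2, fun τ hτ => ?_⟩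
    have := h3 (τ / l) ⟨by rw [lt_div_iff₀ hl]; linarith [hτ.1, mul_comm l t],
      by rw [div_lt_iff₀ hl]; linarith [hτ.2, mul_comm l T]⟩
    rw [key, mul_div_cancel₀ _ hl.ne'] at this
    exact this
  | cons a W ih =>
    rintro z u t T l j hl ⟨t', ht, h1, h2, h3⟩
    refine ⟨l * t', mul_lt_mul_of_pos_left ht hl, fun τ hτ => ?_, by rw [← key]; exact h2, ?_⟩
    · have := h1 (τ / l) ⟨by rw [lt_div_iff₀ hl]; linarith [hτ.1, mul_comm l t],
        by rw [div_lt_iff₀ hl]; linarith [hτ.2, mul_comm l t']⟩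
      rw [key, mul_div_cancel₀ _ hl.ne'] at this
      exact this
    · have e : lrefl P a ((l : ℂ) * u) = l * lrefl P a u := rd_real_mul _ _ _
      rw [e] at h3
      exact ih hl h3

/-- A path crosses the unfolded sides. -/
theorem Path.cross_dev {W R : List (ZMod P.k)} {e : ZMod P.k} : ∀ {z u : ℂ} {t : ℝ},
    Path P z u t (W ++ e :: R) → ∃ T > t, ∃ l : ℝ, 0 < l ∧ l < 1 ∧
      z + T * u = dev P W (P.vertex e) + l * (dev P W (P.vertex (e + 1)) - dev P W (P.vertex e)) := by
  induction W with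
  | nil =>
    rintro z u t ⟨t', ht, _, h2, _⟩
    obtain ⟨l, h0, h1, h⟩ := mem_rel_iff.1 h2
    exact ⟨t', ht, l, h0, h1, h⟩
  | cons a W ih =>
    rintro z u t ⟨t', ht, _, _, h3⟩
    obtain ⟨T, hT, l, h0, h1, h⟩ := ih h3
    refine ⟨T, by linarith, l, h0, h1, ?_⟩
    have h5 := congrArg (refl P a) h
    rw [refl_add, refl_refl, lrefl_lrefl] at h5
    rw [h5]
    simp only [dev]
    rw [refl_add]
    congr 2
    unfold refl lrefl
    rw [add_sub_add_left_eq_sub, ← rd_sub]
    congr 1; ring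

variable (P) in
/-- Position vector, from the corner, of a generalized diagonal given by code and end vertex. -/
noncomputable def Corner.D (C : Corner P) (γ : List (ZMod P.k) × ZMod P.k) : ℂ :=
  dev P γ.1 (P.vertex γ.2) - C.v

/-- Generalized diagonals from the corner with less than `n` bounces. -/
def Corner.GD (C : Corner P) (n : ℕ) : Set (List (ZMod P.k) × ZMod P.k) :=
  {γ | γ.1.length < n ∧ C.Cone (C.D P γ) ∧ Vis P C.v (C.D P γ) 0 γ.1 γ.2 1}

theorem Corner.GD_finite (C : Corner P) (n : ℕ) : (C.GD n).Finite := by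
  have h : (({w : List (ZMod P.k) | w.length < n} ×ˢ (univ : Set (ZMod P.k)))).Finite :=
    (List.finite_length_lt (ZMod P.k) n).prod finite_univ
  exact h.subset fun γ hγ => ⟨hγ.1, mem_univ _⟩

theorem ev_ne (c : ℝ) : ∀ᶠ ε : ℝ in 𝓝[>] 0, ε ≠ c := by
  by_cases h : c = 0
  · filter_upwards [self_mem_nhdsWithin] with ε hε
    rw [h]; exact ne_of_gt hε
  · have h1 : ∀ᶠ ε : ℝ in 𝓝 0, ε ≠ c := isOpen_ne.mem_nhds (Ne.symm h)
    exact h1.filter_mono nhdsWithin_le_nhds

theorem cross_pert (D D' : ℂ) (s ε : ℝ) :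
    ((1 + Complex.I * ((s * ε : ℝ) : ℂ)) * D * conj D').im =
      (D * conj D').im + s * ε * (D * conj D').re := by
  have : (1 + Complex.I * ((s * ε : ℝ) : ℂ)) * D * conj D' =
      D * conj D' + ((s * ε : ℝ) : ℂ) * (Complex.I * (D * conj D')) := by ring
  rw [this, Complex.add_im, Complex.im_ofReal_mul, Complex.I_mul_im]

/-- The code attached to a generalized diagonal. -/
theorem Corner.exists_code (C : Corner P) {n : ℕ} {γ : List (ZMod P.k) × ZMod P.k}
    (hγ : γ ∈ C.GD n) : ∃ s : ℝ, (s = 1 ∨ s = -1) ∧ ∃ ε > 0, ∃ X ∈ C.RC n,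
      Path P C.v ((1 + Complex.I * ((s * ε : ℝ) : ℂ)) * C.D P γ) 0 X ∧
      (∃ e R, (e + 1 = γ.2 ∨ e = γ.2) ∧ X = γ.1 ++ e :: R) ∧
      ∀ γ' ∈ C.GD n, 0 < s * (C.D P γ' * conj (C.D P γ)).im →
        s * ((1 + Complex.I * ((s * ε : ℝ) : ℂ)) * C.D P γ * conj (C.D P γ')).im < 0 := by
  obtain ⟨W, j⟩ := γ
  obtain ⟨i, rfl⟩ : ∃ i, j = i + 1 := ⟨j - 1, by ring⟩
  obtain ⟨hlen, hcone, hvis⟩ := hγ
  simp only at hlen hvis
  set D := C.D P (W, i + 1) with hD
  have hD0 : D ≠ 0 := hcone.ne_zero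
  obtain ⟨τ₀, hτ₀, hn⟩ := C.exists_start D
  have hU0 : ∀ s ∈ Ioc 0 τ₀, C.v + (s : ℂ) * D ∈ U P := by
    intro s hs
    apply C.ray_mem hcone hs.1
    have : s * ‖D‖ ≤ τ₀ * ‖D‖ := mul_le_mul_of_nonneg_right hs.2 (norm_nonneg _)
    linarith
  have hvis' := hvis.of_start hτ₀.le hU0
  obtain ⟨s, hs, hev⟩ := arrive i W hD0 (hU0 τ₀ ⟨hτ₀, le_rfl⟩) hvis'
  have hs0 : s ≠ 0 := by rcases hs with h | h <;> rw [h] <;> norm_num
  refine ⟨s, hs, ?_⟩
  have hcont : Continuous fun ε : ℝ => (1 + Complex.I * ((s * ε : ℝ) : ℂ)) * D := by fun_prop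
  have hc0 := hcont.tendsto 0
  simp only [mul_zero, Complex.ofReal_zero, add_zero, one_mul] at hc0
  have hw := nhdsWithin_le_nhds (s := Ioi (0 : ℝ)) (a := (0 : ℝ))
  have hev1 : ∀ᶠ ε : ℝ in 𝓝[>] 0, C.Cone ((1 + Complex.I * ((s * ε : ℝ) : ℂ)) * D) := by
    have hopen : IsOpen {u : ℂ | C.Cone u} := by
      have : {u : ℂ | C.Cone u} = {u | 0 < (C.qb * conj u).im} ∩ {u | 0 < (u * conj C.qr).im} := rfl
      rw [this]
      apply IsOpen.inter
      · exact isOpen_lt continuous_const (by fun_prop)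
      · exact isOpen_lt continuous_const (by fun_prop)
    exact (hc0.eventually (hopen.mem_nhds hcone)).filter_mono hw
  have hev2 : ∀ᶠ ε : ℝ in 𝓝[>] 0, τ₀ * ‖(1 + Complex.I * ((s * ε : ℝ) : ℂ)) * D‖ < C.rad := by
    have hc : Tendsto (fun ε : ℝ => τ₀ * ‖(1 + Complex.I * ((s * ε : ℝ) : ℂ)) * D‖) (𝓝 0)
        (𝓝 (τ₀ * ‖D‖)) := (hc0.norm).const_mul τ₀
    exact (hc.eventually (gt_mem_nhds hn)).filter_mono hw
  have hev3 : ∀ᶠ ε : ℝ in 𝓝[>] 0, ∀ p ∈ ({w : List (ZMod P.k) | w.length < n} ×ˢ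
      (univ : Set (ZMod P.k))), ε ≠ (((dev P p.1 (P.vertex p.2) - C.v) / D).im /
        (((dev P p.1 (P.vertex p.2) - C.v) / D).re * s)) := by
    rw [Filter.eventually_all_finite
      ((List.finite_length_lt (ZMod P.k) n).prod finite_univ)]
    intro p _
    exact ev_ne _
  have hev4 : ∀ᶠ ε : ℝ in 𝓝[>] 0, ∀ γ' ∈ C.GD n, 0 < s * (C.D P γ' * conj D).im →
      s * ((1 + Complex.I * ((s * ε : ℝ) : ℂ)) * D * conj (C.D P γ')).im < 0 := by
    rw [Filter.eventually_all_finite (C.GD_finite n)]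
    intro γ' _
    by_cases h : 0 < s * (C.D P γ' * conj D).im
    · have hc : Continuous fun ε : ℝ =>
          s * ((D * conj (C.D P γ')).im + s * ε * (D * conj (C.D P γ')).re) := by fun_prop
      have h1 := hc.tendsto 0
      simp only [mul_zero, zero_mul, add_zero] at h1
      have h2 : s * (D * conj (C.D P γ')).im < 0 := by
        rw [cross_swap]; linarith
      have h3 := (h1.eventually (gt_mem_nhds h2)).filter_mono hw
      filter_upwards [h3] with ε hε _
      rw [cross_pert]; exact hε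
    · exact Filter.Eventually.of_forall fun ε h' => absurd h' h
  obtain ⟨ε, ⟨⟨⟨⟨⟨h1, h2⟩, h3⟩, h4⟩, h5⟩, h6⟩⟩ :=
    (((((hev.and hev1).and hev2).and hev3).and hev4).and self_mem_nhdsWithin).exists
  have hε : 0 < ε := h6
  obtain ⟨e, he, hpath⟩ := h1
  set u := (1 + Complex.I * ((s * ε : ℝ) : ℂ)) * D with hu
  have hu0 : u ≠ 0 := h2.ne_zero
  have hpath0 : Path P C.v u 0 (W ++ [e]) := (Corner.path_start h2 hτ₀ h3).2 hpath
  have hUu : ∀ τ ∈ Ioc 0 τ₀, C.v + (τ : ℂ) * u ∈ U P := by
    intro τ hτ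
    apply C.ray_mem h2 hτ.1
    have : τ * ‖u‖ ≤ τ₀ * ‖u‖ := mul_le_mul_of_nonneg_right hτ.2 (norm_nonneg _)
    linarith
  obtain ⟨X, hX, hXp⟩ := exists_path n hu0 hτ₀ hUu (by
    intro w hwl j τ hτ he'
    apply h4 (w, j) ⟨hwl, mem_univ _⟩
    simp only
    rw [← he', hu]
    have e1 : (C.v + (τ : ℂ) * ((1 + Complex.I * ((s * ε : ℝ) : ℂ)) * D) - C.v) / D =
        τ + ((τ * (s * ε) : ℝ) : ℂ) * Complex.I := by
      field_simp; push_cast; ring
    rw [e1]
    simp
    field_simp)
  refine ⟨ε, hε, X, ⟨hX, u, h2, hXp⟩, hXp, ?_, h5⟩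
  have htake : Path P C.v u 0 (X.take (W.length + 1)) := by
    apply Path.pre (v := X.drop (W.length + 1))
    rw [List.take_append_drop]; exact hXp
  have hlen2 : (X.take (W.length + 1)).length = (W ++ [e]).length := by
    rw [List.length_take, hX, List.length_append, List.length_singleton]
    exact min_eq_left hlen
  have hXeq := Path.unique htake hpath0 hlen2
  refine ⟨e, X.drop (W.length + 1), ?_, ?_⟩
  · rcases he with h | h
    · left; simp only; rw [h]
    · right; exact h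
  · simp only
    calc X = X.take (W.length + 1) ++ X.drop (W.length + 1) := (List.take_append_drop _ _).symm
      _ = W ++ e :: X.drop (W.length + 1) := by rw [hXeq]; simp

/-- At least half as many codes of rays as generalized diagonals. -/
theorem Corner.GD_le (C : Corner P) (n : ℕ) : (C.GD n).ncard ≤ 2 * (C.RC n).ncard := by
  classical
  have hch : ∀ γ : List (ZMod P.k) × ZMod P.k, ∃ s ε : ℝ, ∃ X : List (ZMod P.k), γ ∈ C.GD n →
      (s = 1 ∨ s = -1) ∧ 0 < ε ∧ X ∈ C.RC n ∧
      Path P C.v ((1 + Complex.I * ((s * ε : ℝ) : ℂ)) * C.D P γ) 0 X ∧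
      (∃ e R, (e + 1 = γ.2 ∨ e = γ.2) ∧ X = γ.1 ++ e :: R) ∧
      ∀ γ' ∈ C.GD n, 0 < s * (C.D P γ' * conj (C.D P γ)).im →
        s * ((1 + Complex.I * ((s * ε : ℝ) : ℂ)) * C.D P γ * conj (C.D P γ')).im < 0 := by
    intro γ
    by_cases h : γ ∈ C.GD n
    · obtain ⟨s, hs, ε, hε, X, hX⟩ := C.exists_code h
      exact ⟨s, ε, X, fun _ => ⟨hs, hε, hX.1, hX.2⟩⟩
    · exact ⟨1, 1, [], fun h' => absurd h' h⟩
  choose s ε X hall using hch
  -- the key comparison
  have key : ∀ γ ∈ C.GD n, ∀ γ' ∈ C.GD n, X γ = X γ' → s γ = s γ' →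
      ¬ 0 < s γ * (C.D P γ' * conj (C.D P γ)).im := by
    intro γ hγ γ' hγ' hXe hse hpos
    obtain ⟨hs, hε, hXm, hp, _, hord⟩ := hall γ hγ
    obtain ⟨hs', hε', hXm', hp', ⟨e, R, he, hXR⟩, _⟩ := hall γ' hγ'
    have h1 := hord γ' hγ' hpos
    rw [hXe] at hp
    rw [hXR] at hp hp'
    obtain ⟨T, hT, l, hl0, hl1, hc⟩ := Path.cross_dev hp
    obtain ⟨T', hT', l', hl0', hl1', hc'⟩ := Path.cross_dev hp'
    set A := dev P γ'.1 (P.vertex e) with hA
    set B := dev P γ'.1 (P.vertex (e + 1)) with hB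
    set u := (1 + Complex.I * ((s γ * ε γ : ℝ) : ℂ)) * C.D P γ with hu
    set u' := (1 + Complex.I * ((s γ' * ε γ' : ℝ) : ℂ)) * C.D P γ' with hu'
    set D' := C.D P γ' with hD'
    have hD'0 : D' ≠ 0 := hγ'.2.1.ne_zero
    have h2 : 0 < s γ' * (u' * conj D').im := by
      rw [hu', cross_pert]
      have h3 : (D' * conj D').im = 0 := by rw [Complex.mul_conj]; simp
      have h4 : (D' * conj D').re = ‖D'‖ ^ 2 := by
        rw [Complex.mul_conj, Complex.normSq_eq_norm_sq]; norm_cast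
      rw [h3, h4]
      have h5 : s γ' * s γ' = 1 := by rcases hs' with h | h <;> rw [h] <;> norm_num
      have h6 : 0 < ‖D'‖ ^ 2 := pow_pos (norm_pos_iff.2 hD'0) 2
      have h7 : s γ' * (0 + s γ' * ε γ' * ‖D'‖ ^ 2) = (s γ' * s γ') * (ε γ' * ‖D'‖ ^ 2) := by ring
      rw [h7, h5, one_mul]
      exact mul_pos hε' h6
    -- one of the end points is `v + D'`
    obtain ⟨Q, m, m', hm, hm', hQ, hQ'⟩ : ∃ (Q : ℂ) (m m' : ℝ), 0 < m ∧ 0 < m' ∧
        (T : ℂ) * u = D' + m * Q ∧ (T' : ℂ) * u' = D' + m' * Q := by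
      rcases he with he | he
      · have hBD : B = C.v + D' := by
          rw [hB, hD']; unfold Corner.D; rw [he]; ring
        refine ⟨A - B, 1 - l, 1 - l', by linarith, by linarith, ?_, ?_⟩
        · have : (T : ℂ) * u = (C.v + T * u) - C.v := by ring
          rw [this, hc]; push_cast; linear_combination hBD
        · have : (T' : ℂ) * u' = (C.v + T' * u') - C.v := by ring
          rw [this, hc']; push_cast; linear_combination hBD
      · have hAD : A = C.v + D' := by
          rw [hA, hD']; unfold Corner.D; rw [he]; ring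
        refine ⟨B - A, l, l', hl0, hl0', ?_, ?_⟩
        · have : (T : ℂ) * u = (C.v + T * u) - C.v := by ring
          rw [this, hc]; linear_combination hAD
        · have : (T' : ℂ) * u' = (C.v + T' * u') - C.v := by ring
          rw [this, hc']; linear_combination hAD
    have hDD : (D' * conj D').im = 0 := by rw [Complex.mul_conj]; simp
    have e1 : T * (u * conj D').im = m * (Q * conj D').im := by
      have := congrArg (fun x : ℂ => (x * conj D').im) hQ
      rw [cross_mul_left, cross_add_left, hDD, cross_mul_left, zero_add] at this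
      exact this
    have e2 : T' * (u' * conj D').im = m' * (Q * conj D').im := by
      have := congrArg (fun x : ℂ => (x * conj D').im) hQ'
      rw [cross_mul_left, cross_add_left, hDD, cross_mul_left, zero_add] at this
      exact this
    have hTp : 0 < T := hT
    have hTp' : 0 < T' := hT'
    have h8 : s γ * (Q * conj D').im < 0 := by
      have h9 : T * (s γ * (u * conj D').im) < 0 := mul_neg_of_pos_of_neg hTp h1
      have h10 : m * (s γ * (Q * conj D').im) < 0 := by
        have : m * (s γ * (Q * conj D').im) = T * (s γ * (u * conj D').im) := by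
          calc _ = s γ * (m * (Q * conj D').im) := by ring
            _ = s γ * (T * (u * conj D').im) := by rw [e1]
            _ = _ := by ring
        rw [this]; exact h9
      by_contra hh
      push Not at hh
      have := mul_nonneg hm.le hh
      linarith
    have h11 : 0 < s γ * (Q * conj D').im := by
      have h9 : 0 < T' * (s γ' * (u' * conj D').im) := mul_pos hTp' h2
      have h10 : 0 < m' * (s γ' * (Q * conj D').im) := by
        have : m' * (s γ' * (Q * conj D').im) = T' * (s γ' * (u' * conj D').im) := by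
          calc _ = s γ' * (m' * (Q * conj D').im) := by ring
            _ = s γ' * (T' * (u' * conj D').im) := by rw [e2]
            _ = _ := by ring
        rw [this]; exact h9
      rw [hse]
      by_contra hh
      push Not at hh
      have := mul_nonpos_of_nonneg_of_nonpos hm'.le hh
      linarith
    linarith
  have hinj : InjOn (fun γ => (X γ, s γ)) (C.GD n) := by
    intro γ hγ γ' hγ' he
    have hX : X γ = X γ' := congrArg Prod.fst he
    have hse : s γ = s γ' := congrArg Prod.snd he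
    have k1 := key γ hγ γ' hγ' hX hse
    have k2 := key γ' hγ' γ hγ hX.symm hse.symm
    have h0 : s γ * (C.D P γ' * conj (C.D P γ)).im = 0 := by
      rw [← hse, cross_swap] at k2
      push Not at k1 k2
      linarith
    have hs0 : s γ ≠ 0 := by
      rcases (hall γ hγ).1 with h | h <;> rw [h] <;> norm_num
    have hc : (C.D P γ' * conj (C.D P γ)).im = 0 := by
      rcases mul_eq_zero.1 h0 with h | h
      · exact absurd h hs0
      · exact h
    have hc' : (C.D P γ * conj (C.D P γ')).im = 0 := by rw [cross_swap, hc, neg_zero]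
    obtain ⟨l, hl⟩ := parallel_of_cross hγ.2.1.ne_zero hc'
    have hl0 : 0 < l := by
      have h1 := hγ.2.1.1
      have h2 := hγ'.2.1.1
      rw [hl, cross_mul_right] at h2
      by_contra hh
      push Not at hh
      have := mul_nonpos_of_nonpos_of_nonneg hh h1.le
      linarith
    have hv := hγ'.2.2
    rw [hl] at hv
    have hv' := hv.scale hl0
    rw [mul_zero] at hv'
    obtain ⟨h1, h2⟩ := Vis.unique hγ.2.2 hv'
    exact Prod.ext h1 h2
  have hmaps : MapsTo (fun γ => (X γ, s γ)) (C.GD n) (C.RC n ×ˢ ({1, -1} : Set ℝ)) := by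
    intro γ hγ
    obtain ⟨hs, _, hXm, _⟩ := hall γ hγ
    exact ⟨hXm, hs⟩
  have h1 := ncard_le_ncard_of_injOn _ hmaps hinj ((C.RC_finite n).prod (Set.toFinite _))
  have h2 : (C.RC n ×ˢ ({1, -1} : Set ℝ)).ncard = (C.RC n).ncard * ({1, -1} : Set ℝ).ncard :=
    ncard_prod
  have h3 : ({1, -1} : Set ℝ).ncard = 2 := ncard_pair (by norm_num)
  rw [h2, h3] at h1
  linarith

end Pool.Agent.Lib_helper45.Bil
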