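import Pool.Agent.Lib_helper45.Bil.Defs

/-!
# Billiards in polygons: local geometry near an interior point of a side
-/

open Set Filter Topology Metric
open scoped ComplexConjugate

namespace Pool.Agent.Lib_helper45.Bil

open Pool.Agent.Billiard

/-! ### Reflections of vectors -/

section Refl

theorem rd_add (d v w : ℂ) : reflectDir d (v + w) = reflectDir d v + reflectDir d w := by
  simp only [reflectDir, map_add]; ring

theorem rd_sub (d v w : ℂ) : reflectDir d (v - w) = reflectDir d v - reflectDir d w := by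
  simp only [reflectDir, map_sub]; ring

theorem rd_neg (d v : ℂ) : reflectDir d (-v) = -reflectDir d v := by
  simp only [reflectDir, map_neg]; ring

theorem rd_real_mul (d v : ℂ) (r : ℝ) : reflectDir d (r * v) = r * reflectDir d v := by
  simp only [reflectDir, map_mul, Complex.conj_ofReal]; ring

theorem rd_mul (d v c : ℂ) : reflectDir d (c * v) = conj c * reflectDir d v := by
  simp only [reflectDir, map_mul]; ring

theorem rd_self {d : ℂ} (hd : d ≠ 0) : reflectDir d d = d := by
  have : conj d ≠ 0 := (map_ne_zero _).2 hd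
  simp only [reflectDir]; field_simp

theorem rd_rd {d : ℂ} (hd : d ≠ 0) (v : ℂ) : reflectDir d (reflectDir d v) = v := by
  have : conj d ≠ 0 := (map_ne_zero _).2 hd
  simp only [reflectDir, map_mul, map_div₀, Complex.conj_conj]; field_simp

theorem norm_rd {d : ℂ} (hd : d ≠ 0) (v : ℂ) : ‖reflectDir d v‖ = ‖v‖ := by
  have : ‖d‖ ≠ 0 := norm_ne_zero_iff.2 hd
  simp only [reflectDir, norm_mul, norm_div, RCLike.norm_conj]; field_simp

theorem rd_conj {d : ℂ} (hd : d ≠ 0) (v : ℂ) : reflectDir d v * conj d = conj (v * conj d) := by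
  have : conj d ≠ 0 := (map_ne_zero _).2 hd
  simp only [reflectDir, map_mul, Complex.conj_conj]; field_simp

theorem rd_zero (d : ℂ) : reflectDir d 0 = 0 := by simp [reflectDir]

theorem rd_ne_zero {d v : ℂ} (hd : d ≠ 0) (hv : v ≠ 0) : reflectDir d v ≠ 0 := by
  rw [← norm_ne_zero_iff, norm_rd hd]; exact norm_ne_zero_iff.2 hv

theorem continuous_rd (d : ℂ) : Continuous (reflectDir d) := by
  unfold reflectDir
  exact ((continuous_const.mul Complex.continuous_conj).div_const _)

end Refl

variable (P : Polygon)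

instance : NeZero P.k := ⟨by have := P.three_le; omega⟩

/-- Side vector. -/
def dir (i : ZMod P.k) : ℂ := P.vertex (i + 1) - P.vertex i

/-- The open side. -/
def rel (i : ZMod P.k) : Set ℂ := openSegment ℝ (P.vertex i) (P.vertex (i + 1))

/-- The open region. -/
def U : Set ℂ := interior P.region

/-- The boundary. -/
def Gam : Set ℂ := frontier P.region

/-- Signed height over the line of side `i` (unnormalised). -/
noncomputable def H (i : ZMod P.k) (z : ℂ) : ℝ := ((z - P.vertex i) * conj (dir P i)).im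

/-- Normalised coordinate along side `i`. -/
noncomputable def K (i : ZMod P.k) (z : ℂ) : ℝ :=
  ((z - P.vertex i) * conj (dir P i)).re / ‖dir P i‖ ^ 2

/-- The reflection in the line of side `i`. -/
noncomputable def refl (i : ZMod P.k) (z : ℂ) : ℂ :=
  P.vertex i + reflectDir (dir P i) (z - P.vertex i)

/-- The linear part. -/
noncomputable def lrefl (i : ZMod P.k) (v : ℂ) : ℂ := reflectDir (dir P i) v

/-- Transversality coefficient. -/
noncomputable def tr (i : ZMod P.k) (u : ℂ) : ℝ := (u * conj (dir P i)).im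

variable {P}

theorem one_ne_zero' : (1 : ZMod P.k) ≠ 0 := by
  have := P.three_le
  have : Fact (1 < P.k) := ⟨by omega⟩
  exact one_ne_zero

theorem two_ne_zero' : (1 : ZMod P.k) + 1 ≠ 0 := by
  have h3 := P.three_le
  intro h
  have h2 : ((2 : ℕ) : ZMod P.k) = 0 := by
    rw [← h]; push_cast; norm_num
  rw [ZMod.natCast_eq_zero_iff] at h2
  have := Nat.le_of_dvd (by norm_num) h2
  omega

theorem succ_ne (i : ZMod P.k) : i + 1 ≠ i := fun h => one_ne_zero' (P := P) (by
  have : i + 1 = i + 0 := by simpa using h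
  exact add_left_cancel this)

theorem succ_succ_ne (i : ZMod P.k) : i + 1 + 1 ≠ i := fun h => two_ne_zero' (P := P) (by
  have : i + (1 + 1) = i + 0 := by rw [← add_assoc, h, add_zero]
  exact add_left_cancel this)

theorem dir_ne (i : ZMod P.k) : dir P i ≠ 0 := by
  intro h
  exact succ_ne i (P.injective (sub_eq_zero.1 h))

theorem isOpen_U : IsOpen (U P) := isOpen_interior

theorem region_closed : IsClosed P.region := P.isCompact.isClosed

theorem closure_U : closure (U P) = P.region := P.closure_interior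

theorem Gam_closed : IsClosed (Gam P) := isClosed_frontier

theorem Gam_eq : Gam P = P.region \ U P := by
  unfold Gam U
  rw [frontier, (region_closed).closure_eq]

theorem Gam_subset : Gam P ⊆ P.region := by rw [Gam_eq]; exact Set.sdiff_subset

theorem not_mem_U_of_Gam {z : ℂ} (h : z ∈ Gam P) : z ∉ U P := by
  rw [Gam_eq] at h; exact h.2

theorem mem_Gam_iff {z : ℂ} : z ∈ Gam P ↔ ∃ i, z ∈ sideOf P.vertex i := by
  unfold Gam; rw [P.frontier_eq]; simp

theorem side_closed (i : ZMod P.k) : IsClosed (sideOf P.vertex i) := by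
  unfold sideOf
  rw [segment_eq_image_lineMap]
  exact (isCompact_Icc.image AffineMap.lineMap_continuous).isClosed

theorem rel_subset_side (i : ZMod P.k) : rel P i ⊆ sideOf P.vertex i := openSegment_subset_segment _ _ _

theorem rel_subset_Gam (i : ZMod P.k) : rel P i ⊆ Gam P := fun _ hz =>
  mem_Gam_iff.2 ⟨i, rel_subset_side i hz⟩

theorem vertex_mem_side (i : ZMod P.k) : P.vertex i ∈ sideOf P.vertex i := left_mem_segment _ _ _

theorem vertex_succ_mem_side (i : ZMod P.k) : P.vertex (i + 1) ∈ sideOf P.vertex i :=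
  right_mem_segment _ _ _

theorem vertex_mem_Gam (i : ZMod P.k) : P.vertex i ∈ Gam P := mem_Gam_iff.2 ⟨i, vertex_mem_side i⟩

/-- A preconnected set that avoids the boundary and meets the open region lies in it. -/
theorem subset_U {s : Set ℂ} (hs : IsPreconnected s) (hG : ∀ z ∈ s, z ∉ Gam P)
    (hne : (s ∩ U P).Nonempty) : s ⊆ U P := by
  apply hs.subset_of_closure_inter_subset isOpen_U hne
  rintro z ⟨h1, h2⟩
  rw [closure_U] at h1
  by_contra h3
  exact hG z h2 (by rw [Gam_eq]; exact ⟨h1, h3⟩)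

/-! ### Coordinates along a side -/

theorem mem_side_iff {i : ZMod P.k} {z : ℂ} :
    z ∈ sideOf P.vertex i ↔ ∃ l : ℝ, 0 ≤ l ∧ l ≤ 1 ∧ z = P.vertex i + l * dir P i := by
  unfold sideOf dir
  rw [segment_eq_image']
  constructor
  · rintro ⟨l, ⟨h0, h1⟩, rfl⟩
    exact ⟨l, h0, h1, by simp⟩
  · rintro ⟨l, h0, h1, rfl⟩
    exact ⟨l, ⟨h0, h1⟩, by simp⟩

theorem mem_rel_iff {i : ZMod P.k} {z : ℂ} :
    z ∈ rel P i ↔ ∃ l : ℝ, 0 < l ∧ l < 1 ∧ z = P.vertex i + l * dir P i := by
  unfold rel dir
  rw [openSegment_eq_image']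
  constructor
  · rintro ⟨l, ⟨h0, h1⟩, rfl⟩
    exact ⟨l, h0, h1, by simp⟩
  · rintro ⟨l, h0, h1, rfl⟩
    exact ⟨l, ⟨h0, h1⟩, by simp⟩

theorem H_add (i : ZMod P.k) (z u : ℂ) (t : ℝ) : H P i (z + t * u) = H P i z + t * tr P i u := by
  unfold H tr
  have : (z + t * u - P.vertex i) * conj (dir P i) =
      (z - P.vertex i) * conj (dir P i) + t * (u * conj (dir P i)) := by ring
  rw [this, Complex.add_im, Complex.re_ofReal_mul']
  where
  Complex.re_ofReal_mul' {a : ℝ} {r : ℝ} {w : ℂ} : a + ((r : ℂ) * w).im = a + r * w.im := by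
    simp

theorem tr_dir (i : ZMod P.k) : tr P i (dir P i) = 0 := by
  unfold tr
  rw [Complex.mul_conj]; simp

theorem H_vertex (i : ZMod P.k) : H P i (P.vertex i) = 0 := by simp [H]

theorem H_line (i : ZMod P.k) (l : ℝ) : H P i (P.vertex i + l * dir P i) = 0 := by
  rw [H_add, H_vertex, tr_dir]; ring

theorem K_line (i : ZMod P.k) (l : ℝ) : K P i (P.vertex i + l * dir P i) = l := by
  unfold K
  have h : ‖dir P i‖ ^ 2 ≠ 0 := pow_ne_zero _ (norm_ne_zero_iff.2 (dir_ne i))
  have : (P.vertex i + l * dir P i - P.vertex i) * conj (dir P i) =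
      ((l * ‖dir P i‖ ^ 2 : ℝ) : ℂ) := by
    rw [add_sub_cancel_left, mul_assoc, Complex.mul_conj, Complex.normSq_eq_norm_sq]
    push_cast; ring
  rw [this, Complex.ofReal_re, mul_div_assoc, div_self h, mul_one]

/-- Every point on the line of side `i` is determined by its coordinate. -/
theorem eq_line {i : ZMod P.k} {z : ℂ} (h : H P i z = 0) : z = P.vertex i + K P i z * dir P i := by
  have hd := dir_ne i
  have hc : conj (dir P i) ≠ 0 := (map_ne_zero _).2 hd
  have hn : (‖dir P i‖ : ℂ) ^ 2 ≠ 0 := by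
    exact_mod_cast pow_ne_zero 2 (norm_ne_zero_iff.2 hd)
  have h1 : (z - P.vertex i) * conj (dir P i) = ((K P i z * ‖dir P i‖ ^ 2 : ℝ) : ℂ) := by
    apply Complex.ext
    · rw [Complex.ofReal_re]
      unfold K
      have : ‖dir P i‖ ^ 2 ≠ 0 := pow_ne_zero _ (norm_ne_zero_iff.2 hd)
      field_simp
    · rw [Complex.ofReal_im]; exact h
  have h2 : (dir P i) * conj (dir P i) = (‖dir P i‖ : ℂ) ^ 2 := by
    rw [Complex.mul_conj, Complex.normSq_eq_norm_sq]; push_cast; ring
  have h3 : (z - P.vertex i) * conj (dir P i) = (K P i z * dir P i) * conj (dir P i) := by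
    rw [h1, mul_assoc, h2]; push_cast; ring
  have h4 := mul_right_cancel₀ hc h3
  rw [← h4]; ring

theorem mem_rel_iff' {i : ZMod P.k} {z : ℂ} :
    z ∈ rel P i ↔ H P i z = 0 ∧ 0 < K P i z ∧ K P i z < 1 := by
  rw [mem_rel_iff]
  constructor
  · rintro ⟨l, h0, h1, rfl⟩
    exact ⟨H_line i l, by rwa [K_line], by rwa [K_line]⟩
  · rintro ⟨h0, h1, h2⟩
    exact ⟨K P i z, h1, h2, eq_line h0⟩

theorem H_of_mem_side {i : ZMod P.k} {z : ℂ} (h : z ∈ sideOf P.vertex i) : H P i z = 0 := by
  obtain ⟨l, _, _, rfl⟩ := mem_side_iff.1 h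
  exact H_line i l

theorem H_of_mem_rel {i : ZMod P.k} {z : ℂ} (h : z ∈ rel P i) : H P i z = 0 :=
  (mem_rel_iff'.1 h).1

theorem vertex_not_mem_rel_left (i : ZMod P.k) : P.vertex i ∉ rel P i := by
  intro h
  have := (mem_rel_iff'.1 h).2.1
  simp [K] at this

theorem vertex_succ_eq (i : ZMod P.k) : P.vertex (i + 1) = P.vertex i + (1 : ℝ) * dir P i := by
  unfold dir; push_cast; ring

theorem vertex_not_mem_rel_right (i : ZMod P.k) : P.vertex (i + 1) ∉ rel P i := by
  intro h
  have := (mem_rel_iff'.1 h).2.2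
  rw [vertex_succ_eq, K_line] at this
  exact lt_irrefl _ this

theorem rel_inter_side {i j : ZMod P.k} (hij : j ≠ i) {z : ℂ} (hz : z ∈ rel P i) :
    z ∉ sideOf P.vertex j := by
  intro hj
  have hi := rel_subset_side i hz
  by_cases h1 : j = i + 1
  · subst h1
    have : z ∈ sideOf P.vertex i ∩ sideOf P.vertex (i + 1) := ⟨hi, hj⟩
    rw [P.inter_next i] at this
    rw [mem_singleton_iff.1 this] at hz
    exact vertex_not_mem_rel_right i hz
  · by_cases h2 : i = j + 1
    · subst h2
      have : z ∈ sideOf P.vertex j ∩ sideOf P.vertex (j + 1) := ⟨hj, hi⟩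
      rw [P.inter_next j] at this
      rw [mem_singleton_iff.1 this] at hz
      exact vertex_not_mem_rel_left _ hz
    · have : z ∈ sideOf P.vertex i ∩ sideOf P.vertex j := ⟨hi, hj⟩
      rw [P.inter_other i j hij h1 h2] at this
      exact this

theorem rel_unique {i j : ZMod P.k} {z : ℂ} (hi : z ∈ rel P i) (hj : z ∈ rel P j) : i = j := by
  by_contra h
  exact rel_inter_side (fun e => h e.symm) hi (rel_subset_side j hj)

/-- No vertex lies on an open side. -/
theorem vertex_not_mem_rel (i j : ZMod P.k) : P.vertex j ∉ rel P i := by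
  intro h
  by_cases hij : j = i
  · subst hij; exact vertex_not_mem_rel_left _ h
  · exact rel_inter_side hij h (vertex_mem_side j)

/-- A boundary point which is not a vertex lies on an open side. -/
theorem exists_rel_of_Gam {z : ℂ} (h : z ∈ Gam P) (hv : ∀ j, z ≠ P.vertex j) :
    ∃ i, z ∈ rel P i := by
  obtain ⟨i, hi⟩ := mem_Gam_iff.1 h
  obtain ⟨l, h0, h1, rfl⟩ := mem_side_iff.1 hi
  refine ⟨i, mem_rel_iff.2 ⟨l, lt_of_le_of_ne h0 ?_, lt_of_le_of_ne h1 ?_, rfl⟩⟩
  · rintro rfl
    exact hv i (by simp)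
  · rintro rfl
    exact hv (i + 1) (by rw [vertex_succ_eq])

/-! ### Reflections in sides -/

theorem refl_add (i : ZMod P.k) (z u : ℂ) (t : ℝ) :
    refl P i (z + t * u) = refl P i z + t * lrefl P i u := by
  unfold refl lrefl
  have : z + t * u - P.vertex i = (z - P.vertex i) + t * u := by ring
  rw [this, rd_add, rd_real_mul]; ring

theorem refl_add' (i : ZMod P.k) (z u : ℂ) :
    refl P i (z + u) = refl P i z + lrefl P i u := by
  have := refl_add i z u 1
  simpa using this

theorem refl_refl (i : ZMod P.k) (z : ℂ) : refl P i (refl P i z) = z := by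
  unfold refl
  rw [add_sub_cancel_left, rd_rd (dir_ne i)]; ring

theorem lrefl_lrefl (i : ZMod P.k) (z : ℂ) : lrefl P i (lrefl P i z) = z := rd_rd (dir_ne i) z

theorem norm_lrefl (i : ZMod P.k) (z : ℂ) : ‖lrefl P i z‖ = ‖z‖ := norm_rd (dir_ne i) z

theorem lrefl_ne_zero (i : ZMod P.k) {z : ℂ} (h : z ≠ 0) : lrefl P i z ≠ 0 :=
  rd_ne_zero (dir_ne i) h

theorem dist_refl (i : ZMod P.k) (z w : ℂ) : dist (refl P i z) (refl P i w) = dist z w := by
  rw [dist_eq_norm, dist_eq_norm]
  unfold refl
  rw [add_sub_add_left_eq_sub, ← rd_sub, norm_rd (dir_ne i)]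
  congr 1; ring

theorem tr_lrefl (i : ZMod P.k) (u : ℂ) : tr P i (lrefl P i u) = -tr P i u := by
  unfold tr lrefl
  rw [rd_conj (dir_ne i), Complex.conj_im]

theorem H_refl (i : ZMod P.k) (z : ℂ) : H P i (refl P i z) = -H P i z := by
  unfold H refl
  rw [add_sub_cancel_left, rd_conj (dir_ne i), Complex.conj_im]

theorem K_refl (i : ZMod P.k) (z : ℂ) : K P i (refl P i z) = K P i z := by
  unfold K refl
  rw [add_sub_cancel_left, rd_conj (dir_ne i), Complex.conj_re]

theorem refl_fix {i : ZMod P.k} {z : ℂ} (h : H P i z = 0) : refl P i z = z := by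
  have h1 : H P i (refl P i z) = 0 := by rw [H_refl, h, neg_zero]
  have h2 := eq_line h1
  rw [K_refl] at h2
  rw [h2, ← eq_line h]

theorem continuous_refl (i : ZMod P.k) : Continuous (refl P i) := by
  unfold refl
  exact continuous_const.add ((continuous_rd _).comp (continuous_id.sub continuous_const))

theorem continuous_lrefl (i : ZMod P.k) : Continuous (lrefl P i) := continuous_rd _

theorem continuous_H (i : ZMod P.k) : Continuous (H P i) := by
  unfold H; fun_prop

theorem continuous_K (i : ZMod P.k) : Continuous (K P i) := by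
  unfold K; fun_prop

theorem continuous_tr (i : ZMod P.k) : Continuous (tr P i) := by
  unfold tr; fun_prop

/-! ### Local structure near a point of an open side -/

theorem exists_ball {i : ZMod P.k} {x : ℂ} (hx : x ∈ rel P i) :
    ∃ r > 0, ∀ z ∈ ball x r, z ∈ Gam P → H P i z = 0 := by
  have h1 : ∀ j : ZMod P.k, ∃ r > 0, j ≠ i → ∀ z ∈ ball x r, z ∉ sideOf P.vertex j := by
    intro j
    by_cases hj : j = i
    · exact ⟨1, one_pos, fun h => absurd hj h⟩
    · have : (sideOf P.vertex j)ᶜ ∈ 𝓝 x :=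
        (side_closed j).isOpen_compl.mem_nhds (rel_inter_side hj hx)
      obtain ⟨r, hr, hb⟩ := Metric.mem_nhds_iff.1 this
      exact ⟨r, hr, fun _ z hz => hb hz⟩
  choose r hr hrj using h1
  obtain ⟨j₀, hj₀⟩ := Finite.exists_min r
  refine ⟨r j₀, hr j₀, fun z hz hG => ?_⟩
  obtain ⟨j, hj⟩ := mem_Gam_iff.1 hG
  by_cases hji : j = i
  · subst hji; exact H_of_mem_side hj
  · exact absurd hj (hrj j hji z (ball_subset_ball (hj₀ j) hz))

theorem H_lineMap (i : ZMod P.k) (z w : ℂ) (a b : ℝ) (hab : a + b = 1) :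
    H P i (a • z + b • w) = a * H P i z + b * H P i w := by
  have hb : b = 1 - a := by linarith
  subst hb
  unfold H
  have : (a • z + (1 - a) • w - P.vertex i) * conj (dir P i) =
      a * ((z - P.vertex i) * conj (dir P i)) + (1 - a : ℝ) * ((w - P.vertex i) * conj (dir P i)) := by
    simp only [Complex.real_smul]; push_cast; ring
  rw [this, Complex.add_im, Complex.im_ofReal_mul, Complex.im_ofReal_mul]

theorem convex_half (i : ZMod P.k) (x : ℂ) (r s : ℝ) :
    Convex ℝ {z | z ∈ ball x r ∧ 0 < s * H P i z} := by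
  have : {z | z ∈ ball x r ∧ 0 < s * H P i z} = ball x r ∩ {z | 0 < s * H P i z} := rfl
  rw [this]
  apply (convex_ball x r).inter
  intro z hz w hw a b ha hb hab
  simp only [Set.mem_ofPred_eq] at *
  rw [H_lineMap i z w a b hab]
  have : s * (a * H P i z + b * H P i w) = a * (s * H P i z) + b * (s * H P i w) := by ring
  rw [this]
  rcases eq_or_lt_of_le ha with h | h
  · subst h; simp only [zero_add] at hab; subst hab; linarith
  · have := mul_pos h hz
    have := mul_nonneg hb hw.le
    linarith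

/-- Half discs at an open side: if one point is inside, all points on the same side are. -/
theorem half_disc {i : ZMod P.k} {x : ℂ} (hx : x ∈ rel P i) :
    ∃ r > 0, ∀ z ∈ ball x r, ∀ w ∈ ball x r, z ∈ U P → 0 < H P i z * H P i w → w ∈ U P := by
  obtain ⟨r, hr, h⟩ := exists_ball hx
  refine ⟨r, hr, fun z hz w hw hzU hpos => ?_⟩
  have hz0 : H P i z ≠ 0 := fun h0 => by rw [h0, zero_mul] at hpos; exact lt_irrefl _ hpos
  have hsub := subset_U (P := P) (convex_half i x r (H P i z)).isPreconnected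
    (fun y hy hG => by
      have := h y hy.1 hG
      have h2 := hy.2
      rw [this, mul_zero] at h2
      exact lt_irrefl _ h2)
    ⟨z, ⟨hz, mul_self_pos.2 hz0⟩, hzU⟩
  exact hsub ⟨hw, hpos⟩

end Pool.Agent.Lib_helper45.Bil
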