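import Pool.Agent.Lib_helper45.Bil.Length

/-!
# Billiards in polygons: packing of beams in the space of lines
-/

open Set Filter Topology Metric MeasureTheory
open scoped ComplexConjugate ENNReal

namespace Pool.Agent.Lib_helper45.Bil

open Pool.Agent.Billiard

variable {P : Polygon}

/-- Linear isometry of the reflection. -/
noncomputable def lreflE (P : Polygon) (b : ZMod P.k) : ℂ ≃ₗᵢ[ℝ] ℂ :=
  Complex.conjLIE.trans (rotation ⟨dir P b / conj (dir P b), by
    have : ‖dir P b‖ ≠ 0 := norm_ne_zero_iff.2 (dir_ne b)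
    apply mem_sphere_zero_iff_norm.2
    rw [norm_div, RCLike.norm_conj, div_self this]⟩)

theorem lreflE_apply (b : ZMod P.k) (x : ℂ) : lreflE P b x = lrefl P b x := by
  simp only [lreflE, lrefl, reflectDir, LinearIsometryEquiv.trans_apply, Complex.conjLIE_apply,
    rotation_apply]
  ring

theorem lrefl_mp (b : ZMod P.k) : MeasurePreserving (lrefl P b) := by
  have h : lrefl P b = lreflE P b := funext fun x => (lreflE_apply b x).symm
  rw [h]
  exact (lreflE P b).measurePreserving

/-- Coordinates of a line: velocity and angular momentum. -/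
noncomputable def pt (z u : ℂ) : ℂ × ℝ := (u, (z * conj u).im)

variable (P) in
/-- Action of the reflection on lines. -/
noncomputable def L (a : ZMod P.k) (p : ℂ × ℝ) : ℂ × ℝ :=
  (lrefl P a p.1, -p.2 + ((P.vertex a * conj p.1).im + (P.vertex a * conj (lrefl P a p.1)).im))

theorem lrefl_conj (a : ZMod P.k) (x y : ℂ) :
    lrefl P a x * conj (lrefl P a y) = conj (x * conj y) := by
  have h1 : dir P a ≠ 0 := dir_ne a
  have h2 : conj (dir P a) ≠ 0 := (map_ne_zero _).2 h1
  unfold lrefl reflectDir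
  simp only [map_mul, map_div₀, Complex.conj_conj]
  field_simp

theorem L_pt (a : ZMod P.k) (z u : ℂ) : L P a (pt z u) = pt (refl P a z) (lrefl P a u) := by
  unfold L pt
  refine Prod.ext rfl ?_
  simp only
  have h1 : refl P a z * conj (lrefl P a u) =
      P.vertex a * conj (lrefl P a u) + conj ((z - P.vertex a) * conj u) := by
    rw [← lrefl_conj a]
    unfold refl lrefl; ring
  rw [h1, Complex.add_im, Complex.conj_im, sub_mul, Complex.sub_im]
  ring

theorem L_L (a : ZMod P.k) (p : ℂ × ℝ) : L P a (L P a p) = p := by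
  unfold L
  refine Prod.ext (lrefl_lrefl a _) ?_
  simp only [lrefl_lrefl]
  ring

theorem continuous_L (a : ZMod P.k) : Continuous (L P a) := by
  unfold L
  have := continuous_lrefl (P := P) a
  fun_prop

theorem L_mp (a : ZMod P.k) : MeasurePreserving (L P a) := by
  have hc := continuous_lrefl (P := P) a
  have h : MeasurePreserving (fun p : ℂ × ℝ => (lrefl P a p.1,
      (fun (u : ℂ) (m : ℝ) => -m + ((P.vertex a * conj u).im +
        (P.vertex a * conj (lrefl P a u)).im)) p.1 p.2))
      ((volume : Measure ℂ).prod (volume : Measure ℝ))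
      ((volume : Measure ℂ).prod (volume : Measure ℝ)) := by
    refine MeasurePreserving.skew_product (μa := (volume : Measure ℂ))
      (μc := (volume : Measure ℝ)) (μb := (volume : Measure ℂ)) (μd := (volume : Measure ℝ))
      (f := lrefl P a)
      (g := fun (u : ℂ) (m : ℝ) => -m + ((P.vertex a * conj u).im +
        (P.vertex a * conj (lrefl P a u)).im)) (lrefl_mp a) ?_ ?_
    · apply Continuous.measurable
      unfold Function.uncurry
      fun_prop
    · refine Filter.Eventually.of_forall fun u => ?_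
      have h1 : MeasurePreserving (fun m : ℝ => -m) volume volume := Measure.measurePreserving_neg _
      have h2 := measurePreserving_add_right (volume : Measure ℝ)
        ((P.vertex a * conj u).im + (P.vertex a * conj (lrefl P a u)).im)
      exact (h2.comp h1).map_eq
  exact h

variable (P) in
/-- Successive reflections. -/
noncomputable def fold : List (ZMod P.k) → ℂ × ℝ → ℂ × ℝ
  | [], p => p
  | a :: W, p => fold W (L P a p)

variable (P) in
noncomputable def unfold' : List (ZMod P.k) → ℂ × ℝ → ℂ × ℝ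
  | [], p => p
  | a :: W, p => L P a (unfold' W p)

variable (P) in
noncomputable def foldz : List (ZMod P.k) → ℂ → ℂ
  | [], z => z
  | a :: W, z => foldz W (refl P a z)

variable (P) in
noncomputable def foldu : List (ZMod P.k) → ℂ → ℂ
  | [], u => u
  | a :: W, u => foldu W (lrefl P a u)

theorem unfold_fold (W : List (ZMod P.k)) : ∀ p, unfold' P W (fold P W p) = p := by
  induction W with
  | nil => intro p; rfl
  | cons a W ih => intro p; simp only [unfold', fold]; rw [ih, L_L]

theorem fold_unfold (W : List (ZMod P.k)) : ∀ p, fold P W (unfold' P W p) = p := by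
  induction W with
  | nil => intro p; rfl
  | cons a W ih => intro p; simp only [unfold', fold]; rw [L_L, ih]

theorem unfold_mp (W : List (ZMod P.k)) : MeasurePreserving (unfold' P W) := by
  induction W with
  | nil => exact MeasurePreserving.id _
  | cons a W ih => exact (L_mp a).comp ih

theorem fold_image (W : List (ZMod P.k)) (E : Set (ℂ × ℝ)) :
    fold P W '' E = unfold' P W ⁻¹' E := by
  ext p
  constructor
  · rintro ⟨q, hq, rfl⟩
    rw [mem_preimage, unfold_fold]; exact hq
  · intro hp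
    exact ⟨_, hp, fold_unfold W p⟩

theorem fold_inj (W : List (ZMod P.k)) {p q : ℂ × ℝ} (h : fold P W p = fold P W q) : p = q := by
  rw [← unfold_fold W p, h, unfold_fold]

theorem fold_append (W V : List (ZMod P.k)) : ∀ p, fold P (W ++ V) p = fold P V (fold P W p) := by
  induction W with
  | nil => intro p; rfl
  | cons a W ih => intro p; exact ih _

theorem fold_pt (W : List (ZMod P.k)) : ∀ z u, fold P W (pt z u) = pt (foldz P W z) (foldu P W u) := by
  induction W with
  | nil => intro z u; rfl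
  | cons a W ih => intro z u; simp only [fold, foldz, foldu]; rw [L_pt, ih]

theorem norm_foldu (W : List (ZMod P.k)) : ∀ u, ‖foldu P W u‖ = ‖u‖ := by
  induction W with
  | nil => intro u; rfl
  | cons a W ih => intro u; simp only [foldu]; rw [ih, norm_lrefl]

theorem foldz_add (W : List (ZMod P.k)) : ∀ z w, foldz P W (z + w) = foldz P W z + foldu P W w := by
  induction W with
  | nil => intro z w; rfl
  | cons a W ih => intro z w; simp only [foldz, foldu]; rw [refl_add', ih]

theorem foldu_I (W : List (ZMod P.k)) : ∀ (σ : ℝ) (u : ℂ),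
    foldu P W (Complex.I * σ * u) =
      Complex.I * (((-1) ^ W.length * σ : ℝ) : ℂ) * foldu P W u := by
  induction W with
  | nil => intro σ u; simp [foldu]
  | cons a W ih =>
    intro σ u
    simp only [foldu, List.length_cons]
    have h : lrefl P a (Complex.I * σ * u) = Complex.I * ((-σ : ℝ) : ℂ) * lrefl P a u := by
      rw [lrefl_mul]; simp
    rw [h, ih]
    congr 2
    push_cast; ring

/-! ### Chords -/

variable (P) in
/-- The line `p` has a chord from side `a` to side `b`. -/
def Chord (a b : ZMod P.k) (p : ℂ × ℝ) : Prop :=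
  ∃ x ∈ rel P a, ∃ T : ℝ, 0 < T ∧ (x * conj p.1).im = p.2 ∧ x + T * p.1 ∈ rel P b ∧
    ∀ τ ∈ Ioo 0 T, x + τ * p.1 ∈ U P

theorem line_eq {b : ZMod P.k} {u x y : ℂ} (htr : tr P b u ≠ 0) (hx : H P b x = 0)
    (hy : H P b y = 0) (hm : (x * conj u).im = (y * conj u).im) : x = y := by
  have hu : u ≠ 0 := by rintro rfl; simp [tr] at htr
  have h1 : (u * conj (x - y)).im = 0 := by
    rw [cross_swap, sub_mul, Complex.sub_im, hm]; ring
  obtain ⟨l, hl⟩ := parallel_of_cross hu h1
  have h2 : x = y + l * u := by rw [← hl]; ring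
  rw [h2, H_add, hy, zero_add] at hx
  rcases mul_eq_zero.1 hx with h | h
  · rw [h2, h]; simp
  · exact absurd h htr

theorem Chord.tr_ne {b : ZMod P.k} {x u : ℂ} {T : ℝ} (hT : 0 < T) (hy : x + T * u ∈ rel P b)
    (hU : ∀ τ ∈ Ioo 0 T, x + τ * u ∈ U P) : tr P b u ≠ 0 :=
  transversal (t₁ := T / 2) (by linarith) hy fun τ hτ => hU τ ⟨by linarith [hτ.1], hτ.2⟩

theorem Chord.unique {a a' b : ZMod P.k} {p : ℂ × ℝ} (h : Chord P a b p) (h' : Chord P a' b p) :
    a = a' := by
  obtain ⟨x, hx, T, hT, hm, hy, hU⟩ := h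
  obtain ⟨x', hx', T', hT', hm', hy', hU'⟩ := h'
  have htr := Chord.tr_ne hT hy hU
  have e : ∀ (x : ℂ) (T : ℝ), ((x + T * p.1) * conj p.1).im = (x * conj p.1).im := by
    intro x T
    rw [add_mul, Complex.add_im, cross_self', add_zero]
  have hyy : x + T * p.1 = x' + T' * p.1 :=
    line_eq htr (H_of_mem_rel hy) (H_of_mem_rel hy') (by rw [e, e, hm, hm'])
  rcases lt_trichotomy T T' with hlt | heq | hlt
  · exfalso
    have h1 : x = x' + ((T' - T : ℝ) : ℂ) * p.1 := by push_cast; linear_combination hyy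
    rw [h1] at hx
    exact not_mem_U_of_Gam (rel_subset_Gam a hx) (hU' _ ⟨by linarith, by linarith⟩)
  · subst heq
    have h1 : x = x' := add_right_cancel hyy
    subst h1
    exact rel_unique hx hx'
  · exfalso
    have h1 : x' = x + ((T - T' : ℝ) : ℂ) * p.1 := by push_cast; linear_combination -hyy
    rw [h1] at hx'
    exact not_mem_U_of_Gam (rel_subset_Gam a' hx') (hU _ ⟨by linarith, by linarith⟩)

variable (P) in
/-- Backward chain of chords. -/
def Chn : List (ZMod P.k) → ℂ × ℝ → Prop
  | [], _ => True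
  | [_], _ => True
  | c :: c' :: V, p => Chord P c' c (L P c p) ∧ Chn (c' :: V) (L P c p)

theorem Chn.compare : ∀ (V V' : List (ZMod P.k)) (c : ZMod P.k) (p : ℂ × ℝ), Chn P (c :: V) p →
    Chn P (c :: V') p → V <+: V' ∨ V' <+: V := by
  intro V
  induction V with
  | nil => intro V' c p _ _; exact Or.inl (List.nil_prefix)
  | cons a V ih =>
    intro V' c p h h'
    cases V' with
    | nil => exact Or.inr (List.nil_prefix)
    | cons a' V' =>
      obtain ⟨h1, h2⟩ := h
      obtain ⟨h1', h2'⟩ := h'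
      have haa := h1.unique h1'
      subst haa
      rcases ih V' a _ h2 h2' with h | h
      · exact Or.inl ((List.prefix_cons_inj _).2 h)
      · exact Or.inr ((List.prefix_cons_inj _).2 h)

theorem chain_of_path : ∀ (W : List (ZMod P.k)) (z u : ℂ) (t : ℝ) (c : ZMod P.k)
    (V : List (ZMod P.k)), z + t * u ∈ rel P c → Chn P (c :: V) (pt z u) → Path P z u t W →
    Chn P (W.reverse ++ c :: V) (fold P W (pt z u)) := by
  intro W
  induction W with
  | nil => intro z u t c V _ h _; exact h
  | cons a W ih =>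
    rintro z u t c V hc h ⟨t', ht, hU, ha, hp⟩
    have h1 : Chord P c a (pt z u) := by
      refine ⟨z + t * u, hc, t' - t, by linarith, ?_, ?_, fun τ hτ => ?_⟩
      · show ((z + t * u) * conj u).im = (z * conj u).im
        rw [add_mul, Complex.add_im, cross_self', add_zero]
      · show z + t * u + ((t' - t : ℝ) : ℂ) * u ∈ rel P a
        have : z + t * u + ((t' - t : ℝ) : ℂ) * u = z + t' * u := by push_cast; ring
        rw [this]; exact ha
      · show z + t * u + (τ : ℂ) * u ∈ U P
        have : z + t * u + (τ : ℂ) * u = z + ((t + τ : ℝ) : ℂ) * u := by push_cast; ring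
        rw [this]; exact hU _ ⟨by linarith [hτ.1], by linarith [hτ.2]⟩
    have h2 : Chn P (a :: c :: V) (pt (refl P a z) (lrefl P a u)) := by
      rw [← L_pt]
      refine ⟨?_, ?_⟩
      · rw [L_L]; exact h1
      · rw [L_L]; exact h
    have h3 : refl P a z + t' * lrefl P a u ∈ rel P a := by rw [refl_line ha]; exact ha
    have h4 := ih _ _ t' a (c :: V) h3 h2 hp
    rw [List.reverse_cons, List.append_assoc]
    simp only [fold, List.singleton_append]
    rw [L_pt]
    exact h4

/-- The crossing with an intermediate side, in the folded frame. -/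
theorem path_mid : ∀ (W : List (ZMod P.k)) (R : List (ZMod P.k)) (b : ZMod P.k) (z u : ℂ) (t : ℝ),
    Path P z u t (W ++ b :: R) → ∃ T : ℝ, foldz P W z + T * foldu P W u ∈ rel P b ∧
      tr P b (foldu P W u) ≠ 0 := by
  intro W
  induction W with
  | nil =>
    rintro R b z u t ⟨t', ht, hU, hb, _⟩
    refine ⟨t', hb, transversal (t₁ := (t + t') / 2) (by linarith) hb fun τ hτ => ?_⟩
    exact hU τ ⟨by linarith [hτ.1], hτ.2⟩
  | cons a W ih =>
    rintro R b z u t ⟨t', _, _, _, hp⟩
    exact ih R b _ _ t' hp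

/-- Data of a family of uncut beams. -/
structure Beams (C : Corner P) (n : ℕ) (ω τ₀ : ℝ) (B : Set ℂ) : Prop where
  hω : 0 < ω
  meas : MeasurableSet B
  norm_lt : ∀ u ∈ B, 1 < ‖u‖ ∧ ‖u‖ < 2
  start : ∀ u ∈ B, C.v + τ₀ * u ∈ U P
  code : ∀ u ∈ B, ∃ X : List (ZMod P.k), X.length = n ∧ ∀ σ ∈ Ioo (-ω) ω,
    Path P (C.v + (Complex.I * σ) * u) u τ₀ X
  enter : ∀ u ∈ B, ∀ σ ∈ Ioo 0 (ω / 2), ∃ t < τ₀,
    C.v + (Complex.I * σ) * u + t * u ∈ rel P C.b ∧
    ∀ τ ∈ Ioc t τ₀, C.v + (Complex.I * σ) * u + τ * u ∈ U P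

/-- Lines of the beams whose code starts with `W`. -/
def E (C : Corner P) (ω τ₀ : ℝ) (B : Set ℂ) (W : List (ZMod P.k)) : Set (ℂ × ℝ) :=
  {p | (p.1 ∈ B ∧ Path P C.v p.1 τ₀ W) ∧
    0 < p.2 - (C.v * conj p.1).im ∧ p.2 - (C.v * conj p.1).im < ω / 2}

theorem pt_offset (v u : ℂ) (σ : ℝ) :
    pt (v + (Complex.I * σ) * u) u = (u, (v * conj u).im + σ * ‖u‖ ^ 2) := by
  unfold pt
  refine Prod.ext rfl ?_
  simp only
  have h : (v + (Complex.I * σ) * u) * conj u = v * conj u + Complex.I * ((σ * ‖u‖ ^ 2 : ℝ) : ℂ) := by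
    have h2 : u * conj u = ((‖u‖ ^ 2 : ℝ) : ℂ) := by
      rw [Complex.mul_conj, Complex.normSq_eq_norm_sq]
    rw [add_mul, mul_assoc _ u, h2]; push_cast; ring
  rw [h, Complex.add_im, Complex.I_mul_im, Complex.ofReal_re]

/-- Unpack a member of `E`. -/
theorem E_unpack {C : Corner P} {n : ℕ} {ω τ₀ : ℝ} {B : Set ℂ} (hB : Beams C n ω τ₀ B)
    {W : List (ZMod P.k)} (hW : W.length ≤ n) {p : ℂ × ℝ} (hp : p ∈ E C ω τ₀ B W) :
    ∃ σ ∈ Ioo 0 (ω / 2), p = pt (C.v + (Complex.I * σ) * p.1) p.1 ∧
      (∀ σ' ∈ Ioo (-ω) ω, Path P (C.v + (Complex.I * σ') * p.1) p.1 τ₀ W) := by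
  obtain ⟨⟨hpB, hpW⟩, h1, h2⟩ := hp
  obtain ⟨hn1, hn2⟩ := hB.norm_lt _ hpB
  have hsq : 1 < ‖p.1‖ ^ 2 := by nlinarith
  refine ⟨(p.2 - (C.v * conj p.1).im) / ‖p.1‖ ^ 2, ⟨by positivity, ?_⟩, ?_, ?_⟩
  · rw [div_lt_iff₀ (by linarith)]
    have := hB.hω
    nlinarith
  · rw [pt_offset]
    refine Prod.ext rfl ?_
    simp only
    field_simp
    ring
  · obtain ⟨X, hX, hXp⟩ := hB.code _ hpB
    have h0 := hXp 0 ⟨by linarith [hB.hω], hB.hω⟩
    simp only [Complex.ofReal_zero, mul_zero, zero_mul, add_zero] at h0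
    have h3 : Path P C.v p.1 τ₀ (X.take W.length) := by
      apply Path.pre (v := X.drop W.length)
      rw [List.take_append_drop]; exact h0
    have h4 : X.take W.length = W := by
      apply Path.unique h3 hpW
      rw [List.length_take, hX]
      exact min_eq_left hW
    intro σ' hσ'
    have h5 := hXp σ' hσ'
    rw [← List.take_append_drop W.length X, h4] at h5
    exact h5.pre

theorem H_b_v (C : Corner P) : H P C.b C.v = 0 := by
  have h1 := H_of_mem_rel (C.hb (1 / 2) (by norm_num) (by norm_num))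
  have h2 := H_of_mem_rel (C.hb (1 / 4) (by norm_num) (by norm_num))
  rw [H_add] at h1 h2
  unfold Corner.v
  linarith

/-- Beams with different codes never occupy the same line at the same side. -/
theorem E_disjoint_aux {C : Corner P} {n : ℕ} {ω τ₀ : ℝ} {B : Set ℂ} (hB : Beams C n ω τ₀ B)
    {W W' : List (ZMod P.k)} {c : ZMod P.k} (hW : W.length ≤ n) (hW' : W'.length ≤ n)
    (hc : W.getLast? = some c) (hc' : W'.getLast? = some c) (hne : W ≠ W')
    (hle : W.length ≤ W'.length)
    {p q : ℂ × ℝ} (hp : p ∈ E C ω τ₀ B W) (hq : q ∈ E C ω τ₀ B W')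
    (h : fold P W p = fold P W' q) : False := by
  obtain ⟨σ, hσ, hpe, hpath⟩ := E_unpack hB hW hp
  obtain ⟨σ', hσ', hqe, hpath'⟩ := E_unpack hB hW' hq
  have hω := hB.hω
  have hσω : σ ∈ Ioo (-ω) ω := ⟨by linarith [hσ.1], by linarith [hσ.2]⟩
  have hσω' : σ' ∈ Ioo (-ω) ω := ⟨by linarith [hσ'.1], by linarith [hσ'.2]⟩
  set u := p.1 with hu
  set u' := q.1 with hu'
  -- the two backward chains
  obtain ⟨t, ht, hb, hbU⟩ := hB.enter u hp.1.1 σ hσ
  obtain ⟨t', ht', hb', hbU'⟩ := hB.enter u' hq.1.1 σ' hσ'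
  have hP1 : Path P (C.v + (Complex.I * σ) * u) u t W :=
    (hpath σ hσω).start_earlier ht.le hbU
  have hP2 : Path P (C.v + (Complex.I * σ') * u') u' t' W' :=
    (hpath' σ' hσω').start_earlier ht'.le hbU'
  have hC1 := chain_of_path W _ u t C.b [] hb trivial hP1
  have hC2 := chain_of_path W' _ u' t' C.b [] hb' trivial hP2
  rw [← hpe] at hC1
  rw [← hqe, ← h] at hC2
  obtain ⟨W₁, rfl⟩ : ∃ W₁, W = W₁ ++ [c] := List.getLast?_eq_some_iff.1 hc
  obtain ⟨W₁', rfl⟩ : ∃ W₁', W' = W₁' ++ [c] := List.getLast?_eq_some_iff.1 hc'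
  rw [List.reverse_append, List.reverse_singleton, List.singleton_append, List.cons_append] at hC1 hC2
  have hlen : W₁.length ≤ W₁'.length := by simpa using hle
  have hpre : (W₁.reverse ++ [C.b]) <+: (W₁'.reverse ++ [C.b]) := by
    rcases Chn.compare _ _ c _ hC1 hC2 with h1 | h1
    · exact h1
    · have h2 := h1.length_le
      have h3 : (W₁'.reverse ++ [C.b]).length = (W₁.reverse ++ [C.b]).length := by
        simp at h2 ⊢; omega
      rw [h1.eq_of_length h3]
  have hlt : W₁.length < W₁'.length := by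
    rcases hlen.lt_or_eq with h1 | h1
    · exact h1
    · exfalso
      have h2 := hpre.eq_of_length (by simp [h1])
      have h3 := List.append_cancel_right h2
      apply hne
      rw [List.reverse_inj.1 h3]
  have hpre2 : (W₁.reverse ++ [C.b]) <+: W₁'.reverse := by
    obtain ⟨R, hR⟩ := hpre
    have h1 : (W₁.reverse ++ [C.b]) <+: (W₁'.reverse ++ [C.b]) := ⟨R, hR⟩
    have h2 : W₁'.reverse <+: (W₁'.reverse ++ [C.b]) := ⟨[C.b], rfl⟩
    exact List.prefix_of_prefix_length_le h1 h2 (by simp; omega)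
  obtain ⟨R, hR⟩ := hpre2
  have hW₁' : W₁' = R.reverse ++ C.b :: W₁ := by
    have := congrArg List.reverse hR
    rw [List.reverse_reverse, List.reverse_append, List.reverse_append, List.reverse_reverse,
      List.reverse_singleton, List.singleton_append] at this
    exact this.symm
  set V := R.reverse with hV
  -- compare the lines
  have hsplit : W₁' ++ [c] = (V ++ [C.b]) ++ (W₁ ++ [c]) := by rw [hW₁']; simp
  have h0 : fold P (W₁ ++ [c]) p = fold P (W₁ ++ [c]) (fold P (V ++ [C.b]) q) := by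
    rw [h, hsplit]; exact fold_append _ _ _
  have h1 : p = fold P (V ++ [C.b]) q := fold_inj _ h0
  rw [fold_append] at h1
  have h2 : L P C.b p = fold P V q := by
    have : fold P [C.b] (fold P V q) = L P C.b (fold P V q) := rfl
    rw [h1, this, L_L]
  rw [hpe, hqe, L_pt, fold_pt] at h2
  -- velocity
  have hvel : lrefl P C.b u = foldu P V u' := congrArg Prod.fst h2
  set w := foldu P V u' with hw
  have hmom : (refl P C.b (C.v + (Complex.I * σ) * u) * conj (lrefl P C.b u)).im =
      (foldz P V (C.v + (Complex.I * σ') * u') * conj w).im := congrArg Prod.snd h2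
  have hbv : refl P C.b C.v = C.v := refl_fix (H_b_v C)
  have hr1 : refl P C.b (C.v + (Complex.I * σ) * u) = C.v + (Complex.I * ((-σ : ℝ) : ℂ)) * w := by
    rw [refl_add', hbv, lrefl_mul, hvel]; simp
  set s : ℝ := (-1) ^ V.length with hs
  have hss : s * s = 1 := by
    rw [hs, ← pow_add, ← two_mul, pow_mul]; norm_num
  have hr2 : ∀ y : ℝ, foldz P V (C.v + (Complex.I * y) * u') =
      foldz P V C.v + (Complex.I * ((s * y : ℝ) : ℂ)) * w := by
    intro y
    rw [foldz_add, foldu_I]
  have hoff : ∀ (a : ℂ) (y : ℝ), ((a + (Complex.I * (y : ℂ)) * w) * conj w).im =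
      (a * conj w).im + y * ‖w‖ ^ 2 := fun a y => congrArg Prod.snd (pt_offset a w y)
  rw [hr1, hr2, hvel, hoff, hoff] at hmom
  -- the line of the second beam through the corner
  set y := σ' + s * σ with hy
  have hsabs : s = 1 ∨ s = -1 := by
    have : (s - 1) * (s + 1) = 0 := by linarith
    rcases mul_eq_zero.1 this with h | h
    · left; linarith
    · right; linarith
  have hyω : y ∈ Ioo (-ω) ω := by
    rcases hsabs with h | h
    · rw [hy, h]; exact ⟨by linarith [hσ.1, hσ'.1], by linarith [hσ.2, hσ'.2]⟩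
    · rw [hy, h]; exact ⟨by linarith [hσ.2, hσ'.1], by linarith [hσ.1, hσ'.2]⟩
  have hpy := hpath' y hyω
  rw [hsplit] at hpy
  have hpy' : Path P (C.v + (Complex.I * y) * u') u' τ₀ (V ++ C.b :: (W₁ ++ [c])) := by
    have : V ++ [C.b] ++ (W₁ ++ [c]) = V ++ C.b :: (W₁ ++ [c]) := by simp
    rw [this] at hpy; exact hpy
  obtain ⟨T, hT, htr⟩ := path_mid _ _ _ _ _ _ hpy'
  rw [hr2, ← hw] at hT
  rw [← hw] at htr
  have hfin : foldz P V C.v + (Complex.I * ((s * y : ℝ) : ℂ)) * w + T * w = C.v := by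
    apply line_eq htr (H_of_mem_rel hT) (H_b_v C)
    rw [add_mul _ _ (conj w), Complex.add_im, cross_self', add_zero, hoff]
    have e1 : s * y = s * σ' + σ := by rw [hy, mul_add, ← mul_assoc, hss, one_mul]
    rw [e1]
    linarith
  rw [hfin] at hT
  exact vertex_not_mem_rel C.b C.j hT

theorem E_disjoint {C : Corner P} {n : ℕ} {ω τ₀ : ℝ} {B : Set ℂ} (hB : Beams C n ω τ₀ B)
    {W W' : List (ZMod P.k)} {c : ZMod P.k} (hW : W.length ≤ n) (hW' : W'.length ≤ n)
    (hc : W.getLast? = some c) (hc' : W'.getLast? = some c) (hne : W ≠ W') :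
    Disjoint (fold P W '' E C ω τ₀ B W) (fold P W' '' E C ω τ₀ B W') := by
  rw [Set.disjoint_left]
  rintro _ ⟨p, hp, rfl⟩ ⟨q, hq, h⟩
  rcases le_total W.length W'.length with hle | hle
  · exact E_disjoint_aux hB hW hW' hc hc' hne hle hp hq h.symm
  · exact E_disjoint_aux hB hW' hW hc' hc hne.symm hle hq hp h

end Pool.Agent.Lib_helper45.Bil
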