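import Pool.Agent.Lib_helper45.Bil.Pack

/-!
# Billiards in polygons: the packing inequality
-/

open Set Filter Topology Metric MeasureTheory
open scoped ComplexConjugate ENNReal

namespace Pool.Agent.Lib_helper45.Bil

open Pool.Agent.Billiard

variable {P : Polygon}

theorem isOpen_code (v : ℂ) (τ₀ : ℝ) (W : List (ZMod P.k)) :
    IsOpen {u : ℂ | v + τ₀ * u ∈ U P ∧ Path P v u τ₀ W} := by
  rw [isOpen_iff_mem_nhds]
  rintro u ⟨hU, hp⟩
  have h1 := hp.eventually hU
  have hc : Continuous fun u : ℂ => (v, u) := by fun_prop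
  have h2 := (hc.tendsto u).eventually h1
  have hc2 : Continuous fun u : ℂ => v + τ₀ * u := by fun_prop
  have h3 := (hc2.tendsto u).eventually (isOpen_U.mem_nhds hU)
  filter_upwards [h2, h3] with x hx hy
  exact ⟨hy, hx⟩

/-- All lines of the beams. -/
def E0 (C : Corner P) (ω : ℝ) (B : Set ℂ) : Set (ℂ × ℝ) :=
  {p | p.1 ∈ B ∧ 0 < p.2 - (C.v * conj p.1).im ∧ p.2 - (C.v * conj p.1).im < ω / 2}

theorem cont_off (v : ℂ) : Continuous fun p : ℂ × ℝ => p.2 - (v * conj p.1).im := by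
  have : Continuous fun p : ℂ × ℝ => v * conj p.1 :=
    continuous_const.mul (Complex.continuous_conj.comp continuous_fst)
  exact continuous_snd.sub (Complex.continuous_im.comp this)

theorem E_meas {C : Corner P} {n : ℕ} {ω τ₀ : ℝ} {B : Set ℂ} (hB : Beams C n ω τ₀ B)
    (W : List (ZMod P.k)) : MeasurableSet (E C ω τ₀ B W) := by
  have h1 : E C ω τ₀ B W =
      ((Prod.fst ⁻¹' (B ∩ {u : ℂ | C.v + τ₀ * u ∈ U P ∧ Path P C.v u τ₀ W})) ∩
        {p | 0 < p.2 - (C.v * conj p.1).im}) ∩ {p | p.2 - (C.v * conj p.1).im < ω / 2} := by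
    ext p
    constructor
    · rintro ⟨⟨h1, h2⟩, h3, h4⟩
      exact ⟨⟨⟨h1, hB.start _ h1, h2⟩, h3⟩, h4⟩
    · rintro ⟨⟨⟨h1, _, h2⟩, h3⟩, h4⟩
      exact ⟨⟨h1, h2⟩, h3, h4⟩
  rw [h1]
  refine ((measurable_fst (hB.meas.inter (isOpen_code _ _ _).measurableSet)).inter ?_).inter ?_
  · exact (isOpen_lt continuous_const (cont_off _)).measurableSet
  · exact (isOpen_lt (cont_off _) continuous_const).measurableSet

theorem E0_meas (C : Corner P) {ω : ℝ} {B : Set ℂ} (hB : MeasurableSet B) :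
    MeasurableSet (E0 C ω B) := by
  have h1 : E0 C ω B = ((Prod.fst ⁻¹' B) ∩
        {p | 0 < p.2 - (C.v * conj p.1).im}) ∩ {p | p.2 - (C.v * conj p.1).im < ω / 2} := by
    ext p
    constructor
    · rintro ⟨h1, h3, h4⟩
      exact ⟨⟨h1, h3⟩, h4⟩
    · rintro ⟨⟨h1, h3⟩, h4⟩
      exact ⟨h1, h3, h4⟩
  rw [h1]
  refine ((measurable_fst hB).inter ?_).inter ?_
  · exact (isOpen_lt continuous_const (cont_off _)).measurableSet
  · exact (isOpen_lt (cont_off _) continuous_const).measurableSet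

theorem E0_vol (C : Corner P) {ω : ℝ} {B : Set ℂ} (hB : MeasurableSet B) :
    volume (E0 C ω B) = volume B * ENNReal.ofReal (ω / 2) := by
  rw [Measure.volume_eq_prod, Measure.prod_apply (E0_meas C hB)]
  have h : ∀ u : ℂ, volume (Prod.mk u ⁻¹' E0 C ω B) =
      B.indicator (fun _ => ENNReal.ofReal (ω / 2)) u := by
    intro u
    by_cases hu : u ∈ B
    · rw [indicator_of_mem hu]
      have : Prod.mk u ⁻¹' E0 C ω B = Ioo ((C.v * conj u).im) ((C.v * conj u).im + ω / 2) := by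
        ext m
        constructor
        · rintro ⟨_, h1, h2⟩
          simp only at h1 h2
          exact ⟨by linarith, by linarith⟩
        · rintro ⟨h1, h2⟩
          refine ⟨hu, ?_, ?_⟩
          · simp only; linarith
          · simp only; linarith
      rw [this, Real.volume_Ioo]
      congr 1; ring
    · rw [indicator_of_notMem hu]
      have : Prod.mk u ⁻¹' E0 C ω B = ∅ := by
        ext m
        constructor
        · rintro ⟨h1, _⟩; exact absurd h1 hu
        · intro h; exact absurd h (notMem_empty _)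
      rw [this, measure_empty]
  simp_rw [h]
  rw [lintegral_indicator_const hB, mul_comm]

/-- After crossing its last side the line passes through the table. -/
theorem fold_mem_box {C : Corner P} {n : ℕ} {ω τ₀ : ℝ} {B : Set ℂ} (hB : Beams C n ω τ₀ B)
    {R : ℝ} (hR : ∀ x ∈ P.region, ‖x‖ ≤ R) {W : List (ZMod P.k)} (hW : W.length ≤ n)
    (hne : W ≠ []) {p : ℂ × ℝ} (hp : p ∈ E C ω τ₀ B W) :
    fold P W p ∈ closedBall (0 : ℂ) 2 ×ˢ Icc (-(2 * R)) (2 * R) := by
  obtain ⟨σ, hσ, hpe, hpath⟩ := E_unpack hB hW hp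
  have hω := hB.hω
  have hσω : σ ∈ Ioo (-ω) ω := ⟨by linarith [hσ.1], by linarith [hσ.2]⟩
  have h1 := hpath σ hσω
  have hn := (hB.norm_lt _ hp.1.1).2
  set u := p.1 with hu
  set z := C.v + (Complex.I * σ) * u with hz
  obtain ⟨W₁, c, rfl⟩ : ∃ W₁ c, W = W₁ ++ [c] := by
    rcases List.eq_nil_or_concat W with h | ⟨L, b, h⟩
    · exact absurd h hne
    · exact ⟨L, b, by rw [h, List.concat_eq_append]⟩
  obtain ⟨T, hT, _⟩ := path_mid W₁ [] c z u τ₀ h1
  have h2 : fold P (W₁ ++ [c]) p =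
      pt (refl P c (foldz P W₁ z)) (lrefl P c (foldu P W₁ u)) := by
    rw [fold_append, hpe, fold_pt]
    exact L_pt _ _ _
  have h3 := refl_line hT
  set z' := refl P c (foldz P W₁ z) with hz'
  set u' := lrefl P c (foldu P W₁ u) with hu'
  have hnu : ‖u'‖ < 2 := by rw [hu', norm_lrefl, norm_foldu]; exact hn
  rw [h2]
  have h4 : z' + T * u' ∈ P.region := by
    rw [h3]; exact Gam_subset (rel_subset_Gam c hT)
  have h5 : (z' * conj u').im = ((z' + T * u') * conj u').im := by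
    rw [add_mul, Complex.add_im, cross_self', add_zero]
  have h6 : |(z' * conj u').im| ≤ 2 * R := by
    rw [h5]
    calc |((z' + T * u') * conj u').im| ≤ ‖(z' + T * u') * conj u'‖ := Complex.abs_im_le_norm _
      _ = ‖z' + T * u'‖ * ‖u'‖ := by rw [norm_mul, RCLike.norm_conj]
      _ ≤ R * 2 := mul_le_mul (hR _ h4) hnu.le (norm_nonneg _) ((norm_nonneg _).trans (hR _ h4))
      _ = 2 * R := mul_comm _ _
  refine ⟨?_, ?_⟩
  · rw [mem_closedBall, dist_zero_right]; exact hnu.le
  · exact abs_le.1 h6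

theorem packing (P : Polygon) : ∃ K : ℝ, 0 < K ∧ ∀ (C : Corner P) (n : ℕ) (ω τ₀ : ℝ) (B : Set ℂ),
    Beams C n ω τ₀ B → n * (volume B * ENNReal.ofReal (ω / 2)) ≤ ENNReal.ofReal K := by
  classical
  obtain ⟨R, hR⟩ := P.isCompact.isBounded.exists_norm_le
  set box : Set (ℂ × ℝ) := closedBall (0 : ℂ) 2 ×ˢ Icc (-(2 * R)) (2 * R) with hbox
  have hfin : volume box < ⊤ :=
    ((isCompact_closedBall (0 : ℂ) 2).prod isCompact_Icc).measure_lt_top
  have hfin2 : (P.k : ℝ≥0∞) * volume box < ⊤ :=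
    ENNReal.mul_lt_top (ENNReal.natCast_lt_top _) hfin
  refine ⟨((P.k : ℝ≥0∞) * volume box).toReal + 1, by positivity, fun C n ω τ₀ B hB => ?_⟩
  have hK : (P.k : ℝ≥0∞) * volume box ≤
      ENNReal.ofReal (((P.k : ℝ≥0∞) * volume box).toReal + 1) := by
    rw [ENNReal.le_ofReal_iff_toReal_le hfin2.ne (by positivity)]
    linarith
  refine le_trans ?_ hK
  rw [← E0_vol C hB.meas]
  set T : Finset (List (ZMod P.k)) :=
    (List.finite_length_le (ZMod P.k) n).toFinset.filter (fun W => W ≠ []) with hT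
  have hTm : ∀ W, W ∈ T ↔ W.length ≤ n ∧ W ≠ [] := by
    intro W; rw [hT, Finset.mem_filter, Set.Finite.mem_toFinset, mem_ofPred_eq]
  set f : List (ZMod P.k) → ℝ≥0∞ := fun W => volume (E C ω τ₀ B W) with hf
  -- cover
  have hcov : ∀ i ∈ Finset.Icc 1 n, volume (E0 C ω B) ≤ ∑ W ∈ T with W.length = i, f W := by
    intro i hi
    rw [Finset.mem_Icc] at hi
    refine le_trans (measure_mono ?_) (measure_biUnion_finset_le _ _)
    rintro p ⟨hp, h1, h2⟩
    obtain ⟨X, hX, hXp⟩ := hB.code _ hp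
    have h0 := hXp 0 ⟨by linarith [hB.hω], hB.hω⟩
    simp only [Complex.ofReal_zero, mul_zero, zero_mul, add_zero] at h0
    have h3 : Path P C.v p.1 τ₀ (X.take i) := by
      apply Path.pre (v := X.drop i)
      rw [List.take_append_drop]; exact h0
    have h4 : (X.take i).length = i := by
      rw [List.length_take, hX]; exact min_eq_left hi.2
    simp only [mem_iUnion]
    refine ⟨X.take i, ?_, ⟨hp, h3⟩, h1, h2⟩
    rw [Finset.mem_filter, hTm]
    refine ⟨⟨by rw [h4]; exact hi.2, ?_⟩, h4⟩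
    intro h
    rw [h] at h4
    simp at h4
    omega
  have h1 : (n : ℝ≥0∞) * volume (E0 C ω B) ≤ ∑ i ∈ Finset.Icc 1 n, ∑ W ∈ T with W.length = i, f W := by
    calc (n : ℝ≥0∞) * volume (E0 C ω B) = ∑ i ∈ Finset.Icc 1 n, volume (E0 C ω B) := by
          rw [Finset.sum_const, Nat.card_Icc, nsmul_eq_mul]; simp
      _ ≤ _ := Finset.sum_le_sum hcov
  have h2 : ∑ i ∈ Finset.Icc 1 n, ∑ W ∈ T with W.length = i, f W = ∑ W ∈ T, f W := by
    apply Finset.sum_fiberwise_of_maps_to
    intro W hW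
    rw [hTm] at hW
    rw [Finset.mem_Icc]
    refine ⟨?_, hW.1⟩
    exact List.length_pos_iff.2 hW.2
  have h3 : ∑ W ∈ T, f W = ∑ c : ZMod P.k, ∑ W ∈ T with (W.getLast?).getD 0 = c, f W :=
    (Finset.sum_fiberwise T (fun W => (W.getLast?).getD 0) f).symm
  have h4 : ∀ c : ZMod P.k, ∑ W ∈ T with (W.getLast?).getD 0 = c, f W ≤ volume box := by
    intro c
    have h5 : ∀ W ∈ T.filter (fun W => (W.getLast?).getD 0 = c), W.length ≤ n ∧ W ≠ [] ∧
        W.getLast? = some c := by
      intro W hW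
      rw [Finset.mem_filter, hTm] at hW
      refine ⟨hW.1.1, hW.1.2, ?_⟩
      obtain ⟨c', hc'⟩ : ∃ c', W.getLast? = some c' := by
        cases h : W.getLast? with
        | none => exact absurd (List.getLast?_eq_none_iff.1 h) hW.1.2
        | some c' => exact ⟨c', rfl⟩
      have := hW.2
      rw [hc', Option.getD_some] at this
      rw [hc', this]
    have h6 : ∀ W, f W = volume (fold P W '' E C ω τ₀ B W) := by
      intro W
      rw [fold_image, (unfold_mp W).measure_preimage (E_meas hB W).nullMeasurableSet]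
    simp_rw [h6]
    rw [← measure_biUnion_finset]
    · apply measure_mono
      intro q hq
      simp only [mem_iUnion] at hq
      obtain ⟨W, hW, p, hp, rfl⟩ := hq
      obtain ⟨h7, h8, _⟩ := h5 W hW
      exact fold_mem_box hB hR h7 h8 hp
    · intro W hW W' hW' hne
      obtain ⟨h7, _, h9⟩ := h5 W hW
      obtain ⟨h7', _, h9'⟩ := h5 W' hW'
      exact E_disjoint hB h7 h7' h9 h9' hne
    · intro W _
      rw [fold_image]
      exact (unfold_mp W).measurable (E_meas hB W)
  calc (n : ℝ≥0∞) * volume (E0 C ω B) ≤ _ := h1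
    _ = ∑ c : ZMod P.k, ∑ W ∈ T with (W.getLast?).getD 0 = c, f W := by rw [h2, h3]
    _ ≤ ∑ _c : ZMod P.k, volume box := Finset.sum_le_sum fun c _ => h4 c
    _ = (P.k : ℝ≥0∞) * volume box := by
        rw [Finset.sum_const, nsmul_eq_mul, Finset.card_univ, ZMod.card]

end Pool.Agent.Lib_helper45.Bil
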