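import Pool.Agent.Lib_helper45.Bil.Pack2

/-!
# Billiards in polygons: the sum of the reciprocal lengths of generalized diagonals
-/

open Set Filter Topology Metric MeasureTheory
open scoped ComplexConjugate ENNReal

namespace Pool.Agent.Lib_helper45.Bil

open Pool.Agent.Billiard

variable {P : Polygon}

/-- Directions nearly parallel to `D`. -/
def strip (ω : ℝ) (D : ℂ) : Set ℂ := {u : ℂ | ‖u‖ < 2 ∧ |(u * conj D).im| < 4 * ω}

theorem isOpen_strip (ω : ℝ) (D : ℂ) : IsOpen (strip ω D) := by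
  have h : Continuous fun u : ℂ => |(u * conj D).im| :=
    continuous_abs.comp (Complex.continuous_im.comp (continuous_id.mul continuous_const))
  exact (isOpen_lt continuous_norm continuous_const).inter (isOpen_lt h continuous_const)

theorem strip_vol {D : ℂ} (hD : D ≠ 0) (ω : ℝ) :
    volume (strip ω D) ≤ ENNReal.ofReal (32 * ω / ‖D‖) := by
  have hn : 0 < ‖D‖ := norm_pos_iff.2 hD
  set e : ℂ ≃ₗᵢ[ℝ] ℂ := rotation (⟨conj D / ‖D‖, by
    apply mem_sphere_zero_iff_norm.2
    rw [norm_div, RCLike.norm_conj, Complex.norm_real, norm_norm, div_self hn.ne']⟩ : Circle) with he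
  have hap : ∀ u, e u = conj D / ‖D‖ * u := fun u => by
    rw [he, rotation_apply]
  set a : ℝ := 4 * ω / ‖D‖ with ha
  set rect : Set ℂ := Complex.measurableEquivRealProd ⁻¹' (Ioo (-2) 2 ×ˢ Ioo (-a) a) with hrect
  have hmr : MeasurableSet (Ioo (-2 : ℝ) 2 ×ˢ Ioo (-a) a) := measurableSet_Ioo.prod measurableSet_Ioo
  have hm : MeasurableSet rect := Complex.measurableEquivRealProd.measurable hmr
  have hsub : strip ω D ⊆ e ⁻¹' rect := by
    rintro u ⟨h1, h2⟩
    have hre : |(e u).re| < 2 := by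
      refine lt_of_le_of_lt (Complex.abs_re_le_norm _) ?_
      rw [e.norm_map]; exact h1
    have him : |(e u).im| < a := by
      have h3 : e u = ((‖D‖⁻¹ : ℝ) : ℂ) * (u * conj D) := by
        rw [hap]; push_cast; ring
      rw [h3, Complex.im_ofReal_mul, abs_mul, abs_of_pos (inv_pos.2 hn), ha,
        inv_mul_lt_iff₀ hn, mul_div_cancel₀ _ hn.ne']
      exact h2
    exact ⟨abs_lt.1 hre, abs_lt.1 him⟩
  calc volume (strip ω D) ≤ volume (e ⁻¹' rect) := measure_mono hsub
    _ = volume rect := e.measurePreserving.measure_preimage hm.nullMeasurableSet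
    _ = volume (Ioo (-2 : ℝ) 2 ×ˢ Ioo (-a) a) :=
        Complex.volume_preserving_equiv_real_prod.measure_preimage hmr.nullMeasurableSet
    _ = ENNReal.ofReal (32 * ω / ‖D‖) := by
        rw [Measure.volume_eq_prod, Measure.prod_prod, Real.volume_Ioo, Real.volume_Ioo,
          ← ENNReal.ofReal_mul (by norm_num)]
        congr 1
        rw [ha]; ring

/-- Directions well inside the corner. -/
def Corner.A (C : Corner P) (η : ℝ) : Set ℂ :=
  {u | (1 < ‖u‖ ∧ ‖u‖ < 2) ∧ η < (C.qb * conj u).im ∧ η < (u * conj C.qr).im}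

theorem Corner.isOpen_A (C : Corner P) (η : ℝ) : IsOpen (C.A η) := by
  have h1 : Continuous fun u : ℂ => (C.qb * conj u).im :=
    Complex.continuous_im.comp (continuous_const.mul Complex.continuous_conj)
  have h2 : Continuous fun u : ℂ => (u * conj C.qr).im :=
    Complex.continuous_im.comp (continuous_id.mul continuous_const)
  exact ((isOpen_lt continuous_const continuous_norm).inter
    (isOpen_lt continuous_norm continuous_const)).inter
    ((isOpen_lt continuous_const h1).inter (isOpen_lt continuous_const h2))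

theorem Corner.exists_A (C : Corner P) : ∃ η > 0, 0 < volume (C.A η) := by
  set u₀ : ℂ := C.qb + C.qr with hu₀
  have hc := C.cross
  have h1 : (C.qb * conj u₀).im = (C.qb * conj C.qr).im := by
    have h := cross_self C.qb 1
    rw [Complex.ofReal_one, one_mul] at h
    rw [hu₀, cross_add_right, h, zero_add]
  have h2 : (u₀ * conj C.qr).im = (C.qb * conj C.qr).im := by
    have h := cross_self C.qr 1
    rw [Complex.ofReal_one, one_mul] at h
    rw [hu₀, cross_add_left, h, add_zero]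
  have hne : u₀ ≠ 0 := by
    intro h
    rw [h] at h2
    simp only [zero_mul, Complex.zero_im] at h2
    rw [← h2] at hc
    exact lt_irrefl _ hc
  have hn : 0 < ‖u₀‖ := norm_pos_iff.2 hne
  set l : ℝ := 3 / 2 / ‖u₀‖ with hl
  have hlp : 0 < l := by positivity
  set η : ℝ := l * (C.qb * conj C.qr).im / 2 with hη
  have hlc : 0 < l * (C.qb * conj C.qr).im := mul_pos hlp hc
  refine ⟨η, by positivity, (C.isOpen_A η).measure_pos _ ⟨(l : ℂ) * u₀, ?_⟩⟩
  have hnl : ‖(l : ℂ) * u₀‖ = 3 / 2 := by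
    rw [norm_mul, Complex.norm_real, Real.norm_eq_abs, abs_of_pos hlp, hl]
    field_simp
  refine ⟨⟨by rw [hnl]; norm_num, by rw [hnl]; norm_num⟩, ?_, ?_⟩
  · rw [cross_mul_right, h1]; linarith
  · rw [cross_mul_left, h2]; linarith

theorem cross_bound (q : ℂ) (σ : ℝ) (u : ℂ) {ω : ℝ} (hσ : |σ| < ω) (hu : ‖u‖ < 2) :
    |(q * conj ((Complex.I * σ) * u)).im| ≤ 2 * ω * ‖q‖ := by
  have hω : 0 < ω := (abs_nonneg _).trans_lt hσ
  calc |(q * conj ((Complex.I * σ) * u)).im| ≤ ‖q * conj ((Complex.I * σ) * u)‖ :=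
        Complex.abs_im_le_norm _
    _ = ‖q‖ * (|σ| * ‖u‖) := by
        rw [norm_mul, RCLike.norm_conj, norm_mul, norm_mul, Complex.norm_I, one_mul,
          Complex.norm_real, Real.norm_eq_abs]
    _ ≤ ‖q‖ * (ω * 2) := by gcongr
    _ = 2 * ω * ‖q‖ := by ring

theorem Corner.cone_pert (C : Corner P) {η τ₀ ω : ℝ} (hη : 0 < η)
    (h2 : 2 * ω * (‖C.qb‖ + ‖C.qr‖) < τ₀ * η) {u : ℂ} (hu : u ∈ C.A η) {τ σ : ℝ}
    (hτ : τ₀ ≤ τ) (hσ : |σ| < ω) : C.Cone ((τ + Complex.I * σ) * u) := by
  obtain ⟨⟨_, hu2⟩, hub, hur⟩ := hu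
  have hω : 0 < ω := (abs_nonneg _).trans_lt hσ
  have hτη : τ₀ * η ≤ τ * η := mul_le_mul_of_nonneg_right hτ hη.le
  have hpos : 0 < τ * η := by
    have : 0 ≤ 2 * ω * (‖C.qb‖ + ‖C.qr‖) := by positivity
    linarith
  have hτp : 0 < τ := by
    by_contra h
    push Not at h
    nlinarith
  have e : (τ + Complex.I * σ) * u = τ * u + (Complex.I * σ) * u := by ring
  have hb1 : 2 * ω * ‖C.qb‖ ≤ 2 * ω * (‖C.qb‖ + ‖C.qr‖) := by
    have := norm_nonneg C.qr
    nlinarith
  have hb2 : 2 * ω * ‖C.qr‖ ≤ 2 * ω * (‖C.qb‖ + ‖C.qr‖) := by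
    have := norm_nonneg C.qb
    nlinarith
  refine ⟨?_, ?_⟩
  · rw [e, cross_add_right, cross_mul_right]
    have h3 := cross_bound C.qb σ u hσ hu2
    have h4 : τ * η < τ * (C.qb * conj u).im := mul_lt_mul_of_pos_left hub hτp
    have := (abs_le.1 h3).1
    linarith
  · rw [e, cross_add_left, cross_mul_left]
    have h3 := cross_bound C.qr σ u hσ hu2
    rw [cross_swap] at h3
    rw [abs_neg] at h3
    have h4 : τ * η < τ * (u * conj C.qr).im := mul_lt_mul_of_pos_left hur hτp
    have := (abs_le.1 h3).1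
    linarith

theorem norm_bp_le {u : ℂ} (hu : ‖u‖ < 2) {τ σ a b : ℝ} (ha : |τ| ≤ a) (hb : |σ| < b) :
    ‖(τ + Complex.I * σ) * u‖ ≤ 2 * (a + b) := by
  have h1 : ‖(τ : ℂ) + Complex.I * σ‖ ≤ a + b := by
    calc ‖(τ : ℂ) + Complex.I * σ‖ ≤ ‖(τ : ℂ)‖ + ‖Complex.I * σ‖ := norm_add_le _ _
      _ = |τ| + |σ| := by
          rw [norm_mul, Complex.norm_I, one_mul, Complex.norm_real, Complex.norm_real,
            Real.norm_eq_abs, Real.norm_eq_abs]
      _ ≤ a + b := add_le_add ha hb.le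
  calc ‖(τ + Complex.I * σ) * u‖ = ‖(τ : ℂ) + Complex.I * σ‖ * ‖u‖ := norm_mul _ _
    _ ≤ (a + b) * 2 := mul_le_mul h1 hu.le (norm_nonneg _) ((norm_nonneg _).trans h1)
    _ = 2 * (a + b) := mul_comm _ _

theorem Corner.beams (C : Corner P) {η τ₀ ω : ℝ} (hη : 0 < η) (hτ₀ : 0 < τ₀)
    (hτr : 8 * τ₀ ≤ C.rad) (hω : 0 < ω) (h1 : ω ≤ τ₀)
    (h2 : 2 * ω * (‖C.qb‖ + ‖C.qr‖) < τ₀ * η) (h3 : ω < η / 4) (n : ℕ) :
    Beams C n ω τ₀ (C.A η \ ⋃ γ ∈ (C.GD_finite n).toFinset, strip ω (C.D P γ)) := by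
  have hnorm : ∀ u ∈ C.A η, ∀ τ σ : ℝ, |τ| ≤ 2 * τ₀ → |σ| < ω →
      ‖(τ + Complex.I * σ) * u‖ < C.rad := by
    intro u hu τ σ hτ hσ
    have := norm_bp_le hu.1.2 hτ hσ
    linarith
  have hin : ∀ u ∈ C.A η, ∀ τ σ : ℝ, τ₀ ≤ τ → τ ≤ 2 * τ₀ → |σ| < ω →
      bp C.v u τ σ ∈ U P := by
    intro u hu τ σ h4 h5 hσ
    unfold bp
    exact C.mem_U (C.cone_pert hη h2 hu h4 hσ)
      (hnorm u hu τ σ (by rw [abs_of_pos (by linarith)]; exact h5) hσ)
  refine ⟨hω, ?_, fun u hu => hu.1.1, fun u hu => ?_, fun u hu => ?_, fun u hu σ hσ => ?_⟩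
  · apply (C.isOpen_A η).measurableSet.diff
    exact Finset.measurableSet_biUnion _ fun γ _ => (isOpen_strip _ _).measurableSet
  · have h4 := hin u hu.1 τ₀ 0 le_rfl (by linarith) (by simpa using hω)
    unfold bp at h4
    simpa using h4
  · have hu0 : u ≠ 0 := by
      intro h
      have := hu.1.1.1
      rw [h, norm_zero] at this
      linarith
    have hstart : ∀ σ ∈ Ioo (-ω) ω, ∃ ε > 0, ∀ σ' ∈ Ioo (σ - ε) (σ + ε),
        ∀ τ ∈ Ioo (τ₀ + 0 * σ') (τ₀ + 0 * σ' + ε), bp C.v u τ σ' ∈ U P := by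
      intro σ hσ
      refine ⟨min τ₀ (min (ω - σ) (σ + ω)), ?_, fun σ' hσ' τ hτ => ?_⟩
      · have h4 := hσ.1
        have h5 := hσ.2
        exact lt_min hτ₀ (lt_min (by linarith) (by linarith))
      · have e1 := min_le_left τ₀ (min (ω - σ) (σ + ω))
        have e2 := (min_le_right τ₀ (min (ω - σ) (σ + ω))).trans (min_le_left _ _)
        have e3 := (min_le_right τ₀ (min (ω - σ) (σ + ω))).trans (min_le_right _ _)
        rw [zero_mul, add_zero] at hτ
        exact hin u hu.1 τ σ' hτ.1.le (by linarith [hτ.2])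
          (abs_lt.2 ⟨by linarith [hσ'.1], by linarith [hσ'.2]⟩)
    rcases beam n hu0 hω hτ₀ hstart with ⟨X, hX, hXp⟩ | ⟨W, j, d, σ, hWn, hσ, hd, hdev, hvis⟩
    · refine ⟨X, hX, fun σ hσ => ?_⟩
      have := hXp σ hσ
      rw [zero_mul, add_zero] at this
      exact this
    · exfalso
      rw [zero_mul, add_zero] at hd
      rw [zero_mul, sub_zero] at hvis
      have hσω : |σ| < ω := abs_lt.2 hσ
      have hdp : 0 < d := hτ₀.trans hd
      have hD : C.D P (W, j) = (d + Complex.I * σ) * u := by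
        unfold Corner.D
        simp only
        rw [hdev]; ring
      have hcone : C.Cone ((d + Complex.I * σ) * u) := C.cone_pert hη h2 hu.1 hd.le hσω
      have hvis0 : Vis P C.v ((d + Complex.I * σ) * u) 0 W j 1 := by
        apply hvis.start_earlier (div_pos hτ₀ hdp).le
        intro s hs
        apply C.ray_mem hcone hs.1
        have h4 := norm_bp_le hu.1.1.2 (le_refl |d|) (lt_of_lt_of_le hσω h1)
        rw [abs_of_pos hdp] at h4
        calc s * ‖(d + Complex.I * σ) * u‖ ≤ τ₀ / d * (2 * (d + τ₀)) :=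
              mul_le_mul hs.2 h4 (norm_nonneg _) (div_pos hτ₀ hdp).le
          _ < τ₀ / d * (2 * (d + d)) := by
              apply mul_lt_mul_of_pos_left _ (div_pos hτ₀ hdp)
              linarith
          _ = 4 * τ₀ := by field_simp; ring
          _ < C.rad := by linarith
      apply hu.2
      simp only [mem_iUnion]
      refine ⟨(W, j), ?_, hu.1.1.2, ?_⟩
      · rw [Set.Finite.mem_toFinset]
        exact ⟨hWn, by rw [hD]; exact hcone, by rw [hD]; exact hvis0⟩
      · rw [hD]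
        have h5 : (u * conj ((d + Complex.I * σ) * u)).im = -σ * ‖u‖ ^ 2 := by
          have h6 : u * conj ((d + Complex.I * σ) * u) =
              ((d : ℂ) - Complex.I * σ) * ((‖u‖ ^ 2 : ℝ) : ℂ) := by
            have h7 : u * conj u = ((‖u‖ ^ 2 : ℝ) : ℂ) := by
              rw [Complex.mul_conj, Complex.normSq_eq_norm_sq]
            rw [← h7]
            simp only [map_mul, map_add, Complex.conj_ofReal, Complex.conj_I]
            ring
          rw [h6, Complex.im_mul_ofReal]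
          simp
        rw [h5, abs_mul, abs_neg, abs_of_nonneg (by positivity : (0:ℝ) ≤ ‖u‖ ^ 2)]
        have h6 : ‖u‖ ^ 2 < 4 := by
          have := hu.1.1.2
          have := norm_nonneg u
          nlinarith
        nlinarith [abs_nonneg σ, norm_nonneg u]
  · obtain ⟨⟨hun1, hun2⟩, hub, hur⟩ := hu.1
    have hu0 : u ≠ 0 := by
      intro h
      rw [h, norm_zero] at hun1
      linarith
    have hnp : 0 < ‖u‖ := by linarith
    set w : ℂ := C.qb / u with hw
    have hwu : w * u = C.qb := by rw [hw]; field_simp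
    have hwim : w.im * ‖u‖ ^ 2 = (C.qb * conj u).im := by
      have h7 : u * conj u = ((‖u‖ ^ 2 : ℝ) : ℂ) := by
        rw [Complex.mul_conj, Complex.normSq_eq_norm_sq]
      rw [← hwu, mul_assoc, h7, Complex.im_mul_ofReal]
    have hsq : ‖u‖ ^ 2 < 4 := by nlinarith
    have hsq1 : 1 < ‖u‖ ^ 2 := by nlinarith
    have hwp : 0 < w.im := by
      by_contra h
      push Not at h
      nlinarith
    have hwim4 : η / 4 < w.im := by nlinarith
    have hwn : ‖w‖ ≤ ‖C.qb‖ := by
      rw [hw, norm_div]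
      exact div_le_self (norm_nonneg _) hun1.le
    set l : ℝ := σ / w.im with hl
    have hlp : 0 < l := div_pos hσ.1 hwp
    have hlu : l ≤ 2 * ω / η := by
      rw [hl, div_le_div_iff₀ hwp hη]
      have := hσ.2
      nlinarith
    have hl1 : l < 1 := by
      have h8 : 2 * ω / η < 1 := by rw [div_lt_one hη]; linarith
      linarith
    have hre : |l * w.re| < τ₀ := by
      rw [abs_mul, abs_of_pos hlp]
      have h8 : |w.re| ≤ ‖C.qb‖ := (Complex.abs_re_le_norm _).trans hwn
      have h9 : l * |w.re| ≤ 2 * ω / η * ‖C.qb‖ :=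
        mul_le_mul hlu h8 (abs_nonneg _) (by positivity)
      have h10 : 2 * ω / η * ‖C.qb‖ < τ₀ := by
        rw [div_mul_eq_mul_div, div_lt_iff₀ hη]
        have := norm_nonneg C.qr
        nlinarith
      linarith
    have hid : C.v + (Complex.I * σ) * u + ((l * w.re : ℝ) : ℂ) * u = C.v + l * C.qb := by
      have h8 : (w.im : ℂ) ≠ 0 := by exact_mod_cast hwp.ne'
      have h9 : (l : ℂ) * w = ((l * w.re : ℝ) : ℂ) + Complex.I * σ := by
        apply Complex.ext
        · simp
        · simp only [Complex.mul_im, Complex.ofReal_re, Complex.ofReal_im, zero_mul, add_zero,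
            Complex.add_im, Complex.I_re, Complex.I_im, one_mul, zero_add]
          rw [hl]; field_simp
      rw [← hwu, ← mul_assoc, h9]; ring
    refine ⟨l * w.re, (abs_lt.1 hre).2, ?_, fun τ hτ => ?_⟩
    · rw [hid]; exact C.hb l hlp hl1
    · have h8 : C.v + (Complex.I * σ) * u + τ * u = C.v + (τ + Complex.I * σ) * u := by ring
      have h9 : ((τ : ℂ) + Complex.I * σ) * u = l * C.qb + ((τ - l * w.re : ℝ) : ℂ) * u := by
        have h10 : (τ : ℂ) * u = ((τ - l * w.re : ℝ) : ℂ) * u + ((l * w.re : ℝ) : ℂ) * u := by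
          push_cast; ring
        have h11 : (Complex.I * σ) * u + ((l * w.re : ℝ) : ℂ) * u = l * C.qb := by
          have := hid
          rw [add_assoc] at this
          exact add_left_cancel this
        rw [add_mul, h10, ← h11]; ring
      rw [h8]
      apply C.mem_U
      · rw [h9]
        apply C.cone_b u _ _ _ hlp (by linarith [hτ.1])
        exact ⟨hη.trans hub, hη.trans hur⟩
      · apply hnorm u hu.1 τ σ
        · have h12 := (abs_lt.1 hre).1
          exact abs_le.2 ⟨by linarith [hτ.1], by linarith [hτ.2]⟩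
        · rw [abs_of_pos hσ.1]; linarith [hσ.2]

end Pool.Agent.Lib_helper45.Bil
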