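import Pool.Agent.Lib_helper45.Bil.Geom

/-!
# Billiards in polygons: stability of one step, first hits, paths
-/

open Set Filter Topology Metric
open scoped ComplexConjugate

namespace Pool.Agent.Lib_helper45.Bil

open Pool.Agent.Billiard

variable {P : Polygon}

variable (P) in
/-- The time at which the line `z + t u` crosses the line of side `i`. -/
noncomputable def ct (i : ZMod P.k) (p : ℂ × ℂ) : ℝ := -H P i p.1 / tr P i p.2

theorem continuous_pt (t : ℝ) : Continuous fun p : ℂ × ℂ => p.1 + t * p.2 := by fun_prop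

theorem transversal {i : ZMod P.k} {z u : ℂ} {t₁ t : ℝ} (h1 : t₁ < t) (hx : z + t * u ∈ rel P i)
    (hU : ∀ τ ∈ Ico t₁ t, z + τ * u ∈ U P) : tr P i u ≠ 0 := by
  intro h0
  have hH : ∀ τ : ℝ, H P i (z + τ * u) = 0 := by
    intro τ
    have h2 := H_of_mem_rel hx
    rw [H_add, h0, mul_zero, add_zero] at h2
    rw [H_add, h0, h2]; ring
  obtain ⟨_, h3, h4⟩ := mem_rel_iff'.1 hx
  have hc : Continuous fun τ : ℝ => K P i (z + τ * u) :=
    (continuous_K i).comp (by fun_prop)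
  have hev : ∀ᶠ τ : ℝ in 𝓝[<] t, 0 < K P i (z + τ * u) ∧ K P i (z + τ * u) < 1 := by
    apply Filter.Eventually.filter_mono nhdsWithin_le_nhds
    exact ((hc.tendsto t).eventually (lt_mem_nhds h3)).and
      ((hc.tendsto t).eventually (gt_mem_nhds h4))
  have hev2 : ∀ᶠ τ : ℝ in 𝓝[<] t, t₁ < τ ∧ τ < t := by
    have : Ioo t₁ t ∈ 𝓝[<] t := Ioo_mem_nhdsLT h1
    exact this
  obtain ⟨τ, ⟨ha, hb⟩, hc1, hc2⟩ := (hev.and hev2).exists
  exact not_mem_U_of_Gam (rel_subset_Gam i (mem_rel_iff'.2 ⟨hH τ, ha, hb⟩)) (hU τ ⟨hc1.le, hc2⟩)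

theorem step_stable {i : ZMod P.k} {z u : ℂ} {t₁ t : ℝ} (h1 : t₁ < t) (hx : z + t * u ∈ rel P i)
    (hU : ∀ τ ∈ Ico t₁ t, z + τ * u ∈ U P) :
    ct P i (z, u) = t ∧ Tendsto (ct P i) (𝓝 (z, u)) (𝓝 t) ∧ ∃ η > 0,
      ∀ᶠ p : ℂ × ℂ in 𝓝 (z, u), p.1 + ct P i p * p.2 ∈ rel P i ∧
        (∀ τ ∈ Ico t₁ (ct P i p), p.1 + τ * p.2 ∈ U P) ∧
        ∀ τ ∈ Ioo (ct P i p) (t + η), refl P i (p.1 + τ * p.2) ∈ U P := by
  have htr := transversal h1 hx hU
  have hHx := H_of_mem_rel hx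
  have hct : ct P i (z, u) = t := by
    unfold ct
    rw [H_add] at hHx
    field_simp
    linarith
  have htend : Tendsto (ct P i) (𝓝 (z, u)) (𝓝 t) := by
    have : ContinuousAt (ct P i) (z, u) := by
      unfold ct
      apply ContinuousAt.div
      · exact ((continuous_H i).comp continuous_fst).neg.continuousAt
      · exact ((continuous_tr i).comp continuous_snd).continuousAt
      · exact htr
    rw [← hct]; exact this
  refine ⟨hct, htend, ?_⟩
  obtain ⟨r, hr, hdisc⟩ := half_disc hx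
  obtain ⟨ρ, hρ, hρ1, hρ2⟩ : ∃ ρ > 0, ρ < t - t₁ ∧ ρ * (‖u‖ + 1) < r := by
    refine ⟨min ((t - t₁) / 2) (r / (2 * (‖u‖ + 1))), lt_min (by linarith) (by positivity), ?_, ?_⟩
    · exact (min_le_left _ _).trans_lt (by linarith)
    · have : min ((t - t₁) / 2) (r / (2 * (‖u‖ + 1))) * (‖u‖ + 1) ≤
          r / (2 * (‖u‖ + 1)) * (‖u‖ + 1) :=
        mul_le_mul_of_nonneg_right (min_le_right _ _) (by positivity)
      have h3 : r / (2 * (‖u‖ + 1)) * (‖u‖ + 1) = r / 2 := by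
        field_simp
      linarith
  have hball : ∀ τ ∈ Icc (t - ρ) (t + ρ), z + τ * u ∈ ball (z + t * u) r := by
    intro τ hτ
    rw [mem_ball, dist_eq_norm]
    have : z + τ * u - (z + t * u) = ((τ - t : ℝ) : ℂ) * u := by push_cast; ring
    rw [this, norm_mul, Complex.norm_real, Real.norm_eq_abs]
    have h3 : |τ - t| ≤ ρ := abs_le.2 ⟨by linarith [hτ.1], by linarith [hτ.2]⟩
    have h4 : |τ - t| * ‖u‖ ≤ ρ * ‖u‖ := mul_le_mul_of_nonneg_right h3 (norm_nonneg _)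
    nlinarith
  have hy0 : z + ((t - ρ : ℝ) : ℂ) * u ∈ U P := hU _ ⟨by linarith, by linarith⟩
  have hy1 := hball (t - ρ) ⟨le_rfl, by linarith⟩
  have hHy : H P i (z + ((t - ρ : ℝ) : ℂ) * u) = -ρ * tr P i u := by
    rw [H_add] at hHx ⊢; linarith
  have ha : ∀ᶠ p : ℂ × ℂ in 𝓝 (z, u), ∀ τ ∈ Icc t₁ (t - ρ), p.1 + (τ : ℂ) * p.2 ∈ U P := by
    apply IsCompact.eventually_forall_of_forall_eventually isCompact_Icc
    intro τ hτ
    have hc : Continuous fun q : (ℂ × ℂ) × ℝ => q.1.1 + (q.2 : ℂ) * q.1.2 := by fun_prop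
    have h3 : z + (τ : ℂ) * u ∈ U P := hU τ ⟨hτ.1, by linarith [hτ.2]⟩
    exact (hc.tendsto ((z, u), τ)).eventually (isOpen_U.mem_nhds h3)
  have hb : ∀ᶠ p : ℂ × ℂ in 𝓝 (z, u), ∀ τ ∈ Icc (t - ρ) (t + ρ),
      p.1 + (τ : ℂ) * p.2 ∈ ball (z + t * u) r := by
    apply IsCompact.eventually_forall_of_forall_eventually isCompact_Icc
    intro τ hτ
    have hc : Continuous fun q : (ℂ × ℂ) × ℝ => q.1.1 + (q.2 : ℂ) * q.1.2 := by fun_prop
    exact (hc.tendsto ((z, u), τ)).eventually (isOpen_ball.mem_nhds (hball τ hτ))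
  have hc : ∀ᶠ p : ℂ × ℂ in 𝓝 (z, u), 0 < tr P i u * tr P i p.2 := by
    have hcc : Continuous fun p : ℂ × ℂ => tr P i u * tr P i p.2 :=
      continuous_const.mul ((continuous_tr i).comp continuous_snd)
    exact (hcc.tendsto (z, u)).eventually (lt_mem_nhds (mul_self_pos.2 htr))
  have hd : ∀ᶠ p : ℂ × ℂ in 𝓝 (z, u), ct P i p ∈ Ioo (t - ρ) (t + ρ) :=
    htend.eventually (Ioo_mem_nhds (by linarith) (by linarith))
  have he : ∀ᶠ p : ℂ × ℂ in 𝓝 (z, u), 0 < K P i (p.1 + ct P i p * p.2) ∧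
      K P i (p.1 + ct P i p * p.2) < 1 := by
    have htc : Tendsto (fun p : ℂ × ℂ => p.1 + ct P i p * p.2) (𝓝 (z, u)) (𝓝 (z + t * u)) := by
      apply Tendsto.add
      · exact continuous_fst.tendsto _
      · apply Tendsto.mul
        · exact (Complex.continuous_ofReal.tendsto t).comp htend
        · exact continuous_snd.tendsto _
    have h3 := ((continuous_K i).tendsto _).comp htc
    obtain ⟨_, h4, h5⟩ := mem_rel_iff'.1 hx
    exact (h3.eventually (lt_mem_nhds h4)).and (h3.eventually (gt_mem_nhds h5))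
  refine ⟨ρ, hρ, ?_⟩
  filter_upwards [ha, hb, hc, hd, he] with p hpa hpb hpc hpd hpe
  have htp : tr P i p.2 ≠ 0 := fun h => by rw [h, mul_zero] at hpc; exact lt_irrefl _ hpc
  have hHp : ∀ τ : ℝ, H P i (p.1 + τ * p.2) = (τ - ct P i p) * tr P i p.2 := by
    intro τ
    rw [H_add]; unfold ct; field_simp; ring
  refine ⟨mem_rel_iff'.2 ⟨by rw [hHp]; ring, hpe.1, hpe.2⟩, fun τ hτ => ?_, fun τ hτ => ?_⟩
  · by_cases h : τ ≤ t - ρ
    · exact hpa τ ⟨hτ.1, h⟩
    · push Not at h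
      apply hdisc _ hy1 _ (hpb τ ⟨h.le, by linarith [hτ.2, hpd.2]⟩) hy0
      rw [hHy, hHp]
      have h4 : 0 < ct P i p - τ := by linarith [hτ.2]
      have : -ρ * tr P i u * ((τ - ct P i p) * tr P i p.2) =
        ρ * (ct P i p - τ) * (tr P i u * tr P i p.2) := by ring
      rw [this]; positivity
  · have hτb : p.1 + (τ : ℂ) * p.2 ∈ ball (z + t * u) r :=
      hpb τ ⟨by linarith [hτ.1, hpd.1], hτ.2.le⟩
    have hrb : refl P i (p.1 + τ * p.2) ∈ ball (z + t * u) r := by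
      rw [mem_ball] at hτb ⊢
      rw [← refl_fix hHx, dist_refl]; exact hτb
    apply hdisc _ hy1 _ hrb hy0
    rw [hHy, H_refl, hHp]
    have h4 : 0 < τ - ct P i p := by linarith [hτ.1]
    have : -ρ * tr P i u * -((τ - ct P i p) * tr P i p.2) =
        ρ * (τ - ct P i p) * (tr P i u * tr P i p.2) := by ring
    rw [this]; positivity

/-- After a hit, the reflected line is inside for a short time. -/
theorem after_hit {i : ZMod P.k} {z u : ℂ} {t₁ t : ℝ} (h1 : t₁ < t) (hx : z + t * u ∈ rel P i)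
    (hU : ∀ τ ∈ Ico t₁ t, z + τ * u ∈ U P) :
    ∃ η > 0, ∀ τ ∈ Ioo t (t + η), refl P i (z + τ * u) ∈ U P := by
  obtain ⟨h2, _, η, hη, h3⟩ := step_stable h1 hx hU
  have h4 := h3.self_of_nhds.2.2
  rw [h2] at h4
  exact ⟨η, hη, h4⟩

theorem exists_hit {z u : ℂ} (hu : u ≠ 0) {t₁ : ℝ} (h : z + t₁ * u ∈ U P) :
    ∃ t > t₁, z + t * u ∈ Gam P ∧ ∀ τ ∈ Ico t₁ t, z + τ * u ∈ U P := by
  set A : Set ℝ := {τ | t₁ ≤ τ ∧ z + τ * u ∈ Gam P} with hA
  have hcont : Continuous fun τ : ℝ => z + (τ : ℂ) * u := by fun_prop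
  have hAc : IsClosed A := by
    have : A = Ici t₁ ∩ (fun τ : ℝ => z + (τ : ℂ) * u) ⁻¹' Gam P := rfl
    rw [this]
    exact isClosed_Ici.inter (Gam_closed.preimage hcont)
  have hconn : ∀ T : ℝ, t₁ ≤ T → (∀ τ ∈ Ico t₁ T, z + (τ : ℂ) * u ∉ Gam P) →
      ∀ τ ∈ Ico t₁ T, z + (τ : ℂ) * u ∈ U P := by
    intro T hT h2 τ hτ
    have h3 : IsPreconnected ((fun τ : ℝ => z + (τ : ℂ) * u) '' Ico t₁ T) :=
      isPreconnected_Ico.image _ hcont.continuousOn
    apply subset_U h3 _ _ ⟨τ, hτ, rfl⟩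
    · rintro _ ⟨σ, hσ, rfl⟩; exact h2 σ hσ
    · exact ⟨_, ⟨t₁, ⟨le_rfl, lt_of_le_of_lt hτ.1 hτ.2⟩, rfl⟩, h⟩
  have hAne : A.Nonempty := by
    by_contra hne
    rw [not_nonempty_iff_eq_empty] at hne
    have hall : ∀ τ : ℝ, t₁ ≤ τ → z + (τ : ℂ) * u ∈ U P := by
      intro τ hτ
      apply hconn (τ + 1) (by linarith) _ τ ⟨hτ, by linarith⟩
      intro σ hσ hG
      have : σ ∈ A := ⟨hσ.1, hG⟩
      rw [hne] at this; exact this
    obtain ⟨R, hR⟩ := P.isCompact.isBounded.subset_closedBall 0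
    have hun : 0 < ‖u‖ := norm_pos_iff.2 hu
    set T : ℝ := max t₁ ((|R| + ‖z‖ + 1) / ‖u‖) with hT
    have h2 := hR (interior_subset (hall T (le_max_left _ _)))
    rw [mem_closedBall, dist_zero_right] at h2
    have h3 : (|R| + ‖z‖ + 1) / ‖u‖ ≤ T := le_max_right _ _
    have h4 : |R| + ‖z‖ + 1 ≤ T * ‖u‖ := by rwa [div_le_iff₀ hun] at h3
    have h5 : T * ‖u‖ ≤ ‖(T : ℂ) * u‖ := by
      rw [norm_mul, Complex.norm_real, Real.norm_eq_abs]
      exact mul_le_mul_of_nonneg_right (le_abs_self _) (norm_nonneg _)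
    have h6 : ‖(T : ℂ) * u‖ ≤ ‖z + T * u‖ + ‖z‖ := by
      have : (T : ℂ) * u = (z + T * u) - z := by ring
      calc ‖(T : ℂ) * u‖ = ‖(z + T * u) - z‖ := by rw [← this]
        _ ≤ _ := norm_sub_le _ _
    linarith [le_abs_self R]
  have hbdd : BddBelow A := ⟨t₁, fun τ hτ => hτ.1⟩
  have hmem := hAc.csInf_mem hAne hbdd
  have hne : t₁ ≠ sInf A := by
    intro he
    have := hmem.2
    rw [← he] at this
    exact not_mem_U_of_Gam this h
  refine ⟨sInf A, lt_of_le_of_ne hmem.1 hne, hmem.2, ?_⟩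
  apply hconn _ hmem.1
  intro τ hτ hG
  exact absurd (csInf_le hbdd (show τ ∈ A from ⟨hτ.1, hG⟩)) (not_le.2 hτ.2)

/-! ### Paths -/

variable (P) in
/-- The line `z + τ u`, `τ ≥ t`, unfolded: it hits successively the sides in the list. -/
def Path : ℂ → ℂ → ℝ → List (ZMod P.k) → Prop
  | _, _, _, [] => True
  | z, u, t, a :: w => ∃ t' : ℝ, t < t' ∧ (∀ τ ∈ Ioo t t', z + τ * u ∈ U P) ∧
      z + t' * u ∈ rel P a ∧ Path (refl P a z) (lrefl P a u) t' w

theorem refl_line {a : ZMod P.k} {z u : ℂ} {t : ℝ} (h : z + t * u ∈ rel P a) :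
    refl P a z + t * lrefl P a u = z + t * u := by
  rw [← refl_add, refl_fix (H_of_mem_rel h)]

theorem follows_iff (w : List (ZMod P.k)) : ∀ (x z u : ℂ) (t : ℝ), x = z + t * u →
    (P.Follows x u w ↔ Path P z u t w) := by
  induction w with
  | nil => intro x z u t _; exact Iff.rfl
  | cons a w ih =>
    intro x z u t hx
    subst hx
    constructor
    · rintro ⟨s, hs, h1, h2, h3⟩
      have e1 : z + t * u + s * u = z + ((t + s : ℝ) : ℂ) * u := by push_cast; ring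
      rw [e1] at h2 h3
      refine ⟨t + s, by linarith, fun τ hτ => ?_, h2, ?_⟩
      · have := h1 (τ - t) ⟨by linarith [hτ.1], by linarith [hτ.2]⟩
        have e2 : z + t * u + ((τ - t : ℝ) : ℂ) * u = z + τ * u := by push_cast; ring
        rw [e2] at this; exact this
      · exact (ih _ _ _ _ (refl_line h2).symm).1 h3
    · rintro ⟨t', ht, h1, h2, h3⟩
      have e1 : z + t * u + ((t' - t : ℝ) : ℂ) * u = z + (t' : ℂ) * u := by push_cast; ring
      refine ⟨t' - t, by linarith, fun s hs => ?_, by rw [e1]; exact h2, ?_⟩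
      · have := h1 (t + s) ⟨by linarith [hs.1], by linarith [hs.2]⟩
        have e2 : z + t * u + (s : ℂ) * u = z + ((t + s : ℝ) : ℂ) * u := by push_cast; ring
        rw [e2]; exact this
      · rw [e1]
        exact (ih _ _ _ _ (refl_line h2).symm).2 h3

theorem Path.start_later {w : List (ZMod P.k)} {z u : ℂ} {t : ℝ} (h : Path P z u t w) :
    ∃ ε > 0, ∀ t₂ ∈ Ico t (t + ε), Path P z u t₂ w := by
  cases w with
  | nil => exact ⟨1, one_pos, fun _ _ => trivial⟩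
  | cons a w =>
    obtain ⟨t', ht, h1, h2, h3⟩ := h
    refine ⟨t' - t, by linarith, fun t₂ ht₂ => ⟨t', by linarith [ht₂.2], fun τ hτ => ?_, h2, h3⟩⟩
    exact h1 τ ⟨by linarith [hτ.1, ht₂.1], hτ.2⟩

theorem Path.start_earlier {w : List (ZMod P.k)} {z u : ℂ} {t₁ t₂ : ℝ} (h12 : t₁ ≤ t₂)
    (hU : ∀ τ ∈ Ioc t₁ t₂, z + τ * u ∈ U P) (h : Path P z u t₂ w) : Path P z u t₁ w := by
  cases w with
  | nil => trivial
  | cons a w =>
    obtain ⟨t', ht, h1, h2, h3⟩ := h
    refine ⟨t', by linarith, fun τ hτ => ?_, h2, h3⟩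
    by_cases hh : τ ≤ t₂
    · exact hU τ ⟨hτ.1, hh⟩
    · exact h1 τ ⟨by push Not at hh; exact hh, hτ.2⟩

theorem Path.of_start {w : List (ZMod P.k)} {z u : ℂ} {t₁ t₂ : ℝ} (h12 : t₁ ≤ t₂)
    (hU : ∀ τ ∈ Ioc t₁ t₂, z + τ * u ∈ U P) (h : Path P z u t₁ w) : Path P z u t₂ w := by
  cases w with
  | nil => trivial
  | cons a w =>
    obtain ⟨t', ht, h1, h2, h3⟩ := h
    refine ⟨t', ?_, fun τ hτ => h1 τ ⟨by linarith [hτ.1], hτ.2⟩, h2, h3⟩
    by_contra hh
    push Not at hh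
    exact not_mem_U_of_Gam (rel_subset_Gam a h2) (hU t' ⟨ht, hh⟩)

/-- Paths are stable under small perturbations of the line. -/
theorem Path.eventually {w : List (ZMod P.k)} : ∀ {z u : ℂ} {t : ℝ}, z + t * u ∈ U P →
    Path P z u t w → ∀ᶠ p : ℂ × ℂ in 𝓝 (z, u), Path P p.1 p.2 t w := by
  induction w with
  | nil => intro z u t _ _; exact Eventually.of_forall fun _ => trivial
  | cons a w ih =>
    rintro z u t hz ⟨t', ht, h1, h2, h3⟩
    have hI : ∀ τ ∈ Ico t t', z + τ * u ∈ U P := by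
      intro τ hτ
      rcases eq_or_lt_of_le hτ.1 with h | h
      · rw [← h]; exact hz
      · exact h1 τ ⟨h, hτ.2⟩
    obtain ⟨hct, htend, η, hη, hev⟩ := step_stable ht h2 hI
    obtain ⟨ε, hε, hlater⟩ := h3.start_later
    obtain ⟨t₂, ht₂a, ht₂b, ht₂c⟩ : ∃ t₂, t' < t₂ ∧ t₂ < t' + η ∧ t₂ < t' + ε := by
      refine ⟨t' + min η ε / 2, ?_, ?_, ?_⟩
      · have : 0 < min η ε := lt_min hη hε
        linarith
      · have := min_le_left η ε
        have : 0 < min η ε := lt_min hη hε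
        linarith
      · have := min_le_right η ε
        have : 0 < min η ε := lt_min hη hε
        linarith
    have h4 : Path P (refl P a z) (lrefl P a u) t₂ w := hlater t₂ ⟨ht₂a.le, ht₂c⟩
    have h5 : refl P a z + t₂ * lrefl P a u ∈ U P := by
      rw [← refl_add]
      have := hev.self_of_nhds.2.2 t₂ ⟨by rw [hct]; exact ht₂a, ht₂b⟩
      exact this
    have h6 := ih h5 h4
    have hc : Continuous fun p : ℂ × ℂ => (refl P a p.1, lrefl P a p.2) :=
      ((continuous_refl a).comp continuous_fst).prodMk ((continuous_lrefl a).comp continuous_snd)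
    have h7 := (hc.tendsto (z, u)).eventually h6
    have h8 : ∀ᶠ p : ℂ × ℂ in 𝓝 (z, u), t < ct P a p ∧ ct P a p < t₂ :=
      (htend.eventually (lt_mem_nhds ht)).and (htend.eventually (gt_mem_nhds ht₂a))
    filter_upwards [hev, h7, h8] with p hp1 hp2 hp3
    refine ⟨ct P a p, hp3.1, fun τ hτ => hp1.2.1 τ ⟨hτ.1.le, hτ.2⟩, hp1.1, ?_⟩
    apply hp2.start_earlier hp3.2.le
    intro τ hτ
    rw [← refl_add]
    exact hp1.2.2 τ ⟨hτ.1, by linarith [hτ.2]⟩

theorem Path.unique : ∀ {w w' : List (ZMod P.k)} {z u : ℂ} {t : ℝ}, Path P z u t w →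
    Path P z u t w' → w.length = w'.length → w = w' := by
  intro w
  induction w with
  | nil => intro w' z u t _ _ hl; exact (List.eq_nil_of_length_eq_zero hl.symm).symm
  | cons a w ih =>
    intro w' z u t h h' hl
    cases w' with
    | nil => simp at hl
    | cons b w' =>
      obtain ⟨t', ht, h1, h2, h3⟩ := h
      obtain ⟨t'', ht', h1', h2', h3'⟩ := h'
      have he : t' = t'' := by
        rcases lt_trichotomy t' t'' with h | h | h
        · exact absurd (h1' t' ⟨ht, h⟩) (not_mem_U_of_Gam (rel_subset_Gam a h2))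
        · exact h
        · exact absurd (h1 t'' ⟨ht', h⟩) (not_mem_U_of_Gam (rel_subset_Gam b h2'))
      subst he
      have hab := rel_unique h2 h2'
      subst hab
      rw [ih h3 h3' (by simpa using hl)]

theorem Path.pre : ∀ {w v : List (ZMod P.k)} {z u : ℂ} {t : ℝ}, Path P z u t (w ++ v) →
    Path P z u t w := by
  intro w
  induction w with
  | nil => intro v z u t _; trivial
  | cons a w ih =>
    rintro v z u t ⟨t', ht, h1, h2, h3⟩
    exact ⟨t', ht, h1, h2, ih h3⟩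

variable (P) in
/-- The position of the physical point `p` in the unfolded picture after the reflections `w`. -/
noncomputable def dev : List (ZMod P.k) → ℂ → ℂ
  | [], p => p
  | a :: w, p => refl P a (dev w p)

theorem exists_path : ∀ (n : ℕ) {z u : ℂ} {t t₁ : ℝ}, u ≠ 0 → t < t₁ →
    (∀ τ ∈ Ioc t t₁, z + τ * u ∈ U P) →
    (∀ w : List (ZMod P.k), w.length < n → ∀ j, ∀ τ : ℝ, t < τ → z + τ * u ≠ dev P w (P.vertex j)) →
    ∃ w, w.length = n ∧ Path P z u t w := by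
  intro n
  induction n with
  | zero => intro z u t t₁ _ _ _ _; exact ⟨[], rfl, trivial⟩
  | succ n ih =>
    intro z u t t₁ hu h01 hstart hav
    obtain ⟨t', ht', hG, hUU⟩ := exists_hit hu (hstart t₁ ⟨h01, le_rfl⟩)
    have htt' : t < t' := h01.trans ht'
    obtain ⟨a, ha⟩ := exists_rel_of_Gam hG (fun j => hav [] (Nat.succ_pos n) j t' htt')
    obtain ⟨η, hη, haft⟩ := after_hit ht' ha hUU
    have hstep : ∀ τ ∈ Ioc t' (t' + η / 2), refl P a z + τ * lrefl P a u ∈ U P := by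
      intro τ hτ
      rw [← refl_add]
      exact haft τ ⟨hτ.1, by linarith [hτ.2]⟩
    obtain ⟨w, hw, hp⟩ := ih (lrefl_ne_zero a hu) (by linarith : t' < t' + η / 2) hstep (by
      intro w hw j τ hτ he
      apply hav (a :: w) (by simpa using hw) j τ (by linarith)
      have h5 := congrArg (refl P a) he
      rw [refl_add, refl_refl, lrefl_lrefl] at h5
      exact h5)
    refine ⟨a :: w, by simp [hw], t', htt', fun τ hτ => ?_, ha, hp⟩
    by_cases h : τ ≤ t₁
    · exact hstart τ ⟨hτ.1, h⟩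
    · exact hUU τ ⟨by push Not at h; exact h.le, hτ.2⟩

end Pool.Agent.Lib_helper45.Bil
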