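import Pool.Agent.Lib_helper45.Bil.Pack3

/-!
# Billiards in polygons: lower bound for the harmonic sum of generalized diagonals
-/

open Set Filter Topology Metric MeasureTheory
open scoped ComplexConjugate ENNReal

namespace Pool.Agent.Lib_helper45.Bil

open Pool.Agent.Billiard

variable {P : Polygon}

theorem Corner.exists_scale (C : Corner P) {η τ₀ : ℝ} (hη : 0 < η) (hτ₀ : 0 < τ₀) :
    ∃ ω₀ > 0, ∀ ω : ℝ, 0 < ω → ω ≤ ω₀ → ω ≤ τ₀ ∧ 2 * ω * (‖C.qb‖ + ‖C.qr‖) < τ₀ * η ∧ ω < η / 4 := by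
  set Q : ℝ := ‖C.qb‖ + ‖C.qr‖ with hQ
  have hQ0 : 0 ≤ Q := by positivity
  refine ⟨min τ₀ (min (τ₀ * η / (4 * (Q + 1))) (η / 8)), by positivity, fun ω h0 h => ?_⟩
  have e1 := h.trans (min_le_left _ _)
  have e2 := (h.trans (min_le_right _ _)).trans (min_le_left _ _)
  have e3 := (h.trans (min_le_right _ _)).trans (min_le_right _ _)
  refine ⟨e1, ?_, by linarith⟩
  rw [le_div_iff₀ (by positivity)] at e2
  have : 0 < τ₀ * η := mul_pos hτ₀ hη
  nlinarith

theorem Corner.D_ne (C : Corner P) {n : ℕ} {γ : List (ZMod P.k) × ZMod P.k} (h : γ ∈ C.GD n) :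
    C.D P γ ≠ 0 := h.2.1.ne_zero

theorem Corner.sum_inv (C : Corner P) : ∃ c > 0, ∃ n₀ : ℕ, ∀ n ≥ n₀,
    c * n ≤ ∑ γ ∈ (C.GD_finite n).toFinset, 1 / ‖C.D P γ‖ := by
  obtain ⟨K, hK, hpack⟩ := packing P
  obtain ⟨η, hη, hvol⟩ := C.exists_A
  set τ₀ : ℝ := C.rad / 8 with hτ₀
  have hτp : 0 < τ₀ := by have := C.rad_pos; positivity
  obtain ⟨ω₀, hω₀, hsc⟩ := C.exists_scale hη hτp
  have hAfin : volume (C.A η) < ⊤ := by
    refine lt_of_le_of_lt (measure_mono ?_) (isCompact_closedBall (0 : ℂ) 2).measure_lt_top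
    intro u hu
    rw [mem_closedBall, dist_zero_right]; exact hu.1.2.le
  set a : ℝ := (volume (C.A η)).toReal with ha
  have hap : 0 < a := ENNReal.toReal_pos hvol.ne' hAfin.ne
  refine ⟨a ^ 2 / (256 * K), by positivity, ⌈4 * K / (a * ω₀)⌉₊ + 1, fun n hn => ?_⟩
  have hn1 : 4 * K / (a * ω₀) ≤ n := by
    refine (Nat.le_ceil _).trans ?_
    exact_mod_cast (Nat.le_succ _).trans hn
  have hn0 : (0 : ℝ) < n := by
    have : 0 < n := by omega
    exact_mod_cast this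
  set ω : ℝ := 4 * K / (n * a) with hω
  have hωp : 0 < ω := by positivity
  have hωω : ω ≤ ω₀ := by
    rw [div_le_iff₀ (by positivity)] at hn1
    rw [hω, div_le_iff₀ (by positivity)]
    linarith
  obtain ⟨s1, s2, s3⟩ := hsc ω hωp hωω
  have hB := C.beams hη hτp (by rw [hτ₀]; linarith) hωp s1 s2 s3 n
  set B := C.A η \ ⋃ γ ∈ (C.GD_finite n).toFinset, strip ω (C.D P γ) with hBdef
  have hp := hpack C n ω τ₀ B hB
  have hBfin : volume B < ⊤ := lt_of_le_of_lt (measure_mono Set.sdiff_subset) hAfin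
  set b : ℝ := (volume B).toReal with hb
  have hb0 : 0 ≤ b := ENNReal.toReal_nonneg
  have hp2 : n * (b * (ω / 2)) ≤ K := by
    have h1 : ((n : ℝ≥0∞) * (volume B * ENNReal.ofReal (ω / 2))).toReal ≤ (ENNReal.ofReal K).toReal :=
      ENNReal.toReal_mono ENNReal.ofReal_ne_top hp
    rw [ENNReal.toReal_mul, ENNReal.toReal_mul, ENNReal.toReal_natCast,
      ENNReal.toReal_ofReal (by positivity), ENNReal.toReal_ofReal hK.le] at h1
    exact h1
  have hb2 : b ≤ a / 2 := by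
    have h1 : n * (b * (ω / 2)) = 2 * K * b / a := by
      rw [hω]; field_simp; ring
    rw [h1, div_le_iff₀ hap] at hp2
    nlinarith
  have hcov : volume (C.A η) ≤ volume B +
      ∑ γ ∈ (C.GD_finite n).toFinset, ENNReal.ofReal (32 * ω / ‖C.D P γ‖) := by
    calc volume (C.A η) ≤ volume (B ∪ ⋃ γ ∈ (C.GD_finite n).toFinset, strip ω (C.D P γ)) := by
          apply measure_mono
          intro u hu
          by_cases h : u ∈ ⋃ γ ∈ (C.GD_finite n).toFinset, strip ω (C.D P γ)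
          · exact Or.inr h
          · exact Or.inl ⟨hu, h⟩
      _ ≤ volume B + volume (⋃ γ ∈ (C.GD_finite n).toFinset, strip ω (C.D P γ)) :=
          measure_union_le _ _
      _ ≤ volume B + ∑ γ ∈ (C.GD_finite n).toFinset, volume (strip ω (C.D P γ)) := by
          gcongr
          exact measure_biUnion_finset_le _ _
      _ ≤ _ := by
          gcongr with γ hγ
          rw [Set.Finite.mem_toFinset] at hγ
          exact strip_vol (C.D_ne hγ) ω
  have hcov2 : a ≤ b + ∑ γ ∈ (C.GD_finite n).toFinset, 32 * ω / ‖C.D P γ‖ := by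
    rw [← ENNReal.ofReal_sum_of_nonneg (fun γ _ => by positivity)] at hcov
    have h1 := ENNReal.toReal_mono (ENNReal.add_lt_top.2 ⟨hBfin, ENNReal.ofReal_lt_top⟩).ne hcov
    rw [ENNReal.toReal_add hBfin.ne ENNReal.ofReal_ne_top, ENNReal.toReal_ofReal
      (Finset.sum_nonneg fun γ _ => by positivity)] at h1
    exact h1
  have hsum : ∑ γ ∈ (C.GD_finite n).toFinset, 32 * ω / ‖C.D P γ‖ =
      32 * ω * ∑ γ ∈ (C.GD_finite n).toFinset, 1 / ‖C.D P γ‖ := by
    rw [Finset.mul_sum]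
    refine Finset.sum_congr rfl fun γ _ => ?_
    ring
  rw [hsum] at hcov2
  set Sg := ∑ γ ∈ (C.GD_finite n).toFinset, 1 / ‖C.D P γ‖ with hS
  have h1 : a / 2 ≤ 32 * ω * Sg := by linarith
  have h2 : 32 * ω * Sg = 128 * K * Sg / (n * a) := by rw [hω]; ring
  rw [h2, le_div_iff₀ (by positivity)] at h1
  rw [div_mul_eq_mul_div, div_le_iff₀ (by positivity)]
  nlinarith

/-- The main estimate. -/
theorem Corner.sum_len (C : Corner P) : ∃ c > 0, ∃ n₀ : ℕ, ∀ n ≥ n₀,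
    c * n ≤ ∑ γ ∈ (C.GD_finite n).toFinset, 1 / ((γ.1.length : ℝ) + 1) := by
  obtain ⟨c, hc, n₀, h⟩ := C.sum_inv
  obtain ⟨c', hc', h'⟩ := C.GD_length
  refine ⟨c / c', by positivity, n₀, fun n hn => ?_⟩
  have h1 := h n hn
  have h2 : ∑ γ ∈ (C.GD_finite n).toFinset, 1 / ‖C.D P γ‖ ≤
      ∑ γ ∈ (C.GD_finite n).toFinset, c' * (1 / ((γ.1.length : ℝ) + 1)) := by
    apply Finset.sum_le_sum
    intro γ hγ
    rw [Set.Finite.mem_toFinset] at hγ
    have h3 := h' n γ hγ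
    have h4 : 0 < ‖C.D P γ‖ := norm_pos_iff.2 (C.D_ne hγ)
    rw [← div_eq_mul_one_div, div_le_div_iff₀ h4 (by positivity)]
    linarith
  rw [← Finset.mul_sum] at h2
  rw [div_mul_eq_mul_div, div_le_iff₀ hc']
  linarith

end Pool.Agent.Lib_helper45.Bil
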